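import Pool.Agent.Helper55.AV.Poly

/-!
# AllVarieties: algebraicity of the trace over the ring generated by `coords`
-/

set_option autoImplicit false

open Polynomial MeasureTheory

namespace Pool.Agent.Helper55.AV

open Pool.Agent.Helper37.Fd Pool.Agent.Helper21.Pred

theorem countable_poly (d : ℕ) : Countable (Co d)[X] := by
  have h1 : Countable (Co d) := by
    rw [← Cardinal.mk_le_aleph0_iff]
    exact MvPolynomial.cardinalMk_le_max.trans
      (max_le (max_le (Cardinal.mk_le_aleph0_iff.2 inferInstance)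
        (Cardinal.mk_le_aleph0_iff.2 inferInstance)) le_rfl)
  rw [← Cardinal.mk_le_aleph0_iff]
  exact Polynomial.cardinalMk_le_max.trans
    (max_le (Cardinal.mk_le_aleph0_iff.2 h1) le_rfl)

open Classical in
theorem exists_reps {p : ℕ} [Fact p.Prime] (E : Type) [NontriviallyNormedField E]
    [IsUltrametricDist E] [NormedAlgebra ℚ_[p] E] [FiniteDimensional ℚ_[p] E] :
    ∃ R : Finset E, IsReps R := by
  obtain ⟨O, k, _, _, _, π, hO, hsurj, hπ, -⟩ :=
    Pool.Agent.Helper37.Ad.exists_residue (p := p) E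
  have hfin : Fintype k := Fintype.ofFinite k
  choose x hx using hsurj
  refine ⟨Finset.univ.image fun c : k => ((x c : O) : E), ?_, ?_⟩
  · intro y hy
    obtain ⟨c, -, rfl⟩ := Finset.mem_image.1 hy
    exact (hO _).1 (x c).2
  · intro y hy
    have hyO := (hO y).2 hy
    refine ⟨x (π ⟨y, hyO⟩), ⟨Finset.mem_image.2 ⟨_, Finset.mem_univ _, rfl⟩, ?_⟩, ?_⟩
    · have h1 : π (⟨y, hyO⟩ - x (π ⟨y, hyO⟩)) = 0 := by
        rw [map_sub, hx, sub_self]
      exact (hπ _).1 h1
    · rintro z ⟨hz, hz'⟩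
      obtain ⟨c, -, rfl⟩ := Finset.mem_image.1 hz
      have h1 : π (⟨y, hyO⟩ - x c) = 0 := (hπ _).2 hz'
      rw [map_sub, hx, sub_eq_zero] at h1
      rw [h1]

section

variable {Λ : Type} (ℓ : Λ → ℕ) [∀ v, Fact (ℓ v).Prime]
  {E : Λ → Type} [∀ v, NontriviallyNormedField (E v)]
  [∀ v, NormedAlgebra ℚ_[ℓ v] (E v)]
  {G : Type} [Group G] (V : ∀ v, G →* GL (Fin 2) (E v)) {d : ℕ}
  (T : ∀ (l : ℕ) [Fact l.Prime], G →* GL (Fin d) ℚ_[l])

private theorem exists_hom (v : Λ) (r : G) :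
    ∃ φ : Co d →+* Algebra.adjoin ℤ (Set.range (coords ℓ V T v r)), Function.Surjective φ ∧
      (algebraMap (Algebra.adjoin ℤ (Set.range (coords ℓ V T v r))) (E v)).comp φ =
        ev ℓ V T v r := by
  have hr := Algebra.adjoin_range_eq_range_aeval ℤ (coords ℓ V T v r)
  have hmem : ∀ q : Co d, ev ℓ V T v r q ∈ Algebra.adjoin ℤ (Set.range (coords ℓ V T v r)) := by
    intro q
    rw [hr]
    exact ⟨q, rfl⟩
  refine ⟨(ev ℓ V T v r).codRestrict _ hmem, ?_, ?_⟩
  · rintro ⟨x, hx⟩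
    have hx' := hx
    rw [hr] at hx'
    obtain ⟨q, hq⟩ := hx'
    exact ⟨q, Subtype.ext hq⟩
  · ext q
    · simp
    · rfl

theorem exists_of_isAlgebraic (v : Λ) (r : G)
    (h : IsAlgebraic (Algebra.adjoin ℤ (Set.range (coords ℓ V T v r)))
      (V v r : Matrix (Fin 2) (Fin 2) (E v)).trace) :
    ∃ P : (Co d)[X], P.map (ev ℓ V T v r) ≠ 0 ∧ valueAt ℓ V T P v r = 0 := by
  obtain ⟨φ, hφ, hφ'⟩ := exists_hom ℓ V T v r
  obtain ⟨p, hp, hp0⟩ := h
  obtain ⟨P, rfl⟩ := Polynomial.map_surjective φ hφ p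
  have h1 : P.map (ev ℓ V T v r) = (P.map φ).map
      (algebraMap (Algebra.adjoin ℤ (Set.range (coords ℓ V T v r))) (E v)) := by
    rw [Polynomial.map_map, hφ']
  refine ⟨P, ?_, ?_⟩
  · rw [h1]
    intro h0
    apply hp
    exact Polynomial.map_injective _ (FaithfulSMul.algebraMap_injective _ _)
      (h0.trans (Polynomial.map_zero _).symm)
  · rw [valueAt_eq, h1, Polynomial.eval_map]
    exact hp0

theorem isAlgebraic_of_monic (v : Λ) (r : G) (P : (Co d)[X]) (hP : P.Monic)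
    (h : valueAt ℓ V T P v r = 0) :
    IsAlgebraic (Algebra.adjoin ℤ (Set.range (coords ℓ V T v r)))
      (V v r : Matrix (Fin 2) (Fin 2) (E v)).trace := by
  obtain ⟨φ, hφ, hφ'⟩ := exists_hom ℓ V T v r
  refine ⟨P.map φ, (hP.map φ).ne_zero, ?_⟩
  rw [valueAt_eq, ← hφ', ← Polynomial.map_map, Polynomial.eval_map] at h
  exact h

/-- the generic matrices of `r` and `r⁻¹` on `T` -/
noncomputable def genT (d : ℕ) (b : Bool) : Matrix (Fin d) (Fin d) (Co d) :=
  Matrix.of fun s t => MvPolynomial.X (some (b, s, t))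

/-- the monic equation for the trace of `V v r`, if the trace of `V v (r ^ n)` is an eigenvalue of
`T (r ^ n) + det (V v (r ^ n)) T (r ^ n)⁻¹` -/
noncomputable def genP (d n : ℕ) : (Co d)[X] :=
  qpoly (genT d true ^ n) (genT d false ^ n) (MvPolynomial.X none) n

theorem genP_monic (d : ℕ) {n : ℕ} (hn : 0 < n) : (genP d n).Monic := qpoly_monic _ _ _ hn

theorem ev_X (v : Λ) (r : G) (x : Option (Bool × Fin d × Fin d)) :
    ev ℓ V T v r (MvPolynomial.X x) = coords ℓ V T v r x := by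
  show MvPolynomial.aeval (coords ℓ V T v r) (MvPolynomial.X x) = _
  rw [MvPolynomial.aeval_X]

theorem valueAt_genP (v : Λ) (r : G) (n : ℕ)
    (h : ((V v (r ^ n) : Matrix (Fin 2) (Fin 2) (E v)).trace • (1 : Matrix (Fin d) (Fin d) (E v)) -
      Bm ℓ V T v (r ^ n)).det = 0) : valueAt ℓ V T (genP d n) v r = 0 := by
  have h1 : (genT d true ^ n).map (ev ℓ V T v r) =
      (baseChange (E v) (T (ℓ v)) (r ^ n) : Matrix (Fin d) (Fin d) (E v)) := by
    have h2 : (genT d true).map (ev ℓ V T v r) =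
        (baseChange (E v) (T (ℓ v)) r : Matrix (Fin d) (Fin d) (E v)) := by
      ext s t
      rw [Matrix.map_apply, genT, Matrix.of_apply, ev_X]
      rfl
    rw [map_pow, Units.val_pow_eq_pow_val, ← h2]
    exact map_pow (ev ℓ V T v r).mapMatrix _ n
  have h1' : (genT d false ^ n).map (ev ℓ V T v r) =
      (baseChange (E v) (T (ℓ v)) (r ^ n)⁻¹ : Matrix (Fin d) (Fin d) (E v)) := by
    have h2 : (genT d false).map (ev ℓ V T v r) =
        (baseChange (E v) (T (ℓ v)) r⁻¹ : Matrix (Fin d) (Fin d) (E v)) := by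
      ext s t
      rw [Matrix.map_apply, genT, Matrix.of_apply, ev_X]
      rfl
    rw [← inv_pow, map_pow, Units.val_pow_eq_pow_val, ← h2]
    exact map_pow (ev ℓ V T v r).mapMatrix _ n
  have h3 : ev ℓ V T v r (MvPolynomial.X none) = (V v r : Matrix (Fin 2) (Fin 2) (E v)).det := by
    rw [ev_X]
    rfl
  have h4 : (V v (r ^ n) : Matrix (Fin 2) (Fin 2) (E v)) =
      (V v r : Matrix (Fin 2) (Fin 2) (E v)) ^ n := by
    rw [map_pow, Units.val_pow_eq_pow_val]
  rw [valueAt_eq, genP, qpoly_map, h1, h1', h3, qpoly, eval_comp, ← (trace_pow _ n).1,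
    Matrix.eval_charpoly, Matrix.scalar_apply, ← Matrix.smul_one_eq_diagonal]
  rw [Bm, h4, Matrix.det_pow] at h
  exact h

end

end Pool.Agent.Helper55.AV
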