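import Pool.Agent.Helper55.AV.Defs

/-!
# AllVarieties: internal definitions (common eigenvalues of powers and tensor products)
-/

set_option autoImplicit false

open NumberField Polynomial MeasureTheory Pool.Agent.Helper37.Fd

namespace Pool.Agent.Helper55.AV

/-- The determinant of `χ (B)`, where `χ` is the characteristic polynomial of `A`.  It is, up to the
sign, the product of all differences of an eigenvalue of `A` and an eigenvalue of `B`; so it is zero
if and only if `A` and `B` have a common eigenvalue. -/
def cross {K : Type*} [CommRing K] {κ : Type*} [Fintype κ] [DecidableEq κ]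
    (A : Matrix (Fin 2) (Fin 2) K) (B : Matrix κ κ K) : K :=
  (B ^ 2 - A.trace • B + A.det • (1 : Matrix κ κ K)).det

/-- The tensor product of the matrices `W (x ^ m j)`.  Its eigenvalues are the products of the
`m j`-th powers of eigenvalues of `W x`. -/
def tens {K : Type*} [CommRing K] {d : ℕ} {G : Type*} [Group G] (W : G →* GL (Fin d) K) {w : ℕ}
    (m : Fin w → ℤ) (x : G) : Matrix (Fin w → Fin d) (Fin w → Fin d) K :=
  Matrix.of fun a b => ∏ j, (W (x ^ m j) : Matrix (Fin d) (Fin d) K) (a j) (b j)

section

variable {Λ : Type*} (ℓ : Λ → ℕ) [∀ v, Fact (ℓ v).Prime]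
  {E : Λ → Type*} [∀ v, NontriviallyNormedField (E v)] [∀ v, NormedAlgebra ℚ_[ℓ v] (E v)]
  {G : Type*} [Group G] (V : ∀ v, G →* GL (Fin 2) (E v)) {d : ℕ}
  (T : ∀ (l : ℕ) [Fact l.Prime], G →* GL (Fin d) ℚ_[l])

/-- `cross` for the matrix of `r ^ n` on `V v` and the tensor product of the matrices of the
`r ^ m j` on `T (ℓ v)`: it is zero (has norm less than one) if and only if these matrices have a
common eigenvalue (modulo the maximal ideal). -/
noncomputable def crossAt (n : ℕ) {w : ℕ} (m : Fin w → ℤ) (v : Λ) (r : G) : E v :=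
  cross ((V v r : Matrix (Fin 2) (Fin 2) (E v)) ^ n) (tens (baseChange (E v) (T (ℓ v))) m r)

end

end Pool.Agent.Helper55.AV
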