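import Pool.Agent.Helper55.AV.Cdefs
import Mathlib.RingTheory.Polynomial.Dickson

/-!
# AllVarieties: algebra of common eigenvalues
-/

set_option autoImplicit false

open Polynomial

namespace Pool.Agent.Helper55.AV

theorem dickson_monic {K : Type*} [CommRing K] [Nontrivial K] (a : K) (n : ℕ) :
    (dickson 1 a (n + 1)).Monic ∧ (dickson 1 a (n + 1)).natDegree = n + 1 ∧
      (dickson 1 a n).natDegree ≤ n := by
  induction n with
  | zero =>
    refine ⟨?_, ?_, ?_⟩
    · rw [dickson_one]; exact monic_X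
    · rw [dickson_one]; exact natDegree_X
    · rw [dickson_zero]
      have : ((3 : K[X]) - ((1 : ℕ) : K[X])) = C 2 := by
        rw [Nat.cast_one, map_ofNat]; norm_num
      rw [this, natDegree_C]
  | succ n ih =>
    obtain ⟨h1, h2, h3⟩ := ih
    have hX : (X * dickson 1 a (n + 1) : K[X]).Monic := monic_X.mul h1
    have hXd : (X * dickson 1 a (n + 1) : K[X]).natDegree = n + 2 := by
      rw [monic_X.natDegree_mul h1, natDegree_X, h2]; ring
    have hlt : (C a * dickson 1 a n : K[X]).degree < (X * dickson 1 a (n + 1) : K[X]).degree := by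
      rw [degree_eq_natDegree hX.ne_zero, hXd]
      refine (degree_le_of_natDegree_le (n := n) ?_).trans_lt (by exact_mod_cast (by omega : n < n + 2))
      exact (natDegree_C_mul_le _ _).trans h3
    refine ⟨?_, ?_, h2.le⟩
    · rw [show n + 1 + 1 = n + 2 by ring, dickson_add_two]
      exact hX.sub_of_left hlt
    · rw [show n + 1 + 1 = n + 2 by ring, dickson_add_two,
        natDegree_sub_eq_left_of_natDegree_lt, hXd]
      rw [hXd]
      exact ((natDegree_C_mul_le _ _).trans h3).trans_lt (by omega)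

theorem sq_fin_two {K : Type*} [CommRing K] (A : Matrix (Fin 2) (Fin 2) K) :
    A ^ 2 = A.trace • A - A.det • (1 : Matrix (Fin 2) (Fin 2) K) := by
  rw [sq]
  ext i j
  fin_cases i <;> fin_cases j <;>
    simp [Matrix.mul_apply, Fin.sum_univ_two, Matrix.trace_fin_two, Matrix.det_fin_two] <;> ring

theorem trace_pow {K : Type*} [CommRing K] (A : Matrix (Fin 2) (Fin 2) K) (n : ℕ) :
    (A ^ n).trace = (dickson 1 A.det n).eval A.trace ∧
      (A ^ (n + 1)).trace = (dickson 1 A.det (n + 1)).eval A.trace := by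
  induction n with
  | zero =>
    refine ⟨?_, ?_⟩
    · rw [pow_zero, dickson_zero, Matrix.trace_one]
      simp
      norm_num
    · rw [zero_add, pow_one, dickson_one, eval_X]
  | succ n ih =>
    refine ⟨ih.2, ?_⟩
    rw [show n + 1 + 1 = n + 2 by ring, dickson_add_two, eval_sub, eval_mul, eval_mul, eval_X,
      eval_C, ← ih.1, ← ih.2, pow_add, sq_fin_two, mul_sub, Matrix.mul_smul, Matrix.mul_smul,
      mul_one, ← pow_succ, Matrix.trace_sub, Matrix.trace_smul, Matrix.trace_smul, smul_eq_mul,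
      smul_eq_mul]

/-- the polynomial whose roots are the traces of `A` which give a common eigenvalue of `A ^ n` and
`B` -/
noncomputable def qpoly {K : Type*} [CommRing K] {κ : Type*} [Fintype κ] [DecidableEq κ]
    (B B' : Matrix κ κ K) (δ : K) (n : ℕ) : K[X] :=
  (B + δ ^ n • B').charpoly.comp (dickson 1 δ n)

theorem qpoly_map {K L : Type*} [CommRing K] [CommRing L] (φ : K →+* L) {κ : Type*} [Fintype κ]
    [DecidableEq κ] (B B' : Matrix κ κ K) (δ : K) (n : ℕ) :
    (qpoly B B' δ n).map φ = qpoly (B.map φ) (B'.map φ) (φ δ) n := by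
  have h1 : (B + δ ^ n • B').map φ = B.map φ + (φ δ) ^ n • B'.map φ := by
    ext i j
    simp
  rw [qpoly, qpoly, Polynomial.map_comp, Polynomial.map_dickson, ← Matrix.charpoly_map, h1]

theorem qpoly_monic {K : Type*} [CommRing K] [Nontrivial K] {κ : Type*} [Fintype κ]
    [DecidableEq κ] (B B' : Matrix κ κ K) (δ : K) {n : ℕ} (hn : 0 < n) :
    (qpoly B B' δ n).Monic := by
  obtain ⟨m, rfl⟩ := Nat.exists_eq_succ_of_ne_zero hn.ne'
  obtain ⟨h1, h2, -⟩ := dickson_monic δ m
  exact (Matrix.charpoly_monic _).comp h1 (by rw [Nat.succ_eq_add_one, h2]; omega)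

theorem qpoly_natDegree_le {K : Type*} [CommRing K] [Nontrivial K] {κ : Type*} [Fintype κ]
    [DecidableEq κ] (B B' : Matrix κ κ K) (δ : K) (n : ℕ) :
    (qpoly B B' δ n).natDegree ≤ Fintype.card κ * n := by
  refine natDegree_comp_le.trans ?_
  rw [Matrix.charpoly_natDegree_eq_dim]
  exact Nat.mul_le_mul_left _ (dickson_monic δ n).2.2

theorem cross_eq {K : Type*} [CommRing K] {κ : Type*} [Fintype κ] [DecidableEq κ]
    (A : Matrix (Fin 2) (Fin 2) K) (B B' : Matrix κ κ K) (h : B * B' = 1) :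
    cross A B = (-1) ^ Fintype.card κ * B.det *
      (A.trace • (1 : Matrix κ κ K) - (B + A.det • B')).det := by
  have h1 : B ^ 2 - A.trace • B + A.det • (1 : Matrix κ κ K) =
      B * -(A.trace • (1 : Matrix κ κ K) - (B + A.det • B')) := by
    rw [neg_sub, mul_sub, mul_add, Matrix.mul_smul, Matrix.mul_smul, h, mul_one, sq]
    abel
  rw [cross, h1, Matrix.det_mul, Matrix.det_neg]
  ring

theorem cross_pow_eq {K : Type*} [CommRing K] {κ : Type*} [Fintype κ] [DecidableEq κ]
    (A : Matrix (Fin 2) (Fin 2) K) (B B' : Matrix κ κ K) (h : B * B' = 1) (n : ℕ) :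
    cross (A ^ n) B = (-1) ^ Fintype.card κ * B.det * (qpoly B B' A.det n).eval A.trace := by
  rw [cross_eq _ _ _ h, Matrix.det_pow, qpoly, eval_comp, ← (trace_pow A n).1,
    Matrix.eval_charpoly, Matrix.scalar_apply, ← Matrix.smul_one_eq_diagonal]

theorem pow_mulVec {K : Type*} [CommRing K] {d : ℕ} (B : Matrix (Fin d) (Fin d) K) (y : K)
    (w : Fin d → K) (h : B.mulVec w = y • w) (n : ℕ) : (B ^ n).mulVec w = y ^ n • w := by
  induction n with
  | zero => rw [pow_zero, pow_zero, Matrix.one_mulVec, one_smul]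
  | succ n ih =>
    rw [pow_succ, ← Matrix.mulVec_mulVec, h, Matrix.mulVec_smul, ih, smul_smul, pow_succ, mul_comm]

theorem exists_eigen {K : Type*} [Field K] {d : ℕ} (B : Matrix (Fin d) (Fin d) K) (y : K)
    (h : B.charpoly.eval y = 0) : ∃ w : Fin d → K, w ≠ 0 ∧ B.mulVec w = y • w := by
  classical
  rw [Matrix.eval_charpoly, Matrix.scalar_apply, ← Matrix.smul_one_eq_diagonal] at h
  obtain ⟨w, hw, hw'⟩ := Matrix.exists_mulVec_eq_zero_iff.mpr h
  refine ⟨w, hw, ?_⟩
  rw [Matrix.sub_mulVec, Matrix.smul_mulVec, Matrix.one_mulVec, sub_eq_zero] at hw'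
  exact hw'.symm

/-- a common eigenvalue of `A ^ n` and `B` -/
theorem cross_pow_eq_zero {K : Type*} [Field K] {κ : Type*} [Fintype κ] [DecidableEq κ]
    (A : Matrix (Fin 2) (Fin 2) K) (B : Matrix κ κ K) (x z : K) (hx : A.charpoly.eval x = 0)
    (w : κ → K) (hw : w ≠ 0) (h2 : B.mulVec w = z • w) (n : ℕ) (hxz : x ^ n = z) :
    cross (A ^ n) B = 0 := by
  obtain ⟨u, hu, hu'⟩ := exists_eigen A x hx
  have h1 := pow_mulVec A x u hu' n
  rw [hxz] at h1
  have h3 : z ^ 2 - (A ^ n).trace * z + (A ^ n).det = 0 := by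
    have h4 : ((A ^ n) ^ 2 - (A ^ n).trace • (A ^ n) +
        (A ^ n).det • (1 : Matrix (Fin 2) (Fin 2) K)).mulVec u = 0 := by
      rw [sq_fin_two (A ^ n)]
      have h5 : (A ^ n).trace • A ^ n - (A ^ n).det • (1 : Matrix (Fin 2) (Fin 2) K) -
          (A ^ n).trace • A ^ n + (A ^ n).det • (1 : Matrix (Fin 2) (Fin 2) K) = 0 := by abel
      rw [h5, Matrix.zero_mulVec]
    rw [Matrix.add_mulVec, Matrix.sub_mulVec, Matrix.smul_mulVec, Matrix.smul_mulVec,
      Matrix.one_mulVec, sq, ← Matrix.mulVec_mulVec, h1, Matrix.mulVec_smul, h1, smul_smul,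
      smul_smul, ← sub_smul, ← add_smul] at h4
    rcases smul_eq_zero.1 h4 with h5 | h5
    · rw [sq]; exact h5
    · exact absurd h5 hu
  refine Matrix.exists_mulVec_eq_zero_iff.mp ⟨w, hw, ?_⟩
  rw [Matrix.add_mulVec, Matrix.sub_mulVec, Matrix.smul_mulVec, Matrix.smul_mulVec,
    Matrix.one_mulVec, sq, ← Matrix.mulVec_mulVec, h2, Matrix.mulVec_smul, h2, smul_smul,
    smul_smul, ← sub_smul, ← add_smul, ← sq, h3, zero_smul]

theorem cross_map {K L : Type*} [CommRing K] [CommRing L] (φ : K →+* L) {κ : Type*} [Fintype κ]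
    [DecidableEq κ] (A : Matrix (Fin 2) (Fin 2) K) (B : Matrix κ κ K) :
    cross (A.map φ) (B.map φ) = φ (cross A B) := by
  rw [cross, cross, RingHom.map_det]
  have h1 : (A.map φ).trace = φ A.trace := by
    rw [Matrix.trace_fin_two, Matrix.trace_fin_two]
    simp
  have h2 : (A.map φ).det = φ A.det := by
    rw [RingHom.map_det]
    rfl
  have h3 : (B.map φ) ^ 2 = φ.mapMatrix (B ^ 2) := (map_pow φ.mapMatrix B 2).symm
  congr 1
  rw [h1, h2, h3]
  ext i j
  by_cases hij : i = j
  · subst hij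
    simp
  · simp [hij]

section tprod

/-- the tensor product of matrices -/
def tprod {K : Type*} [CommRing K] {d w : ℕ} (A : Fin w → Matrix (Fin d) (Fin d) K) :
    Matrix (Fin w → Fin d) (Fin w → Fin d) K :=
  Matrix.of fun a b => ∏ j, A j (a j) (b j)

theorem tprod_mul {K : Type*} [CommRing K] {d w : ℕ} (A B : Fin w → Matrix (Fin d) (Fin d) K) :
    tprod A * tprod B = tprod fun j => A j * B j := by
  ext a b
  rw [Matrix.mul_apply]
  simp only [tprod, Matrix.of_apply, Matrix.mul_apply]
  rw [Finset.prod_univ_sum, Fintype.piFinset_univ]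
  exact Finset.sum_congr rfl fun c _ => Finset.prod_mul_distrib.symm

theorem tprod_one {K : Type*} [CommRing K] {d w : ℕ} :
    tprod (fun _ : Fin w => (1 : Matrix (Fin d) (Fin d) K)) = 1 := by
  ext a b
  simp only [tprod, Matrix.of_apply, Matrix.one_apply]
  by_cases h : a = b
  · subst h
    simp
  · rw [if_neg h]
    obtain ⟨j, hj⟩ := Function.ne_iff.1 h
    exact Finset.prod_eq_zero (Finset.mem_univ j) (if_neg hj)

theorem tprod_map {K L : Type*} [CommRing K] [CommRing L] (φ : K →+* L) {d w : ℕ}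
    (A : Fin w → Matrix (Fin d) (Fin d) K) :
    (tprod A).map φ = tprod fun j => (A j).map φ := by
  ext a b
  simp [tprod, map_prod]

theorem tprod_mulVec {K : Type*} [Field K] {d w : ℕ} (A : Fin w → Matrix (Fin d) (Fin d) K)
    (z : Fin w → K) (u : Fin w → Fin d → K) (hu : ∀ j, u j ≠ 0)
    (h : ∀ j, (A j).mulVec (u j) = z j • u j) :
    ∃ x : (Fin w → Fin d) → K, x ≠ 0 ∧ (tprod A).mulVec x = (∏ j, z j) • x := by
  refine ⟨fun a => ∏ j, u j (a j), ?_, ?_⟩
  · have h1 : ∀ j, ∃ a, u j a ≠ 0 := fun j => Function.ne_iff.1 (hu j)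
    choose a ha using h1
    intro h0
    have h2 := congrFun h0 a
    exact (Finset.prod_ne_zero_iff.2 fun j _ => ha j) h2
  · funext a
    show ∑ b : Fin w → Fin d, (∏ j, A j (a j) (b j)) * ∏ j, u j (b j) =
      (∏ j, z j) * ∏ j, u j (a j)
    rw [← Finset.prod_mul_distrib]
    have h2 : ∀ j, ∑ c, A j (a j) c * u j c = z j * u j (a j) := by
      intro j
      have h3 := congrFun (h j) (a j)
      exact h3
    rw [Finset.prod_congr rfl fun j _ => (h2 j).symm, Finset.prod_univ_sum, Fintype.piFinset_univ]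
    exact Finset.sum_congr rfl fun c _ => Finset.prod_mul_distrib.symm

variable {K : Type*} [CommRing K] {d : ℕ} {G : Type*} [Group G] (W : G →* GL (Fin d) K) {w : ℕ}
  (m : Fin w → ℤ)

theorem tens_eq (x : G) : tens W m x = tprod fun j => (W (x ^ m j) : Matrix (Fin d) (Fin d) K) :=
  rfl

theorem tens_mul_inv (x : G) : tens W m x * tens W (fun j => -m j) x = 1 := by
  rw [tens_eq, tens_eq, tprod_mul, ← tprod_one]
  congr 1
  funext j
  rw [← Units.val_mul, ← map_mul, zpow_neg, mul_inv_cancel, map_one, Units.val_one]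

theorem tens_conj (x y : G) : tens W m (y * x * y⁻¹) =
    tprod (fun _ : Fin w => (W y : Matrix (Fin d) (Fin d) K)) * tens W m x *
      tprod (fun _ : Fin w => (W y⁻¹ : Matrix (Fin d) (Fin d) K)) := by
  rw [tens_eq, tens_eq, tprod_mul, tprod_mul]
  congr 1
  funext j
  rw [conj_zpow, map_mul, map_mul, Units.val_mul, Units.val_mul]

theorem tens_mul_of_eq_one (h x : G) (hh : W h = 1) : tens W m (h * x) = tens W m x := by
  rw [tens_eq, tens_eq]
  congr 1
  funext j
  have h1 : W ((h * x) ^ m j) = W (x ^ m j) := by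
    rw [map_zpow, map_mul, hh, one_mul, map_zpow]
  rw [h1]

end tprod

/-- the product of an upper and a lower unipotent matrix -/
def um {k : Type*} [CommRing k] (s t : k) : Matrix (Fin 2) (Fin 2) k := !![1 + t * s, t; s, 1]

theorem um_det {k : Type*} [CommRing k] (s t : k) : (um s t).det = 1 := by
  rw [um, Matrix.det_fin_two_of]
  ring

theorem um_trace {k : Type*} [CommRing k] (s t : k) (A : Matrix (Fin 2) (Fin 2) k) :
    (um s t * A).trace = t * (s * A 0 0 + A 1 0) + (A 0 0 + s * A 0 1 + A 1 1) := by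
  rw [Matrix.trace_fin_two, Matrix.mul_apply, Matrix.mul_apply, Fin.sum_univ_two, Fin.sum_univ_two]
  simp only [um, Matrix.of_apply, Matrix.cons_val', Matrix.cons_val_zero, Matrix.cons_val_one,
    Matrix.cons_val_fin_one]
  ring

theorem um_map {K L : Type*} [CommRing K] [CommRing L] (φ : K →+* L) (s t : K) :
    (um s t).map φ = um (φ s) (φ t) := by
  ext i j
  fin_cases i <;> fin_cases j <;> simp [um]

/-- `cross` of powers of products under a ring homomorphism -/
theorem cross_um_map {K L : Type*} [CommRing K] [CommRing L] (φ : K →+* L) {κ : Type*}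
    [Fintype κ] [DecidableEq κ] (s t : K)
    (A : Matrix (Fin 2) (Fin 2) K) (B : Matrix κ κ K) (n : ℕ) :
    cross ((um (φ s) (φ t) * A.map φ) ^ n) (B.map φ) =
      φ (cross ((um s t * A) ^ n) B) := by
  have h2 : ∀ {m : ℕ} (A : Matrix (Fin m) (Fin m) K), (A.map φ) ^ n = (A ^ n).map φ := fun A =>
    (map_pow φ.mapMatrix A n).symm
  rw [← um_map, ← Matrix.map_mul, h2, cross_map]

section count

variable {k : Type*} [Field k]

open Classical in
/-- few of the matrices `um s t * A` have their trace among the roots of `Q` -/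
theorem count_le {σ : Type*} (S : Finset σ) (ρ : σ → k) (hρ : Set.InjOn ρ S)
    (A : Matrix (Fin 2) (Fin 2) k) (hA : A.det ≠ 0) (Q : k[X]) (hQ : Q ≠ 0) :
    ((S ×ˢ S).filter fun p => Q.eval (um (ρ p.1) (ρ p.2) * A).trace = 0).card ≤
      S.card * (Q.natDegree + 1) := by
  have hbad : (S.filter fun s => ρ s * A 0 0 + A 1 0 = 0).card ≤ 1 := by
    rw [Finset.card_le_one]
    intro s hs s' hs'
    obtain ⟨h1, h2⟩ := Finset.mem_filter.1 hs
    obtain ⟨h3, h4⟩ := Finset.mem_filter.1 hs'
    refine hρ h1 h3 ?_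
    have ha : A 0 0 ≠ 0 := by
      intro h0
      rw [h0, mul_zero, zero_add] at h2
      apply hA
      rw [Matrix.det_fin_two, h0, h2]
      ring
    have h5 : (ρ s - ρ s') * A 0 0 = 0 := by linear_combination h2 - h4
    rcases mul_eq_zero.1 h5 with h6 | h6
    · exact sub_eq_zero.1 h6
    · exact absurd h6 ha
  have hfib : ∀ s ∈ S, (S.filter fun t => Q.eval (um (ρ s) (ρ t) * A).trace = 0).card ≤
      Q.natDegree + (if ρ s * A 0 0 + A 1 0 = 0 then S.card else 0) := by
    intro s _
    split_ifs with h0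
    · exact (Finset.card_filter_le _ _).trans (Nat.le_add_left _ _)
    · rw [add_zero]
      have h1 : (S.filter fun t => Q.eval (um (ρ s) (ρ t) * A).trace = 0).card ≤
          Q.roots.toFinset.card := by
        refine Finset.card_le_card_of_injOn (fun t => (um (ρ s) (ρ t) * A).trace) ?_ ?_
        · intro t ht
          obtain ⟨-, h2⟩ := Finset.mem_filter.1 (Finset.mem_coe.1 ht)
          rw [Finset.mem_coe, Multiset.mem_toFinset, Polynomial.mem_roots hQ]
          exact h2
        · intro t ht t' ht' htt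
          obtain ⟨h2, -⟩ := Finset.mem_filter.1 (Finset.mem_coe.1 ht)
          obtain ⟨h3, -⟩ := Finset.mem_filter.1 (Finset.mem_coe.1 ht')
          refine hρ h2 h3 ?_
          simp only [um_trace] at htt
          have h4 : (ρ t - ρ t') * (ρ s * A 0 0 + A 1 0) = 0 := by linear_combination htt
          rcases mul_eq_zero.1 h4 with h6 | h6
          · exact sub_eq_zero.1 h6
          · exact absurd h6 h0
      exact h1.trans ((Multiset.toFinset_card_le _).trans (Polynomial.card_roots' _))
  calc ((S ×ˢ S).filter fun p => Q.eval (um (ρ p.1) (ρ p.2) * A).trace = 0).card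
      = ∑ s ∈ S, (S.filter fun t => Q.eval (um (ρ s) (ρ t) * A).trace = 0).card := by
        rw [Finset.card_filter, Finset.sum_product]
        refine Finset.sum_congr rfl fun s _ => ?_
        rw [Finset.card_filter]
    _ ≤ ∑ s ∈ S, (Q.natDegree + (if ρ s * A 0 0 + A 1 0 = 0 then S.card else 0)) :=
        Finset.sum_le_sum hfib
    _ = S.card * Q.natDegree + (S.filter fun s => ρ s * A 0 0 + A 1 0 = 0).card * S.card := by
        rw [Finset.sum_add_distrib, Finset.sum_const, smul_eq_mul, ← Finset.sum_filter,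
          Finset.sum_const, smul_eq_mul]
    _ ≤ S.card * Q.natDegree + 1 * S.card := by
        exact Nat.add_le_add_left (Nat.mul_le_mul_right _ hbad) _
    _ = S.card * (Q.natDegree + 1) := by ring

end count

end Pool.Agent.Helper55.AV
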