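import Pool.Agent.Helper37.Ub.Defs

/-!
# Definitions for MP_6cbef8_nt, all abelian varieties at the same time
-/

set_option autoImplicit false

open NumberField Polynomial MeasureTheory Pool.Agent.Helper37.Fd

namespace Pool.Agent.Helper55.AV

/-- The set `D` of natural numbers has the natural density `δ`. -/
def HasDensity (D : Set ℕ) (δ : ℝ) : Prop :=
  Filter.Tendsto (fun N : ℕ => ((D ∩ Set.Iio N).ncard : ℝ) / (N : ℝ)) Filter.atTop (nhds δ)

/-- The sequence `r` is equidistributed in the conjugacy classes of `G`: for every open and closed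
set `C` which is invariant under conjugation, the set of the `k` with `r k ∈ C` has the natural
density `μ C / μ G`.  (By the theorem of Chebotarev this holds for the Frobenius elements of a
Galois group, if the places of the number field are ordered by their norms.) -/
def Equidistributed {G : Type*} [Group G] [TopologicalSpace G] [MeasurableSpace G] (μ : Measure G)
    (r : ℕ → G) : Prop :=
  ∀ C : Set G, IsClopen C → (∀ x ∈ C, ∀ y : G, y * x * y⁻¹ ∈ C) →
    HasDensity {k | r k ∈ C} (μ C / μ Set.univ).toReal

/-- A root of `f` is multiplicatively dependent on the roots of `g`: over an algebraic closure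
there are a root `x` of `f` and `n > 0` such that `x ^ n` is a product of roots of `g` and of
inverses of roots of `g`. -/
def Dependent {K : Type*} [Field K] (f g : K[X]) : Prop :=
  ∃ (x : AlgebraicClosure K) (n : ℕ), aeval x f = 0 ∧ 0 < n ∧
    x ^ n ∈ Submonoid.closure {z : AlgebraicClosure K | aeval z g = 0 ∨ aeval z⁻¹ g = 0}

/-- All complex roots of all conjugates of `f` have the absolute value `√q`. -/
def IsWeil {M : Type*} [Field M] (q : ℕ) (f : (𝓞 M)[X]) : Prop :=
  ∀ (σ : M →+* ℂ) (z : ℂ), f.eval₂ (σ.comp (algebraMap (𝓞 M) M)) z = 0 → ‖z‖ ^ 2 = (q : ℝ)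

section

variable {Λ : Type*} (ℓ : Λ → ℕ) [∀ v, Fact (ℓ v).Prime]
  {E : Λ → Type*} [∀ v, NontriviallyNormedField (E v)] [∀ v, NormedAlgebra ℚ_[ℓ v] (E v)]
  {G : Type*} [Group G] (V : ∀ v, G →* GL (Fin 2) (E v)) {d : ℕ}
  (T : ∀ (l : ℕ) [Fact l.Prime], G →* GL (Fin d) ℚ_[l])

/-- The determinant of `V v r` and the entries of the matrices `T (ℓ v) r` and `T (ℓ v) r⁻¹`, as
elements of `E v`. -/
noncomputable def coords (v : Λ) (r : G) : Option (Bool × Fin d × Fin d) → E v
  | none => (V v r : Matrix (Fin 2) (Fin 2) (E v)).det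
  | some (true, s, t) => (baseChange (E v) (T (ℓ v)) r : Matrix (Fin d) (Fin d) (E v)) s t
  | some (false, s, t) => (baseChange (E v) (T (ℓ v)) r⁻¹ : Matrix (Fin d) (Fin d) (E v)) s t

/-- The value of the polynomial `P`, whose coefficients are integral polynomials in `coords`, at
the trace of `V v r`.  If `P` is monic, then `valueAt P v r = 0` is an integral equation for the
trace of `V v r`, and `‖valueAt P v r‖ < 1` is an integral equation modulo the maximal ideal. -/
noncomputable def valueAt (P : (MvPolynomial (Option (Bool × Fin d × Fin d)) ℤ)[X]) (v : Λ)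
    (r : G) : E v :=
  P.eval₂ ((MvPolynomial.aeval (coords ℓ V T v r) : _ →ₐ[ℤ] E v) :
      MvPolynomial (Option (Bool × Fin d × Fin d)) ℤ →+* E v)
    (V v r : Matrix (Fin 2) (Fin 2) (E v)).trace

end

end Pool.Agent.Helper55.AV
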