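import Pool.Agent.Helper55.AV.Defs

/-!
# AllVarieties: natural density
-/

set_option autoImplicit false

open Filter

namespace Pool.Agent.Helper55.AV

private theorem fin_inter (K : Set ℕ) (N : ℕ) : (K ∩ Set.Iio N).Finite :=
  (Set.finite_Iio N).subset Set.inter_subset_right

theorem density_zero_of {K : Set ℕ}
    (h : ∀ ε : ℝ, 0 < ε → ∀ᶠ N : ℕ in atTop, ((K ∩ Set.Iio N).ncard : ℝ) ≤ ε * N) :
    HasDensity K 0 := by
  rw [HasDensity, Metric.tendsto_nhds]
  intro ε hε
  filter_upwards [h (ε / 2) (by linarith), eventually_gt_atTop 0] with N hN hN0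
  have h1 : (0 : ℝ) < N := by exact_mod_cast hN0
  rw [Real.dist_eq, sub_zero, abs_of_nonneg (by positivity), div_lt_iff₀ h1]
  nlinarith

theorem density_le {K : Set ℕ} {δ : ℝ} (h : HasDensity K δ) {ε : ℝ} (hε : δ < ε) :
    ∀ᶠ N : ℕ in atTop, ((K ∩ Set.Iio N).ncard : ℝ) ≤ ε * N := by
  filter_upwards [h.eventually_lt_const hε, eventually_gt_atTop 0] with N hN hN0
  have h1 : (0 : ℝ) < N := by exact_mod_cast hN0
  rw [div_lt_iff₀ h1] at hN
  exact hN.le

theorem density_zero_of_small {K : Set ℕ}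
    (h : ∀ ε : ℝ, 0 < ε → ∃ (C : Set ℕ) (δ : ℝ), HasDensity C δ ∧ δ < ε ∧ (K \ C).Finite) :
    HasDensity K 0 := by
  refine density_zero_of fun ε hε => ?_
  obtain ⟨C, δ, hC, hδ, hfin⟩ := h (ε / 2) (by linarith)
  obtain ⟨m, hm⟩ := exists_nat_gt (((K \ C).ncard : ℝ) / (ε / 2))
  filter_upwards [density_le hC hδ, eventually_ge_atTop m] with N hN hN'
  have h1 : (K ∩ Set.Iio N).ncard ≤ (C ∩ Set.Iio N).ncard + (K \ C).ncard := by
    refine (Set.ncard_le_ncard (t := (C ∩ Set.Iio N) ∪ (K \ C)) ?_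
      ((fin_inter C N).union hfin)).trans (Set.ncard_union_le _ _)
    rintro k ⟨hk, hk'⟩
    by_cases hkC : k ∈ C
    · exact Or.inl ⟨hkC, hk'⟩
    · exact Or.inr ⟨hk, hkC⟩
  have h2 : ((K ∩ Set.Iio N).ncard : ℝ) ≤ ((C ∩ Set.Iio N).ncard : ℝ) + ((K \ C).ncard : ℝ) := by
    exact_mod_cast h1
  have h3 : ((K \ C).ncard : ℝ) < (ε / 2) * m := by
    rw [div_lt_iff₀ (by linarith)] at hm
    linarith
  have h4 : (m : ℝ) ≤ N := by exact_mod_cast hN'
  nlinarith

theorem density_compl {K : Set ℕ} {δ : ℝ} (h : HasDensity K δ) : HasDensity Kᶜ (1 - δ) := by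
  rw [HasDensity] at h ⊢
  refine (h.const_sub 1).congr' ?_
  filter_upwards [eventually_gt_atTop 0] with N hN0
  have h1 : (K ∩ Set.Iio N).ncard + (Kᶜ ∩ Set.Iio N).ncard = N := by
    rw [← Set.ncard_union_eq (by
      rw [Set.disjoint_left]
      rintro k ⟨h1, -⟩ ⟨h2, -⟩
      exact h2 h1) (fin_inter _ _) (fin_inter _ _), ← Set.union_inter_distrib_right,
      Set.union_compl_self, Set.univ_inter]
    have h2 := Set.ncard_coe_finset (Finset.range N)
    rw [Finset.coe_range, Finset.card_range] at h2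
    exact h2
  have h2 : ((K ∩ Set.Iio N).ncard : ℝ) + ((Kᶜ ∩ Set.Iio N).ncard : ℝ) = N := by exact_mod_cast h1
  have h3 : (N : ℝ) ≠ 0 := by exact_mod_cast hN0.ne'
  rw [eq_div_iff h3, sub_mul, one_mul, div_mul_cancel₀ _ h3]
  linarith

theorem infinite_inter {D C : Set ℕ} {δ : ℝ} (hD : HasDensity D 1) (hC : HasDensity C δ)
    (hδ : 0 < δ) : (D ∩ C).Infinite := by
  intro hfin
  have h0 : HasDensity C 0 := by
    refine density_zero_of_small fun ε hε => ⟨Dᶜ, 0, ?_, hε, ?_⟩
    · have h1 := density_compl hD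
      rwa [sub_self] at h1
    · refine hfin.subset ?_
      rintro k ⟨hk, hk'⟩
      rw [Set.mem_compl_iff, not_not] at hk'
      exact ⟨hk', hk⟩
  exact hδ.ne' (tendsto_nhds_unique hC h0)

theorem density_univ : HasDensity Set.univ 1 := by
  have h0 : HasDensity ∅ 0 := by
    refine density_zero_of fun ε hε => Eventually.of_forall fun N => ?_
    rw [Set.empty_inter, Set.ncard_empty, Nat.cast_zero]
    positivity
  have h1 := density_compl h0
  rwa [Set.compl_empty, sub_zero] at h1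

theorem infinite_of_pos {C : Set ℕ} {δ : ℝ} (hC : HasDensity C δ) (hδ : 0 < δ) : C.Infinite := by
  have h1 := infinite_inter density_univ hC hδ
  rwa [Set.univ_inter] at h1

theorem density_union {K L : Set ℕ} (hK : HasDensity K 0) (hL : HasDensity L 0) :
    HasDensity (K ∪ L) 0 := by
  refine density_zero_of fun ε hε => ?_
  filter_upwards [density_le hK (ε := ε / 2) (by linarith),
    density_le hL (ε := ε / 2) (by linarith)] with N h1 h2
  have h3 : ((K ∪ L) ∩ Set.Iio N).ncard ≤ (K ∩ Set.Iio N).ncard + (L ∩ Set.Iio N).ncard := by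
    rw [Set.union_inter_distrib_right]
    exact Set.ncard_union_le _ _
  have h4 : (((K ∪ L) ∩ Set.Iio N).ncard : ℝ) ≤
      ((K ∩ Set.Iio N).ncard : ℝ) + ((L ∩ Set.Iio N).ncard : ℝ) := by exact_mod_cast h3
  linarith

theorem density_biUnion {γ : Type*} (Γ : Finset γ) (K : γ → Set ℕ)
    (h : ∀ x ∈ Γ, HasDensity (K x) 0) : HasDensity {k | ∃ x ∈ Γ, k ∈ K x} 0 := by
  classical
  induction Γ using Finset.induction_on with
  | empty =>
    have h1 : {k | ∃ x ∈ (∅ : Finset γ), k ∈ K x} = ∅ := by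
      ext k
      simp
    rw [h1]
    refine density_zero_of fun ε hε => Eventually.of_forall fun N => ?_
    rw [Set.empty_inter, Set.ncard_empty, Nat.cast_zero]
    positivity
  | insert x Γ _ ih =>
    have h1 : {k | ∃ y ∈ insert x Γ, k ∈ K y} = K x ∪ {k | ∃ y ∈ Γ, k ∈ K y} := by
      ext k
      simp [Finset.mem_insert, or_and_right, exists_or]
    rw [h1]
    exact density_union (h x (Finset.mem_insert_self x Γ))
      (ih fun y hy => h y (Finset.mem_insert_of_mem hy))

/-- countably many sets of density zero are almost disjoint from a set of density one -/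
theorem exists_density_one (K : ℕ → Set ℕ) (hK : ∀ n, HasDensity (K n) 0) :
    ∃ D, HasDensity D 1 ∧ ∀ n, (D ∩ K n).Finite := by
  -- increasing unions
  let K' : ℕ → Set ℕ := fun n => {k | ∃ i ≤ n, k ∈ K i}
  have hK' : ∀ n, HasDensity (K' n) 0 := by
    intro n
    induction n with
    | zero =>
      have h1 : K' 0 = K 0 := by
        ext k
        constructor
        · rintro ⟨i, hi, hk⟩
          rwa [Nat.le_zero.1 hi] at hk
        · intro hk
          exact ⟨0, le_rfl, hk⟩
      rw [h1]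
      exact hK 0
    | succ n ih =>
      have h1 : K' (n + 1) = K' n ∪ K (n + 1) := by
        ext k
        constructor
        · rintro ⟨i, hi, hk⟩
          rcases Nat.le_succ_iff.1 hi with h2 | h2
          · exact Or.inl ⟨i, h2, hk⟩
          · rw [h2] at hk
            exact Or.inr hk
        · rintro (⟨i, hi, hk⟩ | hk)
          · exact ⟨i, by omega, hk⟩
          · exact ⟨n + 1, le_rfl, hk⟩
      rw [h1]
      exact density_union ih (hK _)
  have hmono : ∀ {i n}, i ≤ n → K' i ⊆ K' n := by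
    rintro i n hin k ⟨i', hi', hk⟩
    exact ⟨i', hi'.trans hin, hk⟩
  have hex : ∀ n, ∃ m : ℕ, ∀ N, m ≤ N → ((K' n ∩ Set.Iio N).ncard : ℝ) ≤ 1 / (n + 1 : ℝ) * N := by
    intro n
    exact eventually_atTop.1 (density_le (hK' n) (by positivity))
  choose m₀ hm₀ using hex
  -- a strictly increasing sequence
  let m : ℕ → ℕ := fun n => ∑ i ∈ Finset.range (n + 1), (m₀ i + 1)
  have hm_succ : ∀ n, m (n + 1) = m n + (m₀ (n + 1) + 1) := fun n => Finset.sum_range_succ _ _
  have hmstrict : StrictMono m := strictMono_nat_of_lt_succ fun n => by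
    rw [hm_succ]
    omega
  have hm₀m : ∀ n, m₀ n ≤ m n := by
    intro n
    cases n with
    | zero =>
      show m₀ 0 ≤ ∑ i ∈ Finset.range (0 + 1), (m₀ i + 1)
      simp
    | succ n =>
      rw [hm_succ]
      omega
  have hn : ∀ N j, m j ≤ N → ∃ n, j ≤ n ∧ m n ≤ N ∧ N < m (n + 1) := by
    intro N j hj
    have h1 : j ≤ N := (hmstrict.le_apply).trans hj
    refine ⟨Nat.findGreatest (fun n => m n ≤ N) N, Nat.le_findGreatest h1 hj,
      Nat.findGreatest_spec (P := fun n => m n ≤ N) h1 hj, ?_⟩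
    by_contra h2
    rw [not_lt] at h2
    have h3 : Nat.findGreatest (fun n => m n ≤ N) N + 1 ≤ N := (hmstrict.le_apply).trans h2
    have h4 := Nat.le_findGreatest (P := fun n => m n ≤ N) h3 h2
    omega
  let B : Set ℕ := {k | ∃ n, m n ≤ k ∧ k < m (n + 1) ∧ k ∈ K' n}
  have hB : HasDensity B 0 := by
    refine density_zero_of fun ε hε => ?_
    obtain ⟨j, hj⟩ := exists_nat_one_div_lt hε
    filter_upwards [eventually_ge_atTop (m j)] with N hN
    obtain ⟨n, hjn, hn1, hn2⟩ := hn N j hN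
    have h1 : B ∩ Set.Iio N ⊆ K' n ∩ Set.Iio N := by
      rintro k ⟨⟨i, hi1, hi2, hi3⟩, hk⟩
      refine ⟨hmono ?_ hi3, hk⟩
      by_contra h2
      rw [not_le] at h2
      have h3 : m (n + 1) ≤ m i := hmstrict.monotone h2
      have h4 : k < N := hk
      omega
    have h2 : ((B ∩ Set.Iio N).ncard : ℝ) ≤ ((K' n ∩ Set.Iio N).ncard : ℝ) := by
      exact_mod_cast Set.ncard_le_ncard h1 (fin_inter _ _)
    refine (h2.trans (hm₀ n N ((hm₀m n).trans hn1))).trans ?_
    refine mul_le_mul_of_nonneg_right ?_ (Nat.cast_nonneg _)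
    refine le_trans ?_ hj.le
    have h3 : (j : ℝ) ≤ n := by exact_mod_cast hjn
    exact one_div_le_one_div_of_le (by positivity) (by linarith)
  refine ⟨Bᶜ, ?_, fun n => ?_⟩
  · have h1 := density_compl hB
    rwa [sub_zero] at h1
  · refine (Set.finite_Iio (m n)).subset ?_
    rintro k ⟨hk, hk'⟩
    by_contra h2
    rw [Set.mem_Iio, not_lt] at h2
    obtain ⟨i, hi, hi1, hi2⟩ := hn k n h2
    exact hk ⟨i, hi1, hi2, n, hi, hk'⟩

end Pool.Agent.Helper55.AV
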