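import Pool.Agent.Helper55.AV.Prob

/-!
# AllVarieties: consequences of potential containment at one place
-/

set_option autoImplicit false

open NumberField Polynomial

namespace Pool.Agent.Helper55.AV

open Pool.Agent.Helper37.Af Pool.Agent.Helper37.Fd Pool.Agent.Helper37.Ad Pool.Agent.Helper37.Ub

theorem charpoly_dvd {K : Type*} [Field K] {n : ℕ} (V : Matrix (Fin 2) (Fin 2) K)
    (A : Matrix (Fin n) (Fin n) K) (P : Matrix (Fin n) (Fin 2) K)
    (hP : Function.Injective P.mulVec) (h : A * P = P * V) : V.charpoly ∣ A.charpoly := by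
  classical
  have hli : LinearIndependent K (fun i : Fin 2 => P.mulVec (Pi.single i 1)) := by
    have h1 : LinearIndependent K (fun i : Fin 2 => P.mulVecLin (Pi.single i (1 : K))) := by
      have h2 : LinearIndependent K (fun i : Fin 2 => (Pi.single i (1 : K) : Fin 2 → K)) := by
        have h3 := (Pi.basisFun K (Fin 2)).linearIndependent
        have h4 : (fun i : Fin 2 => (Pi.single i (1 : K) : Fin 2 → K)) = Pi.basisFun K (Fin 2) := by
          funext i
          simp
        rw [h4]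
        exact h3
      exact h2.map' P.mulVecLin (LinearMap.ker_eq_bot.mpr hP)
    exact h1
  obtain ⟨b, hb⟩ : ∃ b : Module.Basis (Fin 2 ⊕ Module.Basis.sumExtendIndex hli) K (Fin n → K),
      ∀ i : Fin 2, b (Sum.inl i) = P.mulVec (Pi.single i 1) := by
    refine ⟨Module.Basis.sumExtend hli, fun i => ?_⟩
    simp only [Module.Basis.sumExtend, Module.Basis.coe_reindex, Function.comp_apply,
      Module.Basis.coe_extend]
    have : DecidablePred (· ∈ Set.range fun i : Fin 2 => P.mulVec (Pi.single i 1)) :=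
      Classical.decPred _
    exact congrArg Subtype.val (Equiv.Set.sumDiffSubset_apply_inl
      (hli.linearIndepOn_id.subset_extend _)
      (Equiv.ofInjective (fun i : Fin 2 => P.mulVec (Pi.single i 1)) hli.injective i))
  obtain ⟨κ, hκ, hκ'⟩ : ∃ κ : Type _, ∃ _ : Fintype κ, κ = Module.Basis.sumExtendIndex hli := by
    have : Fintype (Fin 2 ⊕ Module.Basis.sumExtendIndex hli) :=
      FiniteDimensional.fintypeBasisIndex b
    have h2 : Finite (Module.Basis.sumExtendIndex hli) :=
      Finite.of_injective (Sum.inr : _ → Fin 2 ⊕ Module.Basis.sumExtendIndex hli)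
        Sum.inr_injective
    exact ⟨_, Fintype.ofFinite _, rfl⟩
  subst hκ'
  have hcol : ∀ (j : Fin 2), A.mulVec (P.mulVec (Pi.single j 1)) =
      ∑ i, V i j • P.mulVec (Pi.single i 1) := by
    intro j
    rw [Matrix.mulVec_mulVec, h, ← Matrix.mulVec_mulVec]
    have h1 : V.mulVec (Pi.single j 1) = ∑ i, V i j • (Pi.single i (1 : K) : Fin 2 → K) := by
      funext k
      simp [Finset.sum_apply, Pi.single_apply]
    rw [h1, Matrix.mulVec_sum]
    simp only [Matrix.mulVec_smul]
  have hrep : ∀ (j : Fin 2) (i : Fin 2), b.repr (A.mulVec (b (Sum.inl j))) (Sum.inl i) = V i j := by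
    intro j i
    rw [hb, hcol]
    have h1 : ∀ k : Fin 2, b.repr (P.mulVec (Pi.single k 1)) = Finsupp.single (Sum.inl k) 1 := by
      intro k
      rw [← hb, Module.Basis.repr_self]
    simp only [map_sum, map_smul, h1, Finsupp.coe_finsetSum, Finsupp.coe_smul, Finset.sum_apply,
      Pi.smul_apply, Finsupp.single_apply, smul_eq_mul]
    simp
  have hrep' : ∀ (j : Fin 2) (i : Module.Basis.sumExtendIndex hli),
      b.repr (A.mulVec (b (Sum.inl j))) (Sum.inr i) = 0 := by
    intro j i
    rw [hb, hcol]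
    have h1 : ∀ k : Fin 2, b.repr (P.mulVec (Pi.single k 1)) = Finsupp.single (Sum.inl k) 1 := by
      intro k
      rw [← hb, Module.Basis.repr_self]
    simp only [map_sum, map_smul, h1, Finsupp.coe_finsetSum, Finsupp.coe_smul, Finset.sum_apply,
      Pi.smul_apply, Finsupp.single_apply, smul_eq_mul]
    simp
  have h3 : LinearMap.toMatrix b b (Matrix.toLin' A) =
      Matrix.fromBlocks V (LinearMap.toMatrix b b (Matrix.toLin' A)).toBlocks₁₂ 0
        (LinearMap.toMatrix b b (Matrix.toLin' A)).toBlocks₂₂ := by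
    ext i j
    rcases i with i | i <;> rcases j with j | j
    · rw [LinearMap.toMatrix_apply, Matrix.fromBlocks_apply₁₁, Matrix.toLin'_apply, hrep]
    · rfl
    · rw [LinearMap.toMatrix_apply, Matrix.fromBlocks_apply₂₁, Matrix.toLin'_apply, hrep']
      rfl
    · rfl
  have h4 : A.charpoly = (LinearMap.toMatrix b b (Matrix.toLin' A)).charpoly := by
    rw [LinearMap.charpoly_toMatrix, Matrix.charpoly_toLin']
  rw [h4, h3, Matrix.charpoly_fromBlocks_zero₂₁]
  exact Dvd.intro _ rfl

/-- divisibility implies dependence -/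
theorem dependent_of_dvd {K : Type*} [Field K] {f g : K[X]} (hf : f.degree ≠ 0) (h : f ∣ g) :
    Dependent f g := by
  obtain ⟨x, hx⟩ := IsAlgClosed.exists_aeval_eq_zero (AlgebraicClosure K) f hf
  refine ⟨x, 1, hx, one_pos, ?_⟩
  rw [pow_one]
  refine Submonoid.subset_closure (Or.inl ?_)
  obtain ⟨q, rfl⟩ := h
  rw [map_mul, hx, zero_mul]

theorem cross_submatrix {K : Type*} [CommRing K] {κ κ' : Type*} [Fintype κ] [DecidableEq κ]
    [Fintype κ'] [DecidableEq κ'] (e : κ' ≃ κ) (A : Matrix (Fin 2) (Fin 2) K) (B : Matrix κ κ K) :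
    cross A (B.submatrix e e) = cross A B := by
  rw [cross, cross]
  have h1 : (B.submatrix e e) ^ 2 - A.trace • B.submatrix e e + A.det • (1 : Matrix κ' κ' K) =
      (B ^ 2 - A.trace • B + A.det • (1 : Matrix κ κ K)).submatrix e e := by
    rw [sq, sq, Matrix.submatrix_mul_equiv]
    ext a b
    simp [Matrix.one_apply]
  rw [h1, Matrix.det_submatrix_equiv_self]

section

variable {M : Type} [Field M] [NumberField M] {Λ : Type} (ℓ : Λ → ℕ) [∀ v, Fact (ℓ v).Prime]
  {E : Λ → Type} [∀ v, NontriviallyNormedField (E v)] [∀ v, NormedAlgebra ℚ_[ℓ v] (E v)]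
  (j : ∀ v, M →+* E v)
  {F : Λ → Type} [∀ v, NontriviallyNormedField (F v)] [∀ v, NormedAlgebra ℚ_[ℓ v] (F v)]
  (φ : ∀ v, E v →ₐ[ℚ_[ℓ v]] F v)
  {G : Type} [Group G] [TopologicalSpace G] (V : ∀ v, G →* GL (Fin 2) (E v)) {n : ℕ}
  (T : ∀ (l : ℕ) [Fact l.Prime], G →* GL (Fin n) ℚ_[l])

theorem dvd_of_contained (v : Λ) (h : ContainedAt ℓ φ V T v) :
    ∃ U : Subgroup G, IsOpen (U : Set G) ∧
      ∀ r ∈ U, (V v r : Matrix (Fin 2) (Fin 2) (E v)).charpoly ∣
        (baseChange (E v) (T (ℓ v)) r : Matrix (Fin n) (Fin n) (E v)).charpoly := by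
  obtain ⟨U, hU, P, hP, hUP⟩ := h
  have hbc : ∀ r, (baseChange (F v) (T (ℓ v)) r : Matrix (Fin n) (Fin n) (F v)) =
      (baseChange (E v) (T (ℓ v)) r : Matrix (Fin n) (Fin n) (E v)).map (φ v : E v →+* F v) := by
    intro r
    ext a b
    exact ((φ v).commutes _).symm
  have hex : ∀ r, (extend (φ v : E v →+* F v) (V v) r : Matrix (Fin 2) (Fin 2) (F v)) =
      (V v r : Matrix (Fin 2) (Fin 2) (E v)).map (φ v : E v →+* F v) := fun r => rfl
  refine ⟨U, hU, fun r hr => ?_⟩
  have h3 := charpoly_dvd _ _ P hP (hUP r hr)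
  rw [hex, hbc, Matrix.charpoly_map, Matrix.charpoly_map] at h3
  exact (Polynomial.map_dvd_map' _).1 h3

omit [TopologicalSpace G] in
theorem poly_dvd (v : Λ) (r : G) (f g : (𝓞 M)[X])
    (hm : Matches ℓ E j V T (fun _ => f) (fun _ => g) v r)
    (h : (V v r : Matrix (Fin 2) (Fin 2) (E v)).charpoly ∣
        (baseChange (E v) (T (ℓ v)) r : Matrix (Fin n) (Fin n) (E v)).charpoly) : f ∣ g := by
  have hι : Function.Injective ((j v).comp (algebraMap (𝓞 M) M)) :=
    (j v).injective.comp (FaithfulSMul.algebraMap_injective (𝓞 M) M)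
  have hf : f.Monic := by
    apply Polynomial.monic_of_injective hι
    rw [← hm.1]
    exact Matrix.charpoly_monic _
  rw [hm.1, hm.2] at h
  exact (Polynomial.map_dvd_map _ hι hf).1 h

omit [TopologicalSpace G] in
theorem dependent_charpoly (v : Λ) (r : G)
    (h : (V v r : Matrix (Fin 2) (Fin 2) (E v)).charpoly ∣
        (baseChange (E v) (T (ℓ v)) r : Matrix (Fin n) (Fin n) (E v)).charpoly) :
    Dependent (V v r : Matrix (Fin 2) (Fin 2) (E v)).charpoly
        (baseChange (E v) (T (ℓ v)) r : Matrix (Fin n) (Fin n) (E v)).charpoly := by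
  refine dependent_of_dvd ?_ h
  rw [Matrix.charpoly_degree_eq_dim, Fintype.card_fin]
  norm_num

/-- the determinant in `Bm` and `cross` -/
theorem crossAt_of_root (v : Λ) (r : G)
    (h : ((V v r : Matrix (Fin 2) (Fin 2) (E v)).trace • (1 : Matrix (Fin n) (Fin n) (E v)) -
        Pool.Agent.Helper21.Pred.Bm ℓ V T v r).det = 0) :
    crossAt ℓ V T 1 (fun _ : Fin 1 => 1) v r = 0 := by
  have h1 : tens (baseChange (E v) (T (ℓ v))) (fun _ : Fin 1 => 1) r =
      (baseChange (E v) (T (ℓ v)) r : Matrix (Fin n) (Fin n) (E v)).submatrix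
        (Equiv.funUnique (Fin 1) (Fin n)) (Equiv.funUnique (Fin 1) (Fin n)) := by
    ext a b
    simp [tens]
  have h2 : (baseChange (E v) (T (ℓ v)) r : Matrix (Fin n) (Fin n) (E v)) *
      (baseChange (E v) (T (ℓ v)) r⁻¹ : Matrix (Fin n) (Fin n) (E v)) = 1 := by
    rw [← Units.val_mul, ← map_mul, mul_inv_cancel, map_one, Units.val_one]
  rw [crossAt, pow_one, h1, cross_submatrix, cross_eq _ _ _ h2]
  unfold Pool.Agent.Helper21.Pred.Bm at h
  rw [h, mul_zero]

end

end Pool.Agent.Helper55.AV
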