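import Pool.Agent.Helper55.AV.Gen

/-!
# AllVarieties: relations between the matrices of several elements modulo the maximal ideals
-/

set_option autoImplicit false

open Polynomial MeasureTheory

namespace Pool.Agent.Helper55.AV

open Pool.Agent.Helper37.Fd Pool.Agent.Helper37.Ad Pool.Agent.Helper21.Pred

section

variable {Λ : Type} (ℓ : Λ → ℕ) [∀ v, Fact (ℓ v).Prime]
  {E : Λ → Type} [∀ v, NontriviallyNormedField (E v)] [∀ v, IsUltrametricDist (E v)]
  [∀ v, NormedAlgebra ℚ_[ℓ v] (E v)]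
  {G : Type} [Group G] (V : ∀ v, G →* GL (Fin 2) (E v)) {d : ℕ}
  (T : ∀ (l : ℕ) [Fact l.Prime], G →* GL (Fin d) ℚ_[l])
  [TopologicalSpace G] [IsTopologicalGroup G] [CompactSpace G] [MeasurableSpace G]
  [BorelSpace G] (μ : Measure G) [μ.IsHaarMeasure]

/-- the measure of the tuples with a relation modulo the maximal ideal -/
theorem small_rel [∀ v, FiniteDimensional ℚ_[ℓ v] (E v)] (R : ∀ v, Finset (E v))
    (hR : ∀ v, IsReps (R v)) (hV : ∀ v, Continuous (V v))
    (hVi : ∀ v x s t, ‖(V v x : Matrix (Fin 2) (Fin 2) (E v)) s t‖ ≤ 1)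
    (hT : ∀ (l : ℕ) [Fact l.Prime], Continuous (T l))
    (hTi : ∀ (l : ℕ) [Fact l.Prime] (x : G) (s t : Fin d),
      ‖(T l x : Matrix (Fin d) (Fin d) ℚ_[l]) s t‖ ≤ 1)
    {v : Λ} (hfull : Full V (commonKernel T) v 2) {n : ℕ}
    (Q : MvPolynomial (Fin n × Fin 3) (Cn n d)) :
    ((R v).card : ENNReal) * (Measure.pi fun _ : Fin n => μ) {s | HoldsMod ℓ V T Q v s} ≤
      ((4 * Q.totalDegree : ℕ) : ENNReal) * (Measure.pi fun _ : Fin n => μ) Set.univ := by
  classical
  obtain ⟨Z, hZd⟩ : ∃ Z, Z = {s : Fin n → G | HoldsMod ℓ V T Q v s} := ⟨_, rfl⟩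
  have hZ : MeasurableSet Z := by
    rw [hZd]
    exact measurable_holdsMod ℓ V T hV hT Q v
  have hmem : ∀ s, s ∈ Z ↔ HoldsMod ℓ V T Q v s := by
    intro s
    rw [hZd]
    rfl
  rw [← hZd]
  obtain ⟨O, k, _, _, _, π, hO, -, hπ, -⟩ := exists_residue (p := ℓ v) (E v)
  have hex : ∀ p : E v × E v, ∃ h : G, p ∈ R v ×ˢ R v → T (ℓ v) h = 1 ∧
      (V v h : Matrix (Fin 2) (Fin 2) (E v)) = um p.1 p.2 := by
    intro p
    by_cases hp : p ∈ R v ×ˢ R v
    · obtain ⟨h1, h2⟩ := Finset.mem_product.1 hp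
      have h3 := (hR v).1 _ h1
      have h4 := (hR v).1 _ h2
      obtain ⟨h, hh, hh'⟩ := exists_um V (commonKernel T) v hfull p.1 p.2 h3 h4
        (by linarith) (by linarith)
      exact ⟨h, fun _ => ⟨Subgroup.mem_iInf.mp (Subgroup.mem_iInf.mp hh (ℓ v)) inferInstance,
        hh'⟩⟩
    · exact ⟨1, fun h => absurd h hp⟩
  choose h hh using hex
  let H : (Fin (n * 4) → E v) → Fin n → G := fun p m =>
    h (p (finProdFinEquiv (m, 0)), p (finProdFinEquiv (m, 1))) *
      h (p (finProdFinEquiv (m, 2)), p (finProdFinEquiv (m, 3)))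
  have hH : ∀ p ∈ Fintype.piFinset (fun _ : Fin (n * 4) => R v), ∀ m, T (ℓ v) (H p m) = 1 ∧
      (V v (H p m) : Matrix (Fin 2) (Fin 2) (E v)) =
        um2 fun j => p (finProdFinEquiv (m, j)) := by
    intro p hp m
    have hp' := fun i => Fintype.mem_piFinset.1 hp i
    obtain ⟨h1, h2⟩ := hh (p (finProdFinEquiv (m, 0)), p (finProdFinEquiv (m, 1)))
      (Finset.mem_product.2 ⟨hp' _, hp' _⟩)
    obtain ⟨h3, h4⟩ := hh (p (finProdFinEquiv (m, 2)), p (finProdFinEquiv (m, 3)))
      (Finset.mem_product.2 ⟨hp' _, hp' _⟩)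
    refine ⟨?_, ?_⟩
    · show T (ℓ v) (h _ * h _) = 1
      rw [map_mul, h1, h3, one_mul]
    · show (V v (h _ * h _) : Matrix (Fin 2) (Fin 2) (E v)) = _
      rw [map_mul, Units.val_mul, h2, h4]
      rfl
  refine avg_pow (Measure.pi fun _ : Fin n => μ) (R v) (n * 4) H Z hZ (4 * Q.totalDegree)
    fun s => ?_
  have hcs : ∀ p ∈ Fintype.piFinset (fun _ : Fin (n * 4) => R v),
      evn ℓ V T v (H p * s) = evn ℓ V T v s := by
    intro p hp
    unfold evn
    rw [cs_mul ℓ V T v (H p) s (fun m => (hH p hp m).1)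
      (fun m => by rw [(hH p hp m).2, um2_det])]
  have hbc : ∀ x s t,
      ‖(baseChange (E v) (T (ℓ v)) x : Matrix (Fin d) (Fin d) (E v)) s t‖ ≤ 1 := by
    intro x s t
    show ‖algebraMap ℚ_[ℓ v] (E v) ((T (ℓ v) x : Matrix (Fin d) (Fin d) ℚ_[ℓ v]) s t)‖ ≤ 1
    rw [norm_algebraMap']
    exact hTi (ℓ v) x s t
  let A : Fin n → Matrix (Fin 2) (Fin 2) O := fun m => Matrix.of fun i j =>
    ⟨(V v (s m) : Matrix (Fin 2) (Fin 2) (E v)) i j, (hO _).2 (hVi v (s m) i j)⟩
  have hA : ∀ m, (V v (s m) : Matrix (Fin 2) (Fin 2) (E v)) = (A m).map O.subtype := by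
    intro m
    ext i j
    rfl
  have hAk : ∀ m, ((A m).map π).det ≠ 0 := by
    intro m
    have h1 : ((A m).map π).det = π (A m).det := (RingHom.map_det π (A m)).symm
    rw [h1, Ne, hπ]
    have h2 : (((A m).det : O) : E v) = (V v (s m) : Matrix (Fin 2) (Fin 2) (E v)).det := by
      rw [hA]
      exact RingHom.map_det O.subtype (A m)
    rw [h2, norm_det_eq_one (V v) (hVi v) (s m)]
    exact lt_irrefl _
  -- the coordinates are integral
  have hcoord : ∀ z, ‖cs ℓ V T v s z‖ ≤ 1 := by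
    rintro ⟨m, x⟩
    rcases x with _ | ⟨_ | _, i, j⟩
    · exact (norm_det_eq_one (V v) (hVi v) (s m)).le
    · exact hbc _ _ _
    · exact hbc _ _ _
  let cO : Fin n × Option (Bool × Fin d × Fin d) → O :=
    fun z => ⟨cs ℓ V T v s z, (hO _).2 (hcoord z)⟩
  let evO : Cn n d →+* O := ((MvPolynomial.aeval cO : _ →ₐ[ℤ] O) : Cn n d →+* O)
  have hevO : O.subtype.comp evO = evn ℓ V T v s := by
    refine MvPolynomial.ringHom_ext ?_ ?_
    · intro n
      simp
    · intro x
      show O.subtype (MvPolynomial.aeval cO (MvPolynomial.X x)) =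
        MvPolynomial.aeval (cs ℓ V T v s) (MvPolynomial.X x)
      rw [MvPolynomial.aeval_X, MvPolynomial.aeval_X]
      rfl
  let ρ : E v → k := fun x => if hx : x ∈ O then π ⟨x, hx⟩ else 0
  have hmemO : ∀ x ∈ R v, x ∈ O := fun x hx => (hO x).2 ((hR v).1 x hx)
  have hρ : Set.InjOn ρ (R v) := by
    intro x hx y hy hxy
    have hxO := hmemO x hx
    have hyO := hmemO y hy
    simp only [ρ, hxO, hyO, dite_true] at hxy
    have h2 : π (⟨x, hxO⟩ - ⟨y, hyO⟩) = 0 := by
      rw [map_sub, hxy, sub_self]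
    have h3 : ‖x - y‖ < 1 := (hπ _).1 h2
    obtain ⟨z, -, hz⟩ := (hR v).2 x ((hR v).1 x hx)
    rw [hz x ⟨hx, by rw [sub_self, norm_zero]; exact one_pos⟩, hz y ⟨hy, h3⟩]
  -- the reduction of `Q`
  let q : MvPolynomial (Fin n × Fin 3) k := MvPolynomial.map π (MvPolynomial.map evO Q)
  by_cases hq : q = 0
  · -- the relation is trivial
    have h1 : ((Fintype.piFinset fun _ : Fin (n * 4) => R v).filter
        fun p => H p * s ∈ Z).card = 0 := by
      rw [Finset.card_eq_zero, Finset.filter_eq_empty_iff]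
      intro p hp hpZ
      obtain ⟨⟨u, hu⟩, -⟩ := (hmem _).1 hpZ
      have h2 : (specialize ℓ V T Q v (H p * s)).coeff u = O.subtype (evO (Q.coeff u)) := by
        show (MvPolynomial.map (evn ℓ V T v (H p * s)) Q).coeff u = _
        rw [hcs p hp, MvPolynomial.coeff_map, ← hevO]
        rfl
      have h3 : π (evO (Q.coeff u)) = 0 := by
        have h4 : q.coeff u = 0 := by rw [hq, MvPolynomial.coeff_zero]
        simpa only [q, MvPolynomial.coeff_map] using h4
      have h4 := (hπ _).1 h3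
      rw [h2] at hu
      exact absurd hu (ne_of_lt h4)
    rw [h1, zero_mul]
    exact Nat.zero_le _
  · have hρc : ((R v).image ρ).card = (R v).card := Finset.card_image_of_injOn hρ
    have h1 := count_gen (fun m => (A m).map π) hAk q hq ((R v).image ρ)
    rw [hρc] at h1
    have hdeg : q.totalDegree ≤ Q.totalDegree :=
      (Finset.sup_mono (MvPolynomial.support_map_subset _ _)).trans
        (Finset.sup_mono (MvPolynomial.support_map_subset _ _))
    refine le_trans (Nat.mul_le_mul_right _ ?_)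
      (h1.trans (Nat.mul_le_mul_right _ (Nat.mul_le_mul_left _ hdeg)))
    refine Finset.card_le_card_of_injOn (fun p i => ρ (p i)) ?_ ?_
    · intro p hp
      obtain ⟨hp1, hpZ⟩ := Finset.mem_filter.1 hp
      have hp' := fun i => Fintype.mem_piFinset.1 hp1 i
      refine Finset.mem_coe.2 (Finset.mem_filter.2 ⟨Fintype.mem_piFinset.2 fun i =>
        Finset.mem_image_of_mem ρ (hp' i), ?_⟩)
      obtain ⟨-, h2⟩ := (hmem _).1 hpZ
      let B : Fin n → Matrix (Fin 2) (Fin 2) O := fun m =>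
        um2 (fun j => (⟨p (finProdFinEquiv (m, j)), hmemO _ (hp' _)⟩ : O)) * A m
      have hB : ∀ m, (V v (H p m * s m) : Matrix (Fin 2) (Fin 2) (E v)) =
          (B m).map O.subtype := by
        intro m
        rw [map_mul, Units.val_mul, (hH p hp1 m).2, hA]
        show _ = (um2 _ * A m).map O.subtype
        rw [Matrix.map_mul, um2_map]
        rfl
      have h3 : MvPolynomial.eval (entries V v (H p * s)) (specialize ℓ V T Q v (H p * s)) =
          O.subtype (MvPolynomial.eval (fun x : Fin n × Fin 3 => ent (B x.1) x.2)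
            (MvPolynomial.map evO Q)) := by
        have h4 : specialize ℓ V T Q v (H p * s) =
            MvPolynomial.map O.subtype (MvPolynomial.map evO Q) := by
          show MvPolynomial.map (evn ℓ V T v (H p * s)) Q = _
          rw [hcs p hp1, MvPolynomial.map_map, hevO]
        have h5 : entries V v (H p * s) =
            fun x => O.subtype (ent (B x.1) x.2) := by
          funext x
          rw [entries_eq]
          show ent (V v (H p x.1 * s x.1) : Matrix (Fin 2) (Fin 2) (E v)) x.2 = _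
          rw [hB]
          exact ent_map _ _ _
        rw [h4, h5, MvPolynomial.eval_map, MvPolynomial.eval₂_comp]
        rfl
      rw [h3] at h2
      have h4 := (hπ _).2 h2
      have h5 : π (MvPolynomial.eval (fun x : Fin n × Fin 3 => ent (B x.1) x.2)
          (MvPolynomial.map evO Q)) =
          MvPolynomial.eval (fun x : Fin n × Fin 3 => ent ((B x.1).map π) x.2) q := by
        have h7 := MvPolynomial.eval₂_comp π (fun x : Fin n × Fin 3 => ent (B x.1) x.2)
          (MvPolynomial.map evO Q)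
        rw [h7]
        show _ = MvPolynomial.eval _ (MvPolynomial.map π (MvPolynomial.map evO Q))
        rw [MvPolynomial.eval_map]
        congr 1
        funext x
        exact (ent_map _ _ _).symm
      rw [h5] at h4
      rw [← h4]
      congr 2
      funext x
      congr 1
      show um2 (fun j => ρ (p (finProdFinEquiv (x.1, j)))) * (A x.1).map π = (um2 _ * A x.1).map π
      rw [Matrix.map_mul, um2_map]
      congr 2
      funext j
      have h6 := hmemO _ (hp' (finProdFinEquiv (x.1, j)))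
      simp only [ρ, h6, dite_true]
    · intro p hp p' hp' heq
      funext i
      have h2 := Fintype.mem_piFinset.1 (Finset.mem_filter.1 hp).1 i
      have h3 := Fintype.mem_piFinset.1 (Finset.mem_filter.1 hp').1 i
      exact hρ h2 h3 (congrFun heq i)

end

/-- the equation for the trace of one matrix as a relation between three of its entries -/
noncomputable def homog {d : ℕ} (P : (Co d)[X]) : MvPolynomial (Fin 1 × Fin 3) (Cn 1 d) :=
  ∑ j ∈ Finset.range (P.natDegree + 1),
    MvPolynomial.C (MvPolynomial.rename (fun x => ((0 : Fin 1), x)) (P.coeff j)) *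
      (MvPolynomial.X (0, 0) ^ 2 + MvPolynomial.C (MvPolynomial.X ((0 : Fin 1), none)) +
        MvPolynomial.X (0, 1) * MvPolynomial.X (0, 2)) ^ j *
      MvPolynomial.X (0, 0) ^ (P.natDegree - j)

section

variable {Λ : Type} (ℓ : Λ → ℕ) [∀ v, Fact (ℓ v).Prime]
  {E : Λ → Type} [∀ v, NontriviallyNormedField (E v)]
  [∀ v, NormedAlgebra ℚ_[ℓ v] (E v)]
  {G : Type} [Group G] (V : ∀ v, G →* GL (Fin 2) (E v)) {d : ℕ}
  (T : ∀ (l : ℕ) [Fact l.Prime], G →* GL (Fin d) ℚ_[l])

private theorem evn_rename (v : Λ) (s : Fin 1 → G) (c : Co d) :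
    evn ℓ V T v s (MvPolynomial.rename (fun x => ((0 : Fin 1), x)) c) = ev ℓ V T v (s 0) c := by
  show MvPolynomial.aeval (cs ℓ V T v s) (MvPolynomial.rename _ c) = _
  rw [MvPolynomial.aeval_rename]
  rfl

private theorem evn_none (v : Λ) (s : Fin 1 → G) :
    evn ℓ V T v s (MvPolynomial.X ((0 : Fin 1), none)) =
      (V v (s 0) : Matrix (Fin 2) (Fin 2) (E v)).det := by
  show MvPolynomial.aeval (cs ℓ V T v s) (MvPolynomial.X _) = _
  rw [MvPolynomial.aeval_X]
  rfl

private theorem specialize_homog (P : (Co d)[X]) (v : Λ) (s : Fin 1 → G) :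
    specialize ℓ V T (homog P) v s = ∑ j ∈ Finset.range (P.natDegree + 1),
      MvPolynomial.C (ev ℓ V T v (s 0) (P.coeff j)) *
      (MvPolynomial.X (0, 0) ^ 2 +
        MvPolynomial.C (V v (s 0) : Matrix (Fin 2) (Fin 2) (E v)).det +
        MvPolynomial.X (0, 1) * MvPolynomial.X (0, 2)) ^ j *
      MvPolynomial.X (0, 0) ^ (P.natDegree - j) := by
  show MvPolynomial.map (evn ℓ V T v s) (homog P) = _
  unfold homog
  rw [map_sum]
  refine Finset.sum_congr rfl fun j _ => ?_
  rw [map_mul, map_mul, map_pow, map_pow, map_add, map_add, map_mul, map_pow,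
    MvPolynomial.map_C, MvPolynomial.map_C, MvPolynomial.map_X, MvPolynomial.map_X,
    MvPolynomial.map_X, evn_rename, evn_none]

theorem eval_homog (P : (Co d)[X]) (v : Λ) (s : Fin 1 → G) :
    MvPolynomial.eval (entries V v s) (specialize ℓ V T (homog P) v s) =
      (V v (s 0) : Matrix (Fin 2) (Fin 2) (E v)) 0 0 ^ P.natDegree *
        valueAt ℓ V T P v (s 0) := by
  rw [specialize_homog, map_sum]
  unfold valueAt
  rw [Polynomial.eval₂_eq_sum_range, Finset.mul_sum]
  refine Finset.sum_congr rfl fun j hj => ?_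
  have hj' : j ≤ P.natDegree := Nat.lt_succ_iff.1 (Finset.mem_range.1 hj)
  rw [map_mul, map_mul, map_pow, map_pow, map_add, map_add, map_mul, map_pow,
    MvPolynomial.eval_C, MvPolynomial.eval_C, MvPolynomial.eval_X, MvPolynomial.eval_X,
    MvPolynomial.eval_X]
  obtain ⟨A, hA⟩ : ∃ A : Matrix (Fin 2) (Fin 2) (E v), A = V v (s 0) := ⟨_, rfl⟩
  show ev ℓ V T v (s 0) (P.coeff j) * ((V v (s 0) : Matrix (Fin 2) (Fin 2) (E v)) 0 0 ^ 2 +
    (V v (s 0) : Matrix (Fin 2) (Fin 2) (E v)).det +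
    (V v (s 0) : Matrix (Fin 2) (Fin 2) (E v)) 0 1 *
      (V v (s 0) : Matrix (Fin 2) (Fin 2) (E v)) 1 0) ^ j *
    (V v (s 0) : Matrix (Fin 2) (Fin 2) (E v)) 0 0 ^ (P.natDegree - j) =
    (V v (s 0) : Matrix (Fin 2) (Fin 2) (E v)) 0 0 ^ P.natDegree *
      (ev ℓ V T v (s 0) (P.coeff j) * (V v (s 0) : Matrix (Fin 2) (Fin 2) (E v)).trace ^ j)
  rw [← hA]
  have h4 : A 0 0 ^ 2 + A.det + A 0 1 * A 1 0 = A 0 0 * A.trace := by
    rw [Matrix.det_fin_two, Matrix.trace_fin_two]
    ring
  rw [h4, mul_pow]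
  have h5 : A 0 0 ^ P.natDegree = A 0 0 ^ j * A 0 0 ^ (P.natDegree - j) := by
    rw [← pow_add, Nat.add_sub_cancel' hj']
  rw [h5]
  ring

theorem coeff_homog (P : (Co d)[X]) (hP : P.Monic) (v : Λ) (s : Fin 1 → G) :
    (specialize ℓ V T (homog P) v s).coeff 0 =
      (V v (s 0) : Matrix (Fin 2) (Fin 2) (E v)).det ^ P.natDegree := by
  rw [specialize_homog]
  show MvPolynomial.constantCoeff (∑ j ∈ Finset.range (P.natDegree + 1), _) = _
  rw [map_sum, Finset.sum_eq_single P.natDegree]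
  · rw [map_mul, map_mul, map_pow, map_pow, map_add, map_add, map_mul, map_pow,
      MvPolynomial.constantCoeff_C, MvPolynomial.constantCoeff_C, MvPolynomial.constantCoeff_X,
      MvPolynomial.constantCoeff_X, MvPolynomial.constantCoeff_X, hP.coeff_natDegree, map_one,
      Nat.sub_self, pow_zero, mul_one, one_mul, mul_zero, add_zero, zero_pow two_ne_zero,
      zero_add]
  · intro j hj hne
    have hj' : j < P.natDegree :=
      lt_of_le_of_ne (Nat.lt_succ_iff.1 (Finset.mem_range.1 hj)) hne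
    rw [map_mul, map_pow MvPolynomial.constantCoeff (MvPolynomial.X (0, 0)),
      MvPolynomial.constantCoeff_X, zero_pow (Nat.sub_ne_zero_of_lt hj'), mul_zero]
  · intro hne
    exact absurd (Finset.mem_range.2 (Nat.lt_succ_self _)) hne

end

/-- a monic equation for the trace gives a relation modulo all `v` -/
theorem holdsMod_homog {Λ : Type} (ℓ : Λ → ℕ) [∀ v, Fact (ℓ v).Prime]
    {E : Λ → Type} [∀ v, NontriviallyNormedField (E v)] [∀ v, IsUltrametricDist (E v)]
    [∀ v, NormedAlgebra ℚ_[ℓ v] (E v)]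
    {G : Type} [Group G] (V : ∀ v, G →* GL (Fin 2) (E v)) {d : ℕ}
    (T : ∀ (l : ℕ) [Fact l.Prime], G →* GL (Fin d) ℚ_[l])
    (hVi : ∀ v x s t, ‖(V v x : Matrix (Fin 2) (Fin 2) (E v)) s t‖ ≤ 1)
    (P : (Co d)[X]) (hP : P.Monic) (v : Λ) (s : Fin 1 → G) (h : valueAt ℓ V T P v (s 0) = 0) :
    HoldsMod ℓ V T (homog P) v s := by
  refine ⟨⟨0, ?_⟩, ?_⟩
  · rw [coeff_homog ℓ V T P hP, norm_pow, norm_det_eq_one (V v) (hVi v) (s 0), one_pow]
  · rw [eval_homog, h, mul_zero, norm_zero]
    exact one_pos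

end Pool.Agent.Helper55.AV
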