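import Mathlib

/-!
# AllVarieties: sums of weights over the places where an equation holds modulo `v`
-/

set_option autoImplicit false

open MeasureTheory

namespace Pool.Agent.Helper55.AV

section

variable {Λ : Type} (ℓ : Λ → ℕ) [∀ v, Fact (ℓ v).Prime]

/-- if the sets `Z v` have measure at most `C / ℓ v` and the sum of the `w v / ℓ v` is finite, then
for almost all `σ` the sum of the `w v` over the `v` with `σ ∈ Z v` is finite -/
theorem null_weight {G : Type} [MeasurableSpace G] (μ : Measure G) [IsFiniteMeasure μ]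
    [Countable Λ] (Z : Λ → Set G) (hZ : ∀ v, MeasurableSet (Z v)) (S : Finset Λ)
    {C : ENNReal} (hC : C ≠ ⊤) (h : ∀ v, v ∉ S → ((ℓ v : ℕ) : ENNReal) * μ (Z v) ≤ C)
    (w : Λ → NNReal) (hw : Summable fun v => w v / ℓ v) :
    μ {σ | ¬ Summable ({v | σ ∈ Z v}.indicator w)} = 0 := by
  classical
  have hsum : ∑' v, (w v : ENNReal) * μ (Z v) ≠ ⊤ := by
    have h1 : ∀ v, (w v : ENNReal) * μ (Z v) ≤
        (if v ∈ S then (w v : ENNReal) * μ Set.univ else 0) +
          C * ((w v / ℓ v : NNReal) : ENNReal) := by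
      intro v
      by_cases hv : v ∈ S
      · rw [if_pos hv]
        exact le_add_right (mul_le_mul' le_rfl (measure_mono (Set.subset_univ _)))
      · rw [if_neg hv, zero_add]
        have h0 : 0 < ℓ v := (Fact.out : (ℓ v).Prime).pos
        have h2 : ((ℓ v : ℕ) : ENNReal) ≠ 0 := by exact_mod_cast h0.ne'
        have h3 : μ (Z v) ≤ C / ((ℓ v : ℕ) : ENNReal) := by
          rw [ENNReal.le_div_iff_mul_le (Or.inl h2) (Or.inl (ENNReal.natCast_ne_top _)), mul_comm]
          exact h v hv
        refine (mul_le_mul' le_rfl h3).trans (le_of_eq ?_)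
        rw [ENNReal.coe_div (by exact_mod_cast h0.ne'), ENNReal.coe_natCast, div_eq_mul_inv,
          div_eq_mul_inv, ← mul_assoc, ← mul_assoc, mul_comm C]
    refine ne_top_of_le_ne_top ?_ (ENNReal.tsum_le_tsum h1)
    rw [ENNReal.tsum_add, ENNReal.tsum_mul_left]
    refine ENNReal.add_ne_top.2 ⟨?_, ENNReal.mul_ne_top hC
      (ENNReal.tsum_coe_ne_top_iff_summable.2 hw)⟩
    rw [tsum_eq_sum (s := S) fun v hv => if_neg hv]
    refine ENNReal.sum_ne_top.2 fun v hv => ?_
    rw [if_pos hv]
    exact ENNReal.mul_ne_top ENNReal.coe_ne_top (measure_ne_top _ _)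
  let F : G → ENNReal := fun σ => ∑' v, (Z v).indicator (fun _ => (w v : ENNReal)) σ
  have hFm : Measurable F :=
    Measurable.tsum fun v => measurable_const.indicator (hZ v)
  have hFint : ∫⁻ σ, F σ ∂μ ≠ ⊤ := by
    have h1 : ∫⁻ σ, F σ ∂μ = ∑' v, (w v : ENNReal) * μ (Z v) := by
      show ∫⁻ σ, ∑' v, (Z v).indicator (fun _ => (w v : ENNReal)) σ ∂μ = _
      rw [lintegral_tsum fun v => (measurable_const.indicator (hZ v)).aemeasurable]
      refine tsum_congr fun v => ?_
      rw [lintegral_indicator_const (hZ v)]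
    rw [h1]
    exact hsum
  have hae := ae_lt_top hFm hFint
  refine measure_mono_null ?_ (ae_iff.1 hae)
  intro σ hσ hlt
  apply hσ
  rw [← ENNReal.tsum_coe_ne_top_iff_summable]
  have h1 : ∑' v, ((({v | σ ∈ Z v} : Set Λ).indicator w v : NNReal) : ENNReal) = F σ := by
    refine tsum_congr fun v => ?_
    by_cases hv : σ ∈ Z v
    · rw [Set.indicator_of_mem hv, Set.indicator_of_mem (show v ∈ {v | σ ∈ Z v} from hv)]
    · rw [Set.indicator_of_notMem hv, Set.indicator_of_notMem (show v ∉ {v | σ ∈ Z v} from hv),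
        ENNReal.coe_zero]
  rw [h1]
  exact hlt.ne

/-- there are weights `w v` with infinite sum for which the sum of the `w v / ℓ v` is finite -/
theorem exists_weight [Infinite Λ] (hℓ : ∀ l, {v | ℓ v = l}.Finite) :
    ∃ w : Λ → NNReal, Summable (fun v => w v / ℓ v) ∧ ¬ Summable w := by
  classical
  have h1 : ∀ j : ℕ, ∃ v, 2 ^ j ≤ ℓ v := by
    intro j
    by_contra h
    push Not at h
    have h2 : (Set.univ : Set Λ) ⊆ ⋃ l ∈ Set.Iio (2 ^ j), {v | ℓ v = l} := by
      intro v _
      simp only [Set.mem_iUnion, Set.mem_Iio, Set.mem_ofPred_eq, exists_prop]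
      exact ⟨ℓ v, h v, rfl⟩
    exact Set.infinite_univ (((Set.finite_Iio _).biUnion fun l _ => hℓ l).subset h2)
  choose u hu using h1
  have hS : (Set.range u).Infinite := by
    intro hfin
    obtain ⟨B, hB⟩ := (hfin.image ℓ).bddAbove
    have h2 : ℓ (u B) ≤ B := hB ⟨u B, ⟨B, rfl⟩, rfl⟩
    exact absurd ((hu B).trans h2) (not_le.2 B.lt_two_pow_self)
  have hsec : ∀ s : Set.range u, ∃ j, u j = s := fun s => s.2
  choose g hg using hsec
  have hginj : Function.Injective g := by
    intro s t hst
    apply Subtype.ext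
    rw [← hg s, ← hg t, hst]
  refine ⟨(Set.range u).indicator 1, ?_, ?_⟩
  · have h2 : (fun v => (Set.range u).indicator (1 : Λ → NNReal) v / ℓ v) =
        (Set.range u).indicator (fun v => 1 / (ℓ v : NNReal)) := by
      funext v
      by_cases hv : v ∈ Set.range u
      · rw [Set.indicator_of_mem hv, Set.indicator_of_mem hv, Pi.one_apply]
      · rw [Set.indicator_of_notMem hv, Set.indicator_of_notMem hv, zero_div]
    rw [h2, ← summable_subtype_iff_indicator]
    have h3 : Summable fun j : ℕ => ((1 / 2 : NNReal) ^ j) := by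
      refine NNReal.summable_geometric ?_
      rw [one_div]
      exact inv_lt_one_of_one_lt₀ one_lt_two
    have h4 : Summable fun s : Set.range u => ((1 / 2 : NNReal) ^ (g s)) :=
      NNReal.summable_comp_injective h3 hginj
    have h5 : ∀ s : Set.range u, 1 / (ℓ (s : Λ) : NNReal) ≤ (1 / 2 : NNReal) ^ (g s) := by
      intro s
      rw [one_div_pow]
      refine one_div_le_one_div_of_le (by positivity) ?_
      have h6 := hu (g s)
      rw [hg s] at h6
      exact_mod_cast h6
    exact NNReal.summable_of_le h5 h4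
  · rw [← summable_subtype_iff_indicator]
    haveI : Infinite (Set.range u) := hS.to_subtype
    intro h
    have h2 : Summable (fun _ : Set.range u => (1 : NNReal)) := h
    rw [← ENNReal.tsum_coe_ne_top_iff_summable] at h2
    apply h2
    rw [ENNReal.tsum_const_eq_top_of_ne_zero]
    rw [ENNReal.coe_one]
    exact one_ne_zero

end

end Pool.Agent.Helper55.AV
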