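import Pool.Agent.Helper55.AV.Pow
import Pool.Agent.Helper55.AV.Alg
import Pool.Agent.Helper55.AV.Weight
import Pool.Agent.Helper55.AV.Smod
import Pool.Agent.Helper21.Pred.Fin

/-!
# AllVarieties: the equivalent conditions
-/

set_option autoImplicit false

open NumberField Polynomial MeasureTheory Filter

namespace Pool.Agent.Helper55.AV

open Pool.Agent.Helper37.Af Pool.Agent.Helper37.Fd Pool.Agent.Helper37.Ad Pool.Agent.Helper37.Ub
  Pool.Agent.Helper37.Ff Pool.Agent.Helper21.Pred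

theorem all_varieties2 {M : Type} [Field M] [NumberField M] {Λ : Type} [Infinite Λ]
    (ℓ : Λ → ℕ) [∀ v, Fact (ℓ v).Prime] (hℓ : ∀ l, {v | ℓ v = l}.Finite)
    (E : Λ → Type) [∀ v, NontriviallyNormedField (E v)] [∀ v, IsUltrametricDist (E v)]
    [∀ v, NormedAlgebra ℚ_[ℓ v] (E v)] [∀ v, FiniteDimensional ℚ_[ℓ v] (E v)] (a : ℕ)
    (ha : ∀ v, Module.finrank ℚ_[ℓ v] (E v) ≤ a) (j : ∀ v, M →+* E v)
    {G : Type} [Group G] [TopologicalSpace G] [IsTopologicalGroup G] [CompactSpace G]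
    [TotallyDisconnectedSpace G] [MeasurableSpace G] [BorelSpace G] (μ : Measure G)
    [μ.IsHaarMeasure]
    (V : ∀ v, G →* GL (Fin 2) (E v)) (hV : ∀ v, Continuous (V v))
    (hVi : ∀ v x s t, ‖(V v x : Matrix (Fin 2) (Fin 2) (E v)) s t‖ ≤ 1)
    (hopen : AdelicallyOpen ⊤ V)
    {ι : Type} [Countable ι]
    (F : ι → Λ → Type) [∀ i v, NontriviallyNormedField (F i v)]
    [∀ i v, IsUltrametricDist (F i v)] [∀ i v, NormedAlgebra ℚ_[ℓ v] (F i v)]
    [∀ i v, FiniteDimensional ℚ_[ℓ v] (F i v)] (φ : ∀ i v, E v →ₐ[ℚ_[ℓ v]] F i v)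
    (d : ι → ℕ) (T : ∀ i (l : ℕ) [Fact l.Prime], G →* GL (Fin (d i)) ℚ_[l])
    (hT : ∀ i, IsSystem ℓ (φ i) V (T i))
    (r : ℕ → G) (hr : Equidistributed μ r) (f : ℕ → (𝓞 M)[X]) (g : ι → ℕ → (𝓞 M)[X])
    (hm : ∀ i v, ∀ᶠ k in atTop,
      Matches ℓ E j V (T i) (fun _ => f k) (fun _ => g i k) v (r k))
    (hm' : ∀ i, ∀ᶠ k in atTop,
      {v | ¬ Matches ℓ E j V (T i) (fun _ => f k) (fun _ => g i k) v (r k)}.Finite)
    (q : ℕ → ℕ) (hq : ∀ k, ∃ p b : ℕ, p.Prime ∧ 0 < b ∧ b ≤ a ∧ q k = p ^ b)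
    (hf : ∀ᶠ k in atTop, IsWeil (q k) (f k)) (hg : ∀ i, ∀ᶠ k in atTop, IsWeil (q k) (g i k)) :
    List.TFAE [
      ∃ i v, ContainedAt ℓ (φ i) V (T i) v,
      ∃ i, ∀ v, ContainedAt ℓ (φ i) V (T i) v,
      ∃ i n, 0 < n ∧ ∀ᶠ k in atTop, ∀ x : AlgebraicClosure M,
        aeval x ((f k).map (algebraMap (𝓞 M) M)) = 0 → ∃ y : AlgebraicClosure M,
          aeval y ((g i k).map (algebraMap (𝓞 M) M)) = 0 ∧ x ^ n = y ^ n,
      ∀ D : Set ℕ, HasDensity D 1 → ∃ i, {k ∈ D | Dependent ((f k).map (algebraMap (𝓞 M) M))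
        ((g i k).map (algebraMap (𝓞 M) M))}.Infinite,
      ∃ (i : ι) (P : (MvPolynomial (Option (Bool × Fin (d i) × Fin (d i))) ℤ)[X]), P.Monic ∧
        ∀ v σ, valueAt ℓ V (T i) P v σ = 0,
      ∃ n, (Measure.pi fun _ : Fin n => μ)
        {s : Fin n → G | ∃ i v, ¬ Generic ℓ V (T i) v s} ≠ 0,
      ∃ (n : ℕ) (w : Λ → NNReal), Summable (fun v => w v / ℓ v) ∧
        (Measure.pi fun _ : Fin n => μ) {s : Fin n → G | ∃ (i : ι) (Q : MatrixRelation n (d i)),
          ¬ Summable ({v | HoldsMod ℓ V (T i) Q v s}.indicator w)} ≠ 0] := by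
  have hexR : ∀ v, ∃ R : Finset (E v), IsReps R := fun v => exists_reps (p := ℓ v) (E v)
  choose R hR using hexR
  have hcount : Countable Λ := by
    rw [← Set.countable_univ_iff]
    have h1 : (Set.univ : Set Λ) = ⋃ l : ℕ, {v | ℓ v = l} := by
      ext v
      simp
    rw [h1]
    exact Set.countable_iUnion fun l => (hℓ l).countable
  -- polynomials for all elements of `G`
  have hex : ∀ i, ∃ f' g' : G → (𝓞 M)[X], AlmostMatching ℓ j V (T i) f' g' := fun i =>
    almost_matching ℓ j V (T i) μ hr f (g i) (hm i) (hm' i)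
  choose f' g' hD using hex
  have hA := fun i => adelic ℓ E j (F i) (φ i) V (T i) (f' i) (g' i) hℓ a ha hV hVi
    (hT i).continuous (fun l _ y s t => (hT i).integral l y s t) hopen (hT i).semisimple
    (hT i).generated {r | {v | ¬ Matches ℓ E j V (T i) (f' i) (g' i) v r}.Finite}
    (fun Φ => (hD i Φ).mono fun r hr => ⟨hr.2, hr.1⟩) (fun r hr => hr)
  have hD' : ∀ i, ∀ Φ : Finset Λ, Dense {r | ∀ v ∈ Φ, Matches ℓ E j V (T i) (f' i) (g' i) v r} :=
    fun i Φ => (hD i Φ).mono fun r hr => hr.1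
  -- full image of the common kernels
  have hfull : (¬ ∃ i v, ContainedAt ℓ (φ i) V (T i) v) → ∀ i,
      ∃ S : Finset Λ, ∃ ε : ℝ, 0 < ε ∧ (∀ v, v ∉ S → Full V (commonKernel (T i)) v 2) ∧
        ∀ v ∈ S, Full V (commonKernel (T i)) v ε := by
    intro hnot i
    have hH : AdelicallyOpen (commonKernel (T i)) V := by
      by_contra h
      exact hnot ⟨i, ((hA i).out 2 0).1 h⟩
    exact full_of_open V _ hH
  have hnull : (¬ ∃ i v, ContainedAt ℓ (φ i) V (T i) v) → ∀ i v n w (m : Fin w → ℤ), 0 < n →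
      μ {σ | crossAt ℓ V (T i) n m v σ = 0} = 0 := by
    intro hnot i v n w m hn
    obtain ⟨S, ε, hε, h1, h2⟩ := hfull hnot i
    by_cases hv : v ∈ S
    · exact null_cross ℓ V (T i) μ hV (hT i).continuous hε (h2 v hv) hn m
    · exact null_cross ℓ V (T i) μ hV (hT i).continuous two_pos (h1 v hv) hn m
  have hι : ∀ v, Function.Injective ((j v).comp (algebraMap (𝓞 M) M)) := fun v =>
    (j v).injective.comp (FaithfulSMul.algebraMap_injective (𝓞 M) M)
  have hmonic : ∀ i k v, Matches ℓ E j V (T i) (fun _ => f k) (fun _ => g i k) v (r k) →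
      (f k).Monic ∧ (f k).natDegree = 2 ∧ (g i k).Monic ∧ (g i k).natDegree = d i := by
    intro i k v hk
    refine ⟨?_, ?_, ?_, ?_⟩
    · apply Polynomial.monic_of_injective (hι v)
      rw [← hk.1]
      exact Matrix.charpoly_monic _
    · rw [← Polynomial.natDegree_map_eq_of_injective (hι v), ← hk.1,
        Matrix.charpoly_natDegree_eq_dim, Fintype.card_fin]
    · apply Polynomial.monic_of_injective (hι v)
      rw [← hk.2]
      exact Matrix.charpoly_monic _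
    · rw [← Polynomial.natDegree_map_eq_of_injective (hι v), ← hk.2,
        Matrix.charpoly_natDegree_eq_dim, Fintype.card_fin]
  tfae_have 1 → 2 := by
    rintro ⟨i, h⟩
    exact ⟨i, ((hA i).out 0 1).1 h⟩
  tfae_have 2 → 1 := by
    rintro ⟨i, h⟩
    obtain ⟨v⟩ := (inferInstance : Nonempty Λ)
    exact ⟨i, v, h v⟩
  tfae_have 1 → 3 := by
    rintro ⟨i, v, h⟩
    obtain ⟨U, hU, h1⟩ := dvd_of_contained ℓ (φ i) V (T i) v h
    obtain ⟨n, hn, hn'⟩ := exists_pow_mem U hU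
    refine ⟨i, n, hn, ?_⟩
    filter_upwards [hm i v] with k hk x hx
    exact powers_of_dvd ℓ j V (T i) v (r k) hn (h1 _ (hn' (r k))) (f k) (g i k) hk x hx
  tfae_have 3 → 4 := by
    rintro ⟨i, n, hn, h⟩ D hDd
    refine ⟨i, ?_⟩
    have hinf : D.Infinite := infinite_of_pos hDd one_pos
    obtain ⟨v⟩ := (inferInstance : Nonempty Λ)
    have hev := h.and (hm i v)
    rw [← Nat.cofinite_eq_atTop] at hev
    have hfin2 : {k | ¬ ((∀ x : AlgebraicClosure M,
        aeval x ((f k).map (algebraMap (𝓞 M) M)) = 0 → ∃ y : AlgebraicClosure M,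
          aeval y ((g i k).map (algebraMap (𝓞 M) M)) = 0 ∧ x ^ n = y ^ n) ∧
      Matches ℓ E j V (T i) (fun _ => f k) (fun _ => g i k) v (r k))}.Finite := hev
    refine (hinf.sdiff hfin2).mono ?_
    rintro k ⟨hkD, hk⟩
    rw [Set.mem_ofPred_eq, not_not] at hk
    refine ⟨hkD, ?_⟩
    obtain ⟨h1, h2, -⟩ := hmonic i k v hk.2
    obtain ⟨x, hx⟩ := IsAlgClosed.exists_aeval_eq_zero (AlgebraicClosure M)
      ((f k).map (algebraMap (𝓞 M) M)) (by
        rw [h1.degree_map, Polynomial.degree_eq_natDegree h1.ne_zero, h2]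
        norm_num)
    obtain ⟨y, hy, hxy⟩ := hk.1 x hx
    refine ⟨x, n, hx, hn, ?_⟩
    rw [hxy]
    have hy' : y ∈ {z : AlgebraicClosure M | aeval z ((g i k).map (algebraMap (𝓞 M) M)) = 0 ∨
        aeval z⁻¹ ((g i k).map (algebraMap (𝓞 M) M)) = 0} := Or.inl hy
    exact Submonoid.pow_mem _ (Submonoid.subset_closure hy') n
  tfae_have 4 → 1 := by
    intro h
    by_contra hnot
    obtain ⟨v⟩ := (inferInstance : Nonempty Λ)
    have hdens : ∀ i, HasDensity {k | Dependent ((f k).map (algebraMap (𝓞 M) M))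
        ((g i k).map (algebraMap (𝓞 M) M))} 0 := by
      intro i
      obtain ⟨Γ, hΓ, hΓ'⟩ := finite_relations M (d i) a
      have h1 : HasDensity {k | ∃ γ ∈ Γ, k ∈ {k | Relation γ.1 γ.2
          ((f k).map (algebraMap (𝓞 M) M)) ((g i k).map (algebraMap (𝓞 M) M))}} 0 :=
        density_biUnion Γ _ fun γ hγ => density_relation ℓ j V (T i) μ hV (hT i).continuous hr
          f (g i) v (hm i v) γ.1 γ.2 (hnull hnot i v γ.1 _ γ.2 (hΓ γ hγ))
      refine density_zero_of_small fun ε hε => ⟨_, 0, h1, hε, ?_⟩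
      have hev := ((hm i v).and hf).and (hg i)
      rw [← Nat.cofinite_eq_atTop] at hev
      refine (show {k | ¬ ((Matches ℓ E j V (T i) (fun _ => f k) (fun _ => g i k) v (r k) ∧
        IsWeil (q k) (f k)) ∧ IsWeil (q k) (g i k))}.Finite from hev).subset ?_
      rintro k ⟨hk, hk'⟩ hk2
      obtain ⟨h2, h3, h4, h5⟩ := hmonic i k v hk2.1.1
      exact hk' (hΓ' (q k) (f k) (g i k) (hq k) h2 h3 h4 h5 hk2.1.2 hk2.2 hk)
    rcases isEmpty_or_nonempty ι with hι | hι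
    · obtain ⟨i, -⟩ := h Set.univ density_univ
      exact hι.elim i
    · obtain ⟨e, he⟩ := exists_surjective_nat ι
      obtain ⟨D, hD1, hD2⟩ := exists_density_one
        (fun m => {k | Dependent ((f k).map (algebraMap (𝓞 M) M))
          ((g (e m) k).map (algebraMap (𝓞 M) M))})
        (fun m => hdens (e m))
      obtain ⟨i, hinf⟩ := h D hD1
      obtain ⟨m, rfl⟩ := he i
      exact hinf (hD2 m)
  have hε : (¬ ∃ i v, ContainedAt ℓ (φ i) V (T i) v) → ∀ i v,
      ∃ ε : ℝ, 0 < ε ∧ Full V (commonKernel (T i)) v ε := by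
    intro hnot i v
    obtain ⟨S, ε, hε, h1, h2⟩ := hfull hnot i
    by_cases hv : v ∈ S
    · exact ⟨ε, hε, h2 v hv⟩
    · exact ⟨2, two_pos, h1 v hv⟩
  have hcp : ∀ i, Countable (Co (d i))[X] := fun i => countable_poly (d i)
  tfae_have 1 → 5 := by
    rintro ⟨i, v₀, h⟩
    obtain ⟨U, hU, h1⟩ := uniform_root ℓ j (φ i) V (T i) (f' i) (g' i) hV (hT i).continuous
      (hD' i) v₀ h
    obtain ⟨n, hn, hn'⟩ := exists_pow_mem U hU
    exact ⟨i, genP (d i) n, genP_monic (d i) hn,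
      fun v σ => valueAt_genP ℓ V (T i) v σ n (h1 _ (hn' σ) v)⟩
  have huniv0 : μ (Set.univ : Set G) ≠ 0 := (isOpen_univ.measure_pos μ ⟨1, trivial⟩).ne'
  tfae_have 5 → 6 := by
    rintro ⟨i, P, hP, h⟩
    obtain ⟨v⟩ := (inferInstance : Nonempty Λ)
    refine ⟨1, ?_⟩
    have h1 : {s : Fin 1 → G | ∃ i v, ¬ Generic ℓ V (T i) v s} = Set.univ :=
      Set.eq_univ_of_forall fun s => ⟨i, v, not_generic_of_monic ℓ V (T i) v s P hP (h v (s 0))⟩
    rw [h1, Measure.pi_univ]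
    exact Finset.prod_ne_zero_iff.2 fun _ _ => huniv0
  tfae_have 6 → 1 := by
    rintro ⟨n, h⟩
    by_contra hnot
    apply h
    have hcn : ∀ i, Countable (MvPolynomial (Fin n × Fin 3) (Cn n (d i))) := fun i =>
      countable_mv n (d i)
    have hsub : {s : Fin n → G | ∃ i v, ¬ Generic ℓ V (T i) v s} ⊆
        ⋃ i, ⋃ v, ⋃ Q : MvPolynomial (Fin n × Fin 3) (Cn n (d i)), relSet ℓ V (T i) Q v := by
      rintro s ⟨i, v, hs⟩
      obtain ⟨Q, hQ⟩ := exists_of_not_generic ℓ V (T i) v s hs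
      simp only [Set.mem_iUnion]
      exact ⟨i, v, Q, hQ⟩
    refine measure_mono_null hsub ?_
    refine measure_iUnion_null fun i => measure_iUnion_null fun v => measure_iUnion_null fun Q => ?_
    obtain ⟨ε, h1, h2⟩ := hε hnot i v
    exact null_rel ℓ V (T i) μ hV (hT i).continuous h1 h2 Q
  have hCtop : ∀ m n : ℕ, (m : ENNReal) * (Measure.pi fun _ : Fin n => μ) Set.univ ≠ ⊤ :=
    fun m n => ENNReal.mul_ne_top (ENNReal.natCast_ne_top _) (measure_ne_top _ _)
  -- the measure of the tuples with a relation modulo `v`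
  have hmod : (¬ ∃ i v, ContainedAt ℓ (φ i) V (T i) v) → ∀ (i : ι) (n : ℕ)
      (Q : MvPolynomial (Fin n × Fin 3) (Cn n (d i))), ∃ S : Finset Λ,
      ∀ v, v ∉ S → ((ℓ v : ℕ) : ENNReal) *
        (Measure.pi fun _ : Fin n => μ) {s | HoldsMod ℓ V (T i) Q v s} ≤
          ((4 * Q.totalDegree : ℕ) : ENNReal) * (Measure.pi fun _ : Fin n => μ) Set.univ := by
    intro hnot i n Q
    obtain ⟨S, -, -, h1, -⟩ := hfull hnot i
    refine ⟨S, fun v hv => ?_⟩
    refine le_trans (mul_le_mul' ?_ le_rfl) (small_rel ℓ V (T i) μ R hR hV hVi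
      (hT i).continuous (fun l _ y s t => (hT i).integral l y s t) (h1 v hv) Q)
    exact_mod_cast prime_le_card (p := ℓ v) (E v) (R v) (hR v)
  tfae_have 5 → 7 := by
    rintro ⟨i, P, hP, h⟩
    obtain ⟨w, hw, hw'⟩ := exists_weight ℓ hℓ
    refine ⟨1, w, hw, ?_⟩
    have h1 : {s : Fin 1 → G | ∃ (i : ι) (Q : MvPolynomial (Fin 1 × Fin 3) (Cn 1 (d i))),
        ¬ Summable ({v | HoldsMod ℓ V (T i) Q v s}.indicator w)} = Set.univ := by
      refine Set.eq_univ_of_forall fun s => ⟨i, homog P, ?_⟩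
      have h2 : {v | HoldsMod ℓ V (T i) (homog P) v s} = Set.univ :=
        Set.eq_univ_of_forall fun v => holdsMod_homog ℓ V (T i) hVi P hP v s (h v (s 0))
      rw [h2, Set.indicator_univ]
      exact hw'
    have h3 : (Measure.pi fun _ : Fin 1 => μ) {s : Fin 1 → G | ∃ (i : ι)
        (Q : MvPolynomial (Fin 1 × Fin 3) (Cn 1 (d i))),
        ¬ Summable ({v | HoldsMod ℓ V (T i) Q v s}.indicator w)} ≠ 0 := by
      rw [h1, Measure.pi_univ]
      exact Finset.prod_ne_zero_iff.2 fun _ _ => huniv0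
    exact h3
  tfae_have 7 → 1 := by
    rintro ⟨n, w, hw, h⟩
    by_contra hnot
    apply h
    have hcn : ∀ i, Countable (MvPolynomial (Fin n × Fin 3) (Cn n (d i))) := fun i =>
      countable_mv n (d i)
    have h1 : {s : Fin n → G | ∃ (i : ι) (Q : MvPolynomial (Fin n × Fin 3) (Cn n (d i))),
        ¬ Summable ({v | HoldsMod ℓ V (T i) Q v s}.indicator w)} =
        ⋃ i, ⋃ Q : MvPolynomial (Fin n × Fin 3) (Cn n (d i)),
          {s | ¬ Summable ({v | HoldsMod ℓ V (T i) Q v s}.indicator w)} := by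
      ext s
      simp only [Set.mem_iUnion, Set.mem_ofPred_eq]
    rw [h1]
    refine measure_iUnion_null fun i => measure_iUnion_null fun Q => ?_
    obtain ⟨S, hS⟩ := hmod hnot i n Q
    exact null_weight ℓ (Measure.pi fun _ : Fin n => μ)
      (fun v => {s | HoldsMod ℓ V (T i) Q v s})
      (fun v => measurable_holdsMod ℓ V (T i) hV (hT i).continuous Q v) S
      (hCtop (4 * Q.totalDegree) n) hS w hw
  tfae_finish

end Pool.Agent.Helper55.AV
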