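import Pool.Agent.Helper55.AV.Defs

/-!
# Definitions for MP_6cbef8_nt: relations between the matrices of several elements
-/

set_option autoImplicit false

open NumberField Polynomial Pool.Agent.Helper37.Fd Pool.Agent.Helper37.Ad

namespace Pool.Agent.Helper55.AV

/-- Integral polynomials in variables for three entries of each of `n` matrices; the coefficients
are integral polynomials in variables for the `coords` of `n` elements (the determinant of `V v r`
and the entries of the matrices `T (ℓ v) r` and `T (ℓ v) r⁻¹` of size `d`). -/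
abbrev MatrixRelation (n d : ℕ) : Type :=
  MvPolynomial (Fin n × Fin 3) (MvPolynomial (Fin n × Option (Bool × Fin d × Fin d)) ℤ)

variable {M : Type*} [Field M] [NumberField M] {Λ : Type*} (ℓ : Λ → ℕ) [∀ v, Fact (ℓ v).Prime]
  {E : Λ → Type*} [∀ v, NontriviallyNormedField (E v)] [∀ v, NormedAlgebra ℚ_[ℓ v] (E v)]
  (j : ∀ v, M →+* E v) {G : Type*} [Group G] (V : ∀ v, G →* GL (Fin 2) (E v)) {d : ℕ}
  (T : ∀ (l : ℕ) [Fact l.Prime], G →* GL (Fin d) ℚ_[l])

/-- `f k` and `g k` are the characteristic polynomials of the element `r k` on `V v` and on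
`T (ℓ v)`: for every place `v` this holds for all but finitely many `k`, and for all but finitely
many `k` it holds for all but finitely many `v`. -/
def Matching (r : ℕ → G) (f g : ℕ → (𝓞 M)[X]) : Prop :=
  (∀ v, ∀ᶠ k in Filter.atTop, Matches ℓ E j V T (fun _ => f k) (fun _ => g k) v (r k)) ∧
    ∀ᶠ k in Filter.atTop,
      {v | ¬ Matches ℓ E j V T (fun _ => f k) (fun _ => g k) v (r k)}.Finite

/-- The entries `(0, 0)`, `(0, 1)`, `(1, 0)` of the matrices `V v (s m)`, `m < n`. -/
def entries (v : Λ) {n : ℕ} (s : Fin n → G) (x : Fin n × Fin 3) : E v :=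
  ![(V v (s x.1) : Matrix (Fin 2) (Fin 2) (E v)) 0 0, (V v (s x.1) : Matrix (Fin 2) (Fin 2) (E v)) 0 1,
    (V v (s x.1) : Matrix (Fin 2) (Fin 2) (E v)) 1 0] x.2

/-- The matrices `V v (s m)`, `m < n`, are generic, given their determinants: the `3 n` entries
`(0, 0)`, `(0, 1)`, `(1, 0)` are algebraically independent over the ring generated by the `coords`
of all `s m` (the determinants of the `V v (s m)` and the entries of the matrices `T (ℓ v) (s m)`
and `T (ℓ v) (s m)⁻¹`). -/
def Generic (v : Λ) {n : ℕ} (s : Fin n → G) : Prop :=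
  AlgebraicIndependent (Algebra.adjoin ℤ (⋃ m, Set.range (coords ℓ V T v (s m)))) (entries V v s)

/-- The polynomial `Q` with the values of its coefficients at the elements `s m`: a polynomial over
`E v` in the variables for the entries. -/
noncomputable def specialize {n : ℕ} (Q : MatrixRelation n d) (v : Λ) (s : Fin n → G) :
    MvPolynomial (Fin n × Fin 3) (E v) :=
  MvPolynomial.map ((MvPolynomial.aeval (fun z : Fin n × Option (Bool × Fin d × Fin d) =>
      coords ℓ V T v (s z.1) z.2) : _ →ₐ[ℤ] E v) :
    MvPolynomial (Fin n × Option (Bool × Fin d × Fin d)) ℤ →+* E v) Q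

/-- The relation `Q` holds for the matrices `V v (s m)`, `m < n`, modulo the maximal ideal of `E v`,
and it is not trivial there: modulo this ideal the specialized polynomial is not zero (some
coefficient is a unit), but its value at the entries is zero. -/
def HoldsMod {n : ℕ} (Q : MatrixRelation n d) (v : Λ) (s : Fin n → G) : Prop :=
  (∃ u, ‖(specialize ℓ V T Q v s).coeff u‖ = 1) ∧
    ‖MvPolynomial.eval (entries V v s) (specialize ℓ V T Q v s)‖ < 1

end Pool.Agent.Helper55.AV
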