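import Pool.Agent.Helper55.AV.Tup
import Pool.Agent.Helper55.AV.Alg
import Pool.Agent.Helper55.AV.Gdefs

/-!
# AllVarieties: tuples of elements with generic matrices
-/

set_option autoImplicit false

open Polynomial MeasureTheory

namespace Pool.Agent.Helper55.AV

open Pool.Agent.Helper37.Fd Pool.Agent.Helper37.Ad Pool.Agent.Helper21.Pred

open Classical in
theorem avg' {K : Type*} [Group K] [MeasurableSpace K] [MeasurableMul K] (ν : Measure K)
    [ν.IsMulLeftInvariant] {π : Type*} (P : Finset π) (h : π → K) (Z : Set K)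
    (hZ : MeasurableSet Z) (B : ℕ) (hB : ∀ r, (P.filter fun p => h p * r ∈ Z).card ≤ B) :
    (P.card : ENNReal) * ν Z ≤ B * ν Set.univ := by
  have hm : Measurable (Z.indicator (1 : K → ENNReal)) := measurable_one.indicator hZ
  calc (P.card : ENNReal) * ν Z
      = ∑ p ∈ P, ∫⁻ r, Z.indicator (1 : K → ENNReal) (h p * r) ∂ν := by
        rw [← nsmul_eq_mul, ← Finset.sum_const]
        refine Finset.sum_congr rfl fun p _ => ?_
        rw [lintegral_mul_left_eq_self (Z.indicator (1 : K → ENNReal)) (h p),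
          lintegral_indicator_one hZ]
    _ = ∫⁻ r, ∑ p ∈ P, Z.indicator (1 : K → ENNReal) (h p * r) ∂ν := by
        rw [lintegral_finsetSum]
        intro p _
        exact hm.comp (measurable_const_mul (h p))
    _ ≤ ∫⁻ _, (B : ENNReal) ∂ν := by
        refine lintegral_mono fun r => ?_
        show ∑ p ∈ P, Z.indicator (1 : K → ENNReal) (h p * r) ≤ (B : ENNReal)
        have h1 : ∑ p ∈ P, Z.indicator (1 : K → ENNReal) (h p * r) =
            ((P.filter fun p => h p * r ∈ Z).card : ENNReal) := by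
          rw [Finset.card_filter, Nat.cast_sum]
          refine Finset.sum_congr rfl fun p _ => ?_
          by_cases hp : h p * r ∈ Z
          · simp [hp]
          · simp [hp]
        rw [h1]
        exact_mod_cast hB r
    _ = B * ν Set.univ := lintegral_const _

open Classical in
theorem avg_pow {K : Type*} [Group K] [MeasurableSpace K] [MeasurableMul K] (ν : Measure K)
    [ν.IsMulLeftInvariant] {σ : Type*} (S : Finset σ) (N : ℕ) (H : (Fin N → σ) → K) (Z : Set K)
    (hZ : MeasurableSet Z) (D : ℕ)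
    (hB : ∀ r, ((Fintype.piFinset fun _ : Fin N => S).filter fun p => H p * r ∈ Z).card * S.card ≤
      D * S.card ^ N) :
    (S.card : ENNReal) * ν Z ≤ (D : ENNReal) * ν Set.univ := by
  by_cases hK0 : S.card = 0
  · rw [hK0, Nat.cast_zero, zero_mul]
    exact zero_le
  have hcard : (Fintype.piFinset fun _ : Fin N => S).card = S.card ^ N :=
    Fintype.card_piFinset_const _ _
  obtain ⟨B, hB1, hB2⟩ : ∃ B : ℕ, (∀ r, ((Fintype.piFinset fun _ : Fin N => S).filter
      fun p => H p * r ∈ Z).card ≤ B) ∧ B * S.card ≤ D * S.card ^ N := by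
    refine ⟨D * S.card ^ N / S.card, fun r => ?_, Nat.div_mul_le_self _ _⟩
    rw [Nat.le_div_iff_mul_le (Nat.pos_of_ne_zero hK0)]
    exact hB r
  have h1 := avg' ν (Fintype.piFinset fun _ : Fin N => S) H Z hZ B hB1
  rw [hcard] at h1
  have hKpos : (((S.card ^ N : ℕ)) : ENNReal) ≠ 0 := by
    exact_mod_cast (pow_ne_zero _ hK0)
  have h2 : (((S.card ^ N : ℕ)) : ENNReal) * ((S.card : ENNReal) * ν Z) ≤
      (((S.card ^ N : ℕ)) : ENNReal) * ((D : ENNReal) * ν Set.univ) := by
    calc (((S.card ^ N : ℕ)) : ENNReal) * ((S.card : ENNReal) * ν Z)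
        = (S.card : ENNReal) * ((((S.card ^ N : ℕ)) : ENNReal) * ν Z) := by ring
      _ ≤ (S.card : ENNReal) * (B * ν Set.univ) := mul_le_mul' le_rfl h1
      _ = ((B * S.card : ℕ) : ENNReal) * ν Set.univ := by
          push_cast
          ring
      _ ≤ ((D * S.card ^ N : ℕ) : ENNReal) * ν Set.univ :=
          mul_le_mul' (by exact_mod_cast hB2) le_rfl
      _ = _ := by
          push_cast
          ring
  exact (ENNReal.mul_le_mul_iff_right hKpos (ENNReal.natCast_ne_top _)).1 h2

section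

variable {Λ : Type} (ℓ : Λ → ℕ) [∀ v, Fact (ℓ v).Prime]
  {E : Λ → Type} [∀ v, NontriviallyNormedField (E v)] [∀ v, IsUltrametricDist (E v)]
  [∀ v, NormedAlgebra ℚ_[ℓ v] (E v)]
  {G : Type} [Group G] (V : ∀ v, G →* GL (Fin 2) (E v)) {d : ℕ}
  (T : ∀ (l : ℕ) [Fact l.Prime], G →* GL (Fin d) ℚ_[l])

/-- the coefficient ring for `n` elements -/
abbrev Cn (n d : ℕ) := MvPolynomial (Fin n × Option (Bool × Fin d × Fin d)) ℤ

/-- the values of the coordinates of `n` elements -/
noncomputable def cs (v : Λ) {n : ℕ} (s : Fin n → G)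
    (z : Fin n × Option (Bool × Fin d × Fin d)) : E v := coords ℓ V T v (s z.1) z.2

/-- evaluation of the coefficients -/
noncomputable def evn (v : Λ) {n : ℕ} (s : Fin n → G) : Cn n d →+* E v :=
  ((MvPolynomial.aeval (cs ℓ V T v s) : _ →ₐ[ℤ] E v) : Cn n d →+* E v)

/-- the tuples with the relation `Q` -/
def relSet {n : ℕ} (Q : MvPolynomial (Fin n × Fin 3) (Cn n d)) (v : Λ) : Set (Fin n → G) :=
  {s | MvPolynomial.map (evn ℓ V T v s) Q ≠ 0 ∧
    MvPolynomial.eval (entries V v s) (MvPolynomial.map (evn ℓ V T v s) Q) = 0}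

omit [∀ v, IsUltrametricDist (E v)] in
theorem entries_eq (v : Λ) {n : ℕ} (s : Fin n → G) (x : Fin n × Fin 3) :
    entries V v s x = ent (V v (s x.1) : Matrix (Fin 2) (Fin 2) (E v)) x.2 := rfl

omit [∀ v, IsUltrametricDist (E v)] in
theorem cs_mul (v : Λ) {n : ℕ} (h s : Fin n → G) (hT : ∀ m, T (ℓ v) (h m) = 1)
    (hV : ∀ m, (V v (h m) : Matrix (Fin 2) (Fin 2) (E v)).det = 1) :
    cs ℓ V T v (h * s) = cs ℓ V T v s := by
  funext z
  show coords ℓ V T v (h z.1 * s z.1) z.2 = coords ℓ V T v (s z.1) z.2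
  rw [coords_mul ℓ V T v (h z.1) (s z.1) (hT _) (hV _)]

private theorem measurable_eval {σ : Type*} [Finite σ] {K : Type*} [NormedField K]
    [MeasurableSpace K] [BorelSpace K] [SecondCountableTopology K] {X : Type*} [MeasurableSpace X]
    (y : X → σ → K) (hy : ∀ i, Measurable fun x => y x i) (p : X → MvPolynomial σ K)
    (U : Finset (σ →₀ ℕ)) (hU : ∀ x, (p x).support ⊆ U)
    (hp : ∀ u, Measurable fun x => (p x).coeff u) :
    Measurable fun x => MvPolynomial.eval (y x) (p x) := by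
  have h1 : ∀ x, MvPolynomial.eval (y x) (p x) =
      ∑ u ∈ U, (p x).coeff u * ∏ i ∈ u.support, y x i ^ u i := by
    intro x
    rw [MvPolynomial.eval_eq]
    refine Finset.sum_subset (hU x) fun u _ hu => ?_
    rw [MvPolynomial.notMem_support_iff.1 hu, zero_mul]
  simp only [h1]
  exact Finset.measurable_fun_sum _ fun u _ => (hp u).mul
    (Finset.measurable_fun_prod _ fun i _ => (hy i).pow_const _)

variable [TopologicalSpace G] [IsTopologicalGroup G] [CompactSpace G] [MeasurableSpace G]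
  [BorelSpace G] (μ : Measure G) [μ.IsHaarMeasure]

omit [∀ v, IsUltrametricDist (E v)] [CompactSpace G] in
theorem measurable_parts (hV : ∀ v, Continuous (V v))
    (hT : ∀ (l : ℕ) [Fact l.Prime], Continuous (T l)) {n : ℕ}
    (Q : MvPolynomial (Fin n × Fin 3) (Cn n d)) (v : Λ) [MeasurableSpace (E v)] [BorelSpace (E v)]
    [SecondCountableTopology (E v)] :
    (∀ u, Measurable fun s : Fin n → G => (MvPolynomial.map (evn ℓ V T v s) Q).coeff u) ∧
      Measurable fun s : Fin n → G =>
        MvPolynomial.eval (entries V v s) (MvPolynomial.map (evn ℓ V T v s) Q) := by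
  classical
  have hc : ∀ z, Measurable fun s : Fin n → G => cs ℓ V T v s z := by
    intro z
    have h1 : Continuous fun g : G => coords ℓ V T v g z.2 :=
      (continuous_apply z.2).comp (continuous_coords ℓ V T hV hT v)
    exact h1.measurable.comp (measurable_pi_apply z.1)
  have hev : ∀ c : Cn n d, Measurable fun s : Fin n → G => evn ℓ V T v s c := by
    intro c
    have h1 : ∀ s : Fin n → G, evn ℓ V T v s c =
        MvPolynomial.eval (cs ℓ V T v s) (MvPolynomial.map (algebraMap ℤ (E v)) c) := by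
      intro s
      show MvPolynomial.aeval (cs ℓ V T v s) c = _
      rw [MvPolynomial.eval_map]
      rfl
    simp only [h1]
    exact measurable_eval _ hc _ (MvPolynomial.map (algebraMap ℤ (E v)) c).support
      (fun _ => subset_rfl) fun u => measurable_const
  have hcoef : ∀ u, Measurable fun s : Fin n → G =>
      (MvPolynomial.map (evn ℓ V T v s) Q).coeff u := by
    intro u
    simp only [MvPolynomial.coeff_map]
    exact hev _
  have hsupp : ∀ s : Fin n → G, (MvPolynomial.map (evn ℓ V T v s) Q).support ⊆ Q.support :=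
    fun s => MvPolynomial.support_map_subset _ _
  refine ⟨hcoef, ?_⟩
  refine measurable_eval _ (fun x => ?_) _ Q.support hsupp hcoef
  have h1 : Continuous fun g : G => ent (V v g : Matrix (Fin 2) (Fin 2) (E v)) x.2 := by
    have hVc : Continuous fun r => (V v r : Matrix (Fin 2) (Fin 2) (E v)) :=
      Units.continuous_val.comp (hV v)
    rcases x with ⟨m, e⟩
    fin_cases e
    · exact (continuous_apply_apply 0 0).comp hVc
    · exact (continuous_apply_apply 0 1).comp hVc
    · exact (continuous_apply_apply 1 0).comp hVc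
  exact h1.measurable.comp (measurable_pi_apply x.1)

omit [∀ v, IsUltrametricDist (E v)] [CompactSpace G] in
theorem measurable_relSet [∀ v, FiniteDimensional ℚ_[ℓ v] (E v)] (hV : ∀ v, Continuous (V v))
    (hT : ∀ (l : ℕ) [Fact l.Prime], Continuous (T l)) {n : ℕ}
    (Q : MvPolynomial (Fin n × Fin 3) (Cn n d)) (v : Λ) :
    MeasurableSet (relSet ℓ V T Q v) := by
  classical
  let _ : MeasurableSpace (E v) := borel (E v)
  have _ : BorelSpace (E v) := ⟨rfl⟩
  have _ : ProperSpace (E v) := FiniteDimensional.proper ℚ_[ℓ v] (E v)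
  obtain ⟨hcoef, hval⟩ := measurable_parts ℓ V T hV hT Q v
  have h1 : {s : Fin n → G | MvPolynomial.map (evn ℓ V T v s) Q ≠ 0} =
      ⋃ u ∈ Q.support, {s | (MvPolynomial.map (evn ℓ V T v s) Q).coeff u ≠ 0} := by
    ext s
    simp only [Set.mem_iUnion, Set.mem_ofPred_eq, exists_prop]
    constructor
    · intro h
      obtain ⟨u, hu⟩ := MvPolynomial.ne_zero_iff.1 h
      exact ⟨u, MvPolynomial.support_map_subset _ _ (MvPolynomial.mem_support_iff.2 hu), hu⟩
    · rintro ⟨u, -, hu⟩ h0
      rw [h0, MvPolynomial.coeff_zero] at hu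
      exact hu rfl
  have h2 : MeasurableSet {s : Fin n → G | MvPolynomial.map (evn ℓ V T v s) Q ≠ 0} := by
    rw [h1]
    exact Finset.measurableSet_biUnion _ fun u _ =>
      ((hcoef u) (measurableSet_singleton 0)).compl
  exact h2.inter (hval (measurableSet_singleton 0))

omit [∀ v, IsUltrametricDist (E v)] [CompactSpace G] in
theorem measurable_holdsMod [∀ v, FiniteDimensional ℚ_[ℓ v] (E v)] (hV : ∀ v, Continuous (V v))
    (hT : ∀ (l : ℕ) [Fact l.Prime], Continuous (T l)) {n : ℕ}
    (Q : MvPolynomial (Fin n × Fin 3) (Cn n d)) (v : Λ) :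
    MeasurableSet {s : Fin n → G | HoldsMod ℓ V T Q v s} := by
  classical
  let _ : MeasurableSpace (E v) := borel (E v)
  have _ : BorelSpace (E v) := ⟨rfl⟩
  have _ : ProperSpace (E v) := FiniteDimensional.proper ℚ_[ℓ v] (E v)
  obtain ⟨hcoef, hval⟩ := measurable_parts ℓ V T hV hT Q v
  have h1 : {s : Fin n → G | HoldsMod ℓ V T Q v s} =
      (⋃ u ∈ Q.support, {s | ‖(MvPolynomial.map (evn ℓ V T v s) Q).coeff u‖ = 1}) ∩
        {s | ‖MvPolynomial.eval (entries V v s) (MvPolynomial.map (evn ℓ V T v s) Q)‖ < 1} := by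
    ext s
    simp only [Set.mem_iUnion, Set.mem_inter_iff, Set.mem_ofPred_eq, exists_prop]
    constructor
    · rintro ⟨⟨u, hu⟩, h⟩
      refine ⟨⟨u, ?_, hu⟩, h⟩
      refine MvPolynomial.support_map_subset (evn ℓ V T v s) _ (MvPolynomial.mem_support_iff.2 ?_)
      intro h0
      rw [show (specialize ℓ V T Q v s).coeff u = 0 from h0, norm_zero] at hu
      exact zero_ne_one hu
    · rintro ⟨⟨u, -, hu⟩, h⟩
      exact ⟨⟨u, hu⟩, h⟩
  rw [h1]
  refine MeasurableSet.inter (Finset.measurableSet_biUnion _ fun u _ => ?_) ?_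
  · exact (hcoef u).norm (measurableSet_singleton 1)
  · exact hval.norm measurableSet_Iio

/-- a nontrivial relation holds on a null set of tuples -/
theorem null_rel [∀ v, FiniteDimensional ℚ_[ℓ v] (E v)] (hV : ∀ v, Continuous (V v))
    (hT : ∀ (l : ℕ) [Fact l.Prime], Continuous (T l))
    {v : Λ} {ε : ℝ} (hε : 0 < ε) (hfull : Full V (commonKernel T) v ε) {n : ℕ}
    (Q : MvPolynomial (Fin n × Fin 3) (Cn n d)) :
    (Measure.pi fun _ : Fin n => μ) (relSet ℓ V T Q v) = 0 := by
  classical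
  obtain ⟨Z, hZd⟩ : ∃ Z, Z = relSet ℓ V T Q v := ⟨_, rfl⟩
  have hZ : MeasurableSet Z := by
    rw [hZd]
    exact measurable_relSet ℓ V T hV hT Q v
  have hmem : ∀ s, s ∈ Z ↔ MvPolynomial.map (evn ℓ V T v s) Q ≠ 0 ∧
      MvPolynomial.eval (entries V v s) (MvPolynomial.map (evn ℓ V T v s) Q) = 0 := by
    intro s
    rw [hZd]
    rfl
  rw [← hZd]
  have hfin : (Measure.pi fun _ : Fin n => μ) Set.univ ≠ ⊤ := measure_ne_top _ _
  have key : ∀ K : ℕ, (K : ENNReal) * (Measure.pi fun _ : Fin n => μ) Z ≤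
      ((4 * Q.totalDegree : ℕ) : ENNReal) * (Measure.pi fun _ : Fin n => μ) Set.univ := by
    intro K
    obtain ⟨S, hS, hS'⟩ := exists_small (E := E) v hε K
    have hex : ∀ p : E v × E v, ∃ h : G, p ∈ S ×ˢ S → T (ℓ v) h = 1 ∧
        (V v h : Matrix (Fin 2) (Fin 2) (E v)) = um p.1 p.2 := by
      intro p
      by_cases hp : p ∈ S ×ˢ S
      · obtain ⟨h1, h2⟩ := Finset.mem_product.1 hp
        obtain ⟨h, hh, hh'⟩ := exists_um V (commonKernel T) v hfull p.1 p.2 (hS' _ h1).1
          (hS' _ h2).1 (hS' _ h1).2 (hS' _ h2).2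
        exact ⟨h, fun _ => ⟨Subgroup.mem_iInf.mp (Subgroup.mem_iInf.mp hh (ℓ v)) inferInstance,
          hh'⟩⟩
      · exact ⟨1, fun h => absurd h hp⟩
    choose h hh using hex
    let H : (Fin (n * 4) → E v) → Fin n → G := fun p m =>
      h (p (finProdFinEquiv (m, 0)), p (finProdFinEquiv (m, 1))) *
        h (p (finProdFinEquiv (m, 2)), p (finProdFinEquiv (m, 3)))
    have hH : ∀ p ∈ Fintype.piFinset (fun _ : Fin (n * 4) => S), ∀ m, T (ℓ v) (H p m) = 1 ∧
        (V v (H p m) : Matrix (Fin 2) (Fin 2) (E v)) =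
          um2 fun j => p (finProdFinEquiv (m, j)) := by
      intro p hp m
      have hp' := fun i => Fintype.mem_piFinset.1 hp i
      obtain ⟨h1, h2⟩ := hh (p (finProdFinEquiv (m, 0)), p (finProdFinEquiv (m, 1)))
        (Finset.mem_product.2 ⟨hp' _, hp' _⟩)
      obtain ⟨h3, h4⟩ := hh (p (finProdFinEquiv (m, 2)), p (finProdFinEquiv (m, 3)))
        (Finset.mem_product.2 ⟨hp' _, hp' _⟩)
      refine ⟨?_, ?_⟩
      · show T (ℓ v) (h _ * h _) = 1
        rw [map_mul, h1, h3, one_mul]
      · show (V v (h _ * h _) : Matrix (Fin 2) (Fin 2) (E v)) = _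
        rw [map_mul, Units.val_mul, h2, h4]
        rfl
    rw [← hS]
    refine avg_pow (Measure.pi fun _ : Fin n => μ) S (n * 4) H Z hZ (4 * Q.totalDegree)
      fun s => ?_
    have hcs : ∀ p ∈ Fintype.piFinset (fun _ : Fin (n * 4) => S),
        evn ℓ V T v (H p * s) = evn ℓ V T v s := by
      intro p hp
      unfold evn
      rw [cs_mul ℓ V T v (H p) s (fun m => (hH p hp m).1)
        (fun m => by rw [(hH p hp m).2, um2_det])]
    by_cases hQ : MvPolynomial.map (evn ℓ V T v s) Q = 0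
    · have h1 : ((Fintype.piFinset fun _ : Fin (n * 4) => S).filter
          fun p => H p * s ∈ Z).card = 0 := by
        rw [Finset.card_eq_zero, Finset.filter_eq_empty_iff]
        intro p hp hpZ
        have h2 := ((hmem _).1 hpZ).1
        rw [hcs p hp] at h2
        exact h2 hQ
      rw [h1, zero_mul]
      exact Nat.zero_le _
    · have hA : ∀ m, (V v (s m) : Matrix (Fin 2) (Fin 2) (E v)).det ≠ 0 := fun m =>
        ((Matrix.isUnit_iff_isUnit_det _).1 (V v (s m)).isUnit).ne_zero
      have h1 := count_gen (fun m => (V v (s m) : Matrix (Fin 2) (Fin 2) (E v))) hA _ hQ S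
      have hdeg : (MvPolynomial.map (evn ℓ V T v s) Q).totalDegree ≤ Q.totalDegree :=
        Finset.sup_mono (MvPolynomial.support_map_subset _ _)
      refine le_trans (Nat.mul_le_mul_right _ (Finset.card_le_card ?_))
        (h1.trans (Nat.mul_le_mul_right _ (Nat.mul_le_mul_left _ hdeg)))
      intro p hp
      obtain ⟨hp1, hpZ⟩ := Finset.mem_filter.1 hp
      refine Finset.mem_filter.2 ⟨hp1, ?_⟩
      have h2 := ((hmem _).1 hpZ).2
      rw [hcs p hp1] at h2
      rw [← h2]
      congr 2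
      funext x
      rw [entries_eq]
      show ent (_ * _) _ = ent (V v (H p x.1 * s x.1) : Matrix (Fin 2) (Fin 2) (E v)) x.2
      rw [map_mul, Units.val_mul, (hH p hp1 x.1).2]
  by_contra h0
  obtain ⟨K, hK⟩ := ENNReal.exists_nat_mul_gt h0
    (ENNReal.mul_ne_top (ENNReal.natCast_ne_top (4 * Q.totalDegree)) hfin)
  exact absurd (key K) (not_le.2 hK)

omit [∀ v, IsUltrametricDist (E v)] [TopologicalSpace G] [IsTopologicalGroup G]
  [CompactSpace G] [MeasurableSpace G] [BorelSpace G] in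
private theorem exists_homn (v : Λ) {n : ℕ} (s : Fin n → G) :
    ∃ φ : Cn n d →+* Algebra.adjoin ℤ (⋃ m, Set.range (coords ℓ V T v (s m))),
      Function.Surjective φ ∧
      (algebraMap (Algebra.adjoin ℤ (⋃ m, Set.range (coords ℓ V T v (s m)))) (E v)).comp φ =
        evn ℓ V T v s := by
  have hU : (⋃ m, Set.range (coords ℓ V T v (s m))) = Set.range (cs ℓ V T v s) := by
    ext x
    simp only [Set.mem_iUnion, Set.mem_range]
    constructor
    · rintro ⟨m, z, hz⟩
      exact ⟨(m, z), hz⟩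
    · rintro ⟨⟨m, z⟩, hz⟩
      exact ⟨m, z, hz⟩
  have hr := Algebra.adjoin_range_eq_range_aeval ℤ (cs ℓ V T v s)
  rw [← hU] at hr
  have hmem : ∀ q : Cn n d, evn ℓ V T v s q ∈
      Algebra.adjoin ℤ (⋃ m, Set.range (coords ℓ V T v (s m))) := by
    intro q
    rw [hr]
    exact ⟨q, rfl⟩
  refine ⟨(evn ℓ V T v s).codRestrict _ hmem, ?_, ?_⟩
  · rintro ⟨x, hx⟩
    have hx' := hx
    rw [hr] at hx'
    obtain ⟨q, hq⟩ := hx'
    exact ⟨q, Subtype.ext hq⟩
  · ext q
    · simp
    · rfl

omit [∀ v, IsUltrametricDist (E v)] [TopologicalSpace G] [IsTopologicalGroup G]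
  [CompactSpace G] [MeasurableSpace G] [BorelSpace G] in
theorem exists_of_not_generic (v : Λ) {n : ℕ} (s : Fin n → G) (h : ¬ Generic ℓ V T v s) :
    ∃ Q : MvPolynomial (Fin n × Fin 3) (Cn n d), s ∈ relSet ℓ V T Q v := by
  obtain ⟨φ, hφ, hφ'⟩ := exists_homn ℓ V T v s
  have h1 : ∃ p : MvPolynomial (Fin n × Fin 3)
      (Algebra.adjoin ℤ (⋃ m, Set.range (coords ℓ V T v (s m)))),
      MvPolynomial.aeval (entries V v s) p = 0 ∧ p ≠ 0 := by
    by_contra hne
    push Not at hne
    exact h (algebraicIndependent_iff.2 hne)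
  obtain ⟨p, hp0, hp⟩ := h1
  obtain ⟨Q, rfl⟩ := MvPolynomial.map_surjective φ hφ p
  have h1 : MvPolynomial.map (evn ℓ V T v s) Q = MvPolynomial.map
      (algebraMap (Algebra.adjoin ℤ (⋃ m, Set.range (coords ℓ V T v (s m)))) (E v))
        (MvPolynomial.map φ Q) := by
    rw [MvPolynomial.map_map, hφ']
  refine ⟨Q, ?_, ?_⟩
  · rw [h1]
    intro h0
    apply hp
    exact MvPolynomial.map_injective _ (FaithfulSMul.algebraMap_injective _ _)
      (h0.trans (map_zero _).symm)
  · rw [h1, MvPolynomial.eval_map]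
    exact hp0

theorem countable_mv (n d : ℕ) : Countable (MvPolynomial (Fin n × Fin 3) (Cn n d)) := by
  have h1 : Countable (Cn n d) := by
    rw [← Cardinal.mk_le_aleph0_iff]
    exact MvPolynomial.cardinalMk_le_max.trans
      (max_le (max_le (Cardinal.mk_le_aleph0_iff.2 inferInstance)
        (Cardinal.mk_le_aleph0_iff.2 inferInstance)) le_rfl)
  rw [← Cardinal.mk_le_aleph0_iff]
  exact MvPolynomial.cardinalMk_le_max.trans
    (max_le (max_le (Cardinal.mk_le_aleph0_iff.2 h1)
      (Cardinal.mk_le_aleph0_iff.2 inferInstance)) le_rfl)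

omit [∀ v, IsUltrametricDist (E v)] [TopologicalSpace G] [IsTopologicalGroup G]
  [CompactSpace G] [MeasurableSpace G] [BorelSpace G] in
/-- a monic equation for the trace of one matrix is a nontrivial relation -/
theorem not_generic_of_monic (v : Λ) (s : Fin 1 → G) (P : (Co d)[X]) (hP : P.Monic)
    (h : valueAt ℓ V T P v (s 0) = 0) : ¬ Generic ℓ V T v s := by
  intro hgen
  obtain ⟨A, hA⟩ : ∃ A : Matrix (Fin 2) (Fin 2) (E v), A = V v (s 0) := ⟨_, rfl⟩
  have hmem : ∀ q : Co d, ev ℓ V T v (s 0) q ∈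
      Algebra.adjoin ℤ (⋃ m, Set.range (coords ℓ V T v (s m))) := by
    intro q
    have h1 : ev ℓ V T v (s 0) q ∈ Algebra.adjoin ℤ (Set.range (coords ℓ V T v (s 0))) := by
      rw [Algebra.adjoin_range_eq_range_aeval ℤ (coords ℓ V T v (s 0))]
      exact ⟨q, rfl⟩
    exact Algebra.adjoin_mono (Set.subset_iUnion (fun m => Set.range (coords ℓ V T v (s m))) 0) h1
  let ψ : Co d →+* Algebra.adjoin ℤ (⋃ m, Set.range (coords ℓ V T v (s m))) :=
    (ev ℓ V T v (s 0)).codRestrict _ hmem
  have hψ : ∀ q, ((ψ q : Algebra.adjoin ℤ (⋃ m, Set.range (coords ℓ V T v (s m)))) : E v) =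
      ev ℓ V T v (s 0) q := fun q => rfl
  let δ := ψ (MvPolynomial.X none)
  have hδ : ((δ : Algebra.adjoin ℤ (⋃ m, Set.range (coords ℓ V T v (s m)))) : E v) = A.det := by
    rw [hψ, ev_X, hA]
    rfl
  let Xa : MvPolynomial (Fin 1 × Fin 3)
      (Algebra.adjoin ℤ (⋃ m, Set.range (coords ℓ V T v (s m)))) := MvPolynomial.X (0, 0)
  let Xb : MvPolynomial (Fin 1 × Fin 3)
      (Algebra.adjoin ℤ (⋃ m, Set.range (coords ℓ V T v (s m)))) := MvPolynomial.X (0, 1)
  let Xc : MvPolynomial (Fin 1 × Fin 3)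
      (Algebra.adjoin ℤ (⋃ m, Set.range (coords ℓ V T v (s m)))) := MvPolynomial.X (0, 2)
  let Q := ∑ j ∈ Finset.range (P.natDegree + 1), MvPolynomial.C (ψ (P.coeff j)) *
    (Xa ^ 2 + MvPolynomial.C δ + Xb * Xc) ^ j * Xa ^ (P.natDegree - j)
  have ha : MvPolynomial.aeval (entries V v s) Xa = A 0 0 := by
    rw [MvPolynomial.aeval_X, hA]
    rfl
  have hb : MvPolynomial.aeval (entries V v s) Xb = A 0 1 := by
    rw [MvPolynomial.aeval_X, hA]
    rfl
  have hc : MvPolynomial.aeval (entries V v s) Xc = A 1 0 := by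
    rw [MvPolynomial.aeval_X, hA]
    rfl
  have hQ : MvPolynomial.aeval (entries V v s) Q = 0 := by
    have h1 : MvPolynomial.aeval (entries V v s) Q =
        A 0 0 ^ P.natDegree * valueAt ℓ V T P v (s 0) := by
      show MvPolynomial.aeval (entries V v s) (∑ j ∈ Finset.range (P.natDegree + 1),
        MvPolynomial.C (ψ (P.coeff j)) *
        (Xa ^ 2 + MvPolynomial.C δ + Xb * Xc) ^ j * Xa ^ (P.natDegree - j)) = _
      rw [map_sum]
      unfold valueAt
      rw [Polynomial.eval₂_eq_sum_range, Finset.mul_sum]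
      refine Finset.sum_congr rfl fun j hj => ?_
      have hj' : j ≤ P.natDegree := Nat.lt_succ_iff.1 (Finset.mem_range.1 hj)
      rw [map_mul, map_mul, map_pow, map_pow, map_add, map_add, map_mul, map_pow, ha, hb, hc,
        MvPolynomial.aeval_C, MvPolynomial.aeval_C]
      have h2 : algebraMap (Algebra.adjoin ℤ (⋃ m, Set.range (coords ℓ V T v (s m)))) (E v) δ =
          A.det := hδ
      have h3 : algebraMap (Algebra.adjoin ℤ (⋃ m, Set.range (coords ℓ V T v (s m)))) (E v)
          (ψ (P.coeff j)) = ev ℓ V T v (s 0) (P.coeff j) := rfl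
      rw [h2, h3, ← hA]
      have h4 : A 0 0 ^ 2 + A.det + A 0 1 * A 1 0 = A 0 0 * A.trace := by
        rw [Matrix.det_fin_two, Matrix.trace_fin_two]
        ring
      rw [h4, mul_pow]
      have h5 : A 0 0 ^ P.natDegree = A 0 0 ^ j * A 0 0 ^ (P.natDegree - j) := by
        rw [← pow_add, Nat.add_sub_cancel' hj']
      rw [h5]
      show ev ℓ V T v (s 0) (P.coeff j) * (A 0 0 ^ j * A.trace ^ j) * A 0 0 ^ (P.natDegree - j) =
        A 0 0 ^ j * A 0 0 ^ (P.natDegree - j) * (ev ℓ V T v (s 0) (P.coeff j) * A.trace ^ j)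
      ring
    rw [h1, h, mul_zero]
  have hQ0 : Q = 0 := hgen.eq_zero_of_aeval_eq_zero Q hQ
  have h1 : MvPolynomial.constantCoeff Q = δ ^ P.natDegree := by
    show MvPolynomial.constantCoeff (∑ j ∈ Finset.range (P.natDegree + 1),
        MvPolynomial.C (ψ (P.coeff j)) *
        (Xa ^ 2 + MvPolynomial.C δ + Xb * Xc) ^ j * Xa ^ (P.natDegree - j)) = _
    rw [map_sum, Finset.sum_eq_single P.natDegree]
    · rw [map_mul, map_mul, map_pow, map_pow, map_add, map_add, map_mul, map_pow,
        MvPolynomial.constantCoeff_C, MvPolynomial.constantCoeff_C, MvPolynomial.constantCoeff_X,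
        MvPolynomial.constantCoeff_X, MvPolynomial.constantCoeff_X, hP.coeff_natDegree, map_one,
        Nat.sub_self, pow_zero, mul_one, one_mul, mul_zero, add_zero, zero_pow two_ne_zero,
        zero_add]
    · intro j hj hne
      have hj' : j < P.natDegree :=
        lt_of_le_of_ne (Nat.lt_succ_iff.1 (Finset.mem_range.1 hj)) hne
      rw [map_mul, map_pow MvPolynomial.constantCoeff Xa, MvPolynomial.constantCoeff_X,
        zero_pow (Nat.sub_ne_zero_of_lt hj'), mul_zero]
    · intro hne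
      exact absurd (Finset.mem_range.2 (Nat.lt_succ_self _)) hne
  rw [hQ0, map_zero] at h1
  have h2 : A.det ^ P.natDegree = 0 := by
    rw [← hδ]
    have h3 := congrArg (fun x : Algebra.adjoin ℤ (⋃ m, Set.range (coords ℓ V T v (s m))) =>
      (x : E v)) h1
    exact h3.symm
  have h3 : A.det ≠ 0 := by
    rw [hA]
    exact ((Matrix.isUnit_iff_isUnit_det _).1 (V v (s 0)).isUnit).ne_zero
  exact pow_ne_zero _ h3 h2

end

end Pool.Agent.Helper55.AV
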