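import Mathlib

/-!
# AllVarieties: pairs of elements with a common eigenvalue at infinitely many places
-/

set_option autoImplicit false

open Polynomial MeasureTheory

namespace Pool.Agent.Helper55.AV

theorem tsum_places {Λ : Type} (ℓ : Λ → ℕ) (hp : ∀ v, 0 < ℓ v) (a : ℕ)
    (hℓ : ∀ l, {v | ℓ v = l}.encard ≤ a) :
    ∑' v, (((ℓ v : ℕ) : ENNReal) ^ 2)⁻¹ ≠ ⊤ := by
  classical
  let u : ℕ → ENNReal := fun l => ENNReal.ofReal (1 / (l : ℝ) ^ 2)
  have hu : ∀ v, (((ℓ v : ℕ) : ENNReal) ^ 2)⁻¹ = u (ℓ v) := by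
    intro v
    have h1 : (0 : ℝ) < ((ℓ v : ℕ) : ℝ) ^ 2 := by
      have : (0 : ℝ) < ((ℓ v : ℕ) : ℝ) := by exact_mod_cast hp v
      positivity
    show _ = ENNReal.ofReal (1 / ((ℓ v : ℕ) : ℝ) ^ 2)
    rw [one_div, ENNReal.ofReal_inv_of_pos h1, ENNReal.ofReal_pow (Nat.cast_nonneg _),
      ENNReal.ofReal_natCast]
  have h1 : ∑' v, (((ℓ v : ℕ) : ENNReal) ^ 2)⁻¹ ≤ ∑' l : ℕ, (a : ENNReal) * u l := by
    rw [← ENNReal.tsum_fiberwise (fun v => (((ℓ v : ℕ) : ENNReal) ^ 2)⁻¹) ℓ]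
    refine ENNReal.tsum_le_tsum fun l => ?_
    have h2 : ∀ x : ↑(ℓ ⁻¹' {l}), (((ℓ (x : Λ) : ℕ) : ENNReal) ^ 2)⁻¹ = u l := by
      intro x
      rw [hu, show ℓ (x : Λ) = l from x.2]
    simp only [h2]
    rw [ENNReal.tsum_const]
    have h3 : ENat.card ↑(ℓ ⁻¹' {l}) ≤ (a : ℕ∞) := hℓ l
    have h4 : ((ENat.card ↑(ℓ ⁻¹' {l}) : ℕ∞) : ENNReal) ≤ ((a : ℕ∞) : ENNReal) := by
      exact_mod_cast h3
    exact mul_le_mul' (by simpa using h4) le_rfl
  refine ne_top_of_le_ne_top ?_ h1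
  rw [ENNReal.tsum_mul_left]
  exact ENNReal.mul_ne_top (ENNReal.natCast_ne_top _)
    (Real.summable_one_div_nat_pow.2 one_lt_two).tsum_ofReal_ne_top

section

variable {Λ : Type} (ℓ : Λ → ℕ) [∀ v, Fact (ℓ v).Prime] {G : Type} [MeasurableSpace G]
  (μ : Measure G) [IsFiniteMeasure μ]

/-- if the sets `Z v` have measure at most `C / ℓ v`, then almost all pairs of elements lie in
finitely many sets `Z v ×ˢ Z v` -/
theorem null_pairs (a : ℕ) (hℓ : ∀ l, {v | ℓ v = l}.encard ≤ a) (Z : Λ → Set G)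
    (S : Finset Λ) {C : ENNReal} (hC : C ≠ ⊤)
    (hZ : ∀ v, v ∉ S → ((ℓ v : ℕ) : ENNReal) * μ (Z v) ≤ C) :
    (μ.prod μ) {p : G × G | {v | p.1 ∈ Z v ∧ p.2 ∈ Z v}.Infinite} = 0 := by
  classical
  have hcount : Countable Λ := by
    rw [← Set.countable_univ_iff]
    have h1 : (Set.univ : Set Λ) = ⋃ l : ℕ, {v | ℓ v = l} := by
      ext v
      simp
    rw [h1]
    exact Set.countable_iUnion fun l => (Set.encard_le_coe_iff.1 (hℓ l)).1.countable
  have hbound : ∀ v, μ (Z v) * μ (Z v) ≤ (if v ∈ S then μ Set.univ * μ Set.univ else 0) +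
      C * C * (((ℓ v : ℕ) : ENNReal) ^ 2)⁻¹ := by
    intro v
    split_ifs with hv
    · exact (mul_le_mul' (measure_mono (Set.subset_univ _))
        (measure_mono (Set.subset_univ _))).trans le_self_add
    · rw [zero_add]
      have hl0 : ((ℓ v : ℕ) : ENNReal) ≠ 0 := by
        have : (ℓ v) ≠ 0 := (Fact.out : (ℓ v).Prime).ne_zero
        exact_mod_cast this
      have h2 : μ (Z v) ≤ C * ((ℓ v : ℕ) : ENNReal)⁻¹ := by
        rw [← div_eq_mul_inv,
          ENNReal.le_div_iff_mul_le (Or.inl hl0) (Or.inl (ENNReal.natCast_ne_top _)), mul_comm]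
        exact hZ v hv
      refine (mul_le_mul' h2 h2).trans (le_of_eq ?_)
      rw [sq, ENNReal.mul_inv (Or.inl hl0) (Or.inr hl0)]
      ring
  have hsum : ∑' v, (μ.prod μ) (Z v ×ˢ Z v) ≠ ⊤ := by
    have h1 : ∑' v, (μ.prod μ) (Z v ×ˢ Z v) ≤
        ∑' v, ((if v ∈ S then μ Set.univ * μ Set.univ else 0) +
          C * C * (((ℓ v : ℕ) : ENNReal) ^ 2)⁻¹) :=
      ENNReal.tsum_le_tsum fun v => by
        rw [Measure.prod_prod]
        exact hbound v
    refine ne_top_of_le_ne_top ?_ h1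
    rw [ENNReal.tsum_add, ENNReal.tsum_mul_left]
    refine ENNReal.add_ne_top.2 ⟨?_, ENNReal.mul_ne_top (ENNReal.mul_ne_top hC hC)
      (tsum_places ℓ (fun v => (Fact.out : (ℓ v).Prime).pos) a hℓ)⟩
    rw [tsum_eq_sum (s := S) fun v hv => if_neg hv]
    refine ENNReal.sum_ne_top.2 fun v hv => ?_
    rw [if_pos hv]
    exact ENNReal.mul_ne_top (measure_ne_top _ _) (measure_ne_top _ _)
  have hbc := measure_limsup_cofinite_eq_zero hsum
  refine measure_mono_null ?_ hbc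
  intro p hp
  rw [Filter.mem_limsup_iff_frequently_mem, Filter.frequently_cofinite_iff_infinite]
  exact hp

end

end Pool.Agent.Helper55.AV
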