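import Pool.Agent.Helper55.AV.Prob

/-!
# AllVarieties: polynomial relations between the trace of `V v r` and the matrix of `r` on `T`
-/

set_option autoImplicit false

open Polynomial MeasureTheory

namespace Pool.Agent.Helper55.AV

open Pool.Agent.Helper37.Fd Pool.Agent.Helper37.Ad Pool.Agent.Helper21.Pred

section

variable {Λ : Type} (ℓ : Λ → ℕ) [∀ v, Fact (ℓ v).Prime]
  {E : Λ → Type} [∀ v, NontriviallyNormedField (E v)] [∀ v, IsUltrametricDist (E v)]
  [∀ v, NormedAlgebra ℚ_[ℓ v] (E v)]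
  {G : Type} [Group G] (V : ∀ v, G →* GL (Fin 2) (E v)) {d : ℕ}
  (T : ∀ (l : ℕ) [Fact l.Prime], G →* GL (Fin d) ℚ_[l])

/-- the coefficient ring -/
abbrev Co (d : ℕ) := MvPolynomial (Option (Bool × Fin d × Fin d)) ℤ

/-- evaluation of the coefficients -/
noncomputable def ev (v : Λ) (r : G) : Co d →+* E v :=
  ((MvPolynomial.aeval (coords ℓ V T v r) : _ →ₐ[ℤ] E v) : Co d →+* E v)

omit [∀ v, IsUltrametricDist (E v)] in
theorem valueAt_eq (P : (Co d)[X]) (v : Λ) (r : G) :
    valueAt ℓ V T P v r = (P.map (ev ℓ V T v r)).eval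
      (V v r : Matrix (Fin 2) (Fin 2) (E v)).trace := by
  rw [Polynomial.eval_map]
  rfl

omit [∀ v, IsUltrametricDist (E v)] in
theorem coords_mul (v : Λ) (h r : G) (hT : T (ℓ v) h = 1)
    (hV : (V v h : Matrix (Fin 2) (Fin 2) (E v)).det = 1) :
    coords ℓ V T v (h * r) = coords ℓ V T v r := by
  have h1 : baseChange (E v) (T (ℓ v)) h = 1 := by
    unfold baseChange
    rw [MonoidHom.comp_apply, hT, map_one]
  have h2 : baseChange (E v) (T (ℓ v)) (h * r) = baseChange (E v) (T (ℓ v)) r := by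
    rw [map_mul, h1, one_mul]
  have h3 : baseChange (E v) (T (ℓ v)) (h * r)⁻¹ = baseChange (E v) (T (ℓ v)) r⁻¹ := by
    rw [map_inv, h2, map_inv]
  funext x
  rcases x with _ | ⟨_ | _, s, t⟩
  · show (V v (h * r) : Matrix (Fin 2) (Fin 2) (E v)).det = _
    rw [map_mul, Units.val_mul, Matrix.det_mul, hV, one_mul]
    rfl
  · show (baseChange (E v) (T (ℓ v)) (h * r)⁻¹ : Matrix (Fin d) (Fin d) (E v)) s t = _
    rw [h3]
    rfl
  · show (baseChange (E v) (T (ℓ v)) (h * r) : Matrix (Fin d) (Fin d) (E v)) s t = _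
    rw [h2]
    rfl

omit [∀ v, IsUltrametricDist (E v)] in
theorem continuous_coords [TopologicalSpace G] [IsTopologicalGroup G] (hV : ∀ v, Continuous (V v))
    (hT : ∀ (l : ℕ) [Fact l.Prime], Continuous (T l)) (v : Λ) :
    Continuous (coords ℓ V T v) := by
  have hTc : Continuous fun r =>
      (baseChange (E v) (T (ℓ v)) r : Matrix (Fin d) (Fin d) (E v)) := by
    have h1 : Continuous fun g => (T (ℓ v) g : Matrix (Fin d) (Fin d) ℚ_[ℓ v]) :=
      Units.continuous_val.comp (hT (ℓ v))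
    refine continuous_matrix fun a b => ?_
    exact (continuous_algebraMap ℚ_[ℓ v] (E v)).comp ((continuous_apply_apply a b).comp h1)
  have hVc : Continuous fun r => (V v r : Matrix (Fin 2) (Fin 2) (E v)) :=
    Units.continuous_val.comp (hV v)
  refine continuous_pi fun x => ?_
  rcases x with _ | ⟨_ | _, s, t⟩
  · exact hVc.matrix_det
  · exact (continuous_apply_apply s t).comp (hTc.comp continuous_inv)
  · exact (continuous_apply_apply s t).comp hTc

omit [∀ v, IsUltrametricDist (E v)] in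
theorem continuous_ev [TopologicalSpace G] [IsTopologicalGroup G] (hV : ∀ v, Continuous (V v))
    (hT : ∀ (l : ℕ) [Fact l.Prime], Continuous (T l)) (v : Λ) (c : Co d) :
    Continuous fun r => ev ℓ V T v r c := by
  have h1 : ∀ r, ev ℓ V T v r c =
      MvPolynomial.eval (coords ℓ V T v r) (MvPolynomial.map (algebraMap ℤ (E v)) c) := by
    intro r
    show MvPolynomial.aeval (coords ℓ V T v r) c = _
    rw [MvPolynomial.eval_map]
    rfl
  simp only [h1]
  exact (MvPolynomial.continuous_eval _).comp (continuous_coords ℓ V T hV hT v)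

omit [∀ v, IsUltrametricDist (E v)] in
theorem continuous_valueAt [TopologicalSpace G] [IsTopologicalGroup G]
    (hV : ∀ v, Continuous (V v)) (hT : ∀ (l : ℕ) [Fact l.Prime], Continuous (T l))
    (P : (Co d)[X]) (v : Λ) : Continuous (valueAt ℓ V T P v) := by
  have hVc : Continuous fun r => (V v r : Matrix (Fin 2) (Fin 2) (E v)) :=
    Units.continuous_val.comp (hV v)
  have h1 : ∀ r, valueAt ℓ V T P v r = ∑ c ∈ P.support, ev ℓ V T v r (P.coeff c) *
      (V v r : Matrix (Fin 2) (Fin 2) (E v)).trace ^ c := by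
    intro r
    exact Polynomial.eval₂_eq_sum
  have h2 : valueAt ℓ V T P v = fun r => ∑ c ∈ P.support, ev ℓ V T v r (P.coeff c) *
      (V v r : Matrix (Fin 2) (Fin 2) (E v)).trace ^ c := funext h1
  rw [h2]
  exact continuous_finsetSum _ fun c _ =>
    (continuous_ev ℓ V T hV hT v _).mul (hVc.matrix_trace.pow c)

variable [TopologicalSpace G] [IsTopologicalGroup G] [CompactSpace G] [MeasurableSpace G]
  [BorelSpace G] (μ : Measure G) [μ.IsHaarMeasure]

omit [∀ v, IsUltrametricDist (E v)] [IsTopologicalGroup G] [CompactSpace G] in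
theorem isOpen_ne [IsTopologicalGroup G] (hV : ∀ v, Continuous (V v))
    (hT : ∀ (l : ℕ) [Fact l.Prime], Continuous (T l)) (P : (Co d)[X]) (v : Λ) :
    IsOpen {r | P.map (ev ℓ V T v r) ≠ 0} := by
  have h1 : {r | P.map (ev ℓ V T v r) ≠ 0} = ⋃ c, {r | ev ℓ V T v r (P.coeff c) ≠ 0} := by
    ext r
    rw [Set.mem_iUnion]
    constructor
    · intro h
      by_contra hne
      push Not at hne
      apply h
      ext c
      rw [Polynomial.coeff_map, Polynomial.coeff_zero]
      by_contra h2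
      exact hne c h2
    · rintro ⟨c, hc⟩ h0
      apply hc
      rw [← Polynomial.coeff_map, h0, Polynomial.coeff_zero]
  rw [h1]
  exact isOpen_iUnion fun c =>
    isOpen_compl_singleton.preimage (continuous_ev ℓ V T hV hT v (P.coeff c))

/-- a relation which is nontrivial in the trace holds on a null set -/
theorem null_alg (hV : ∀ v, Continuous (V v)) (hT : ∀ (l : ℕ) [Fact l.Prime], Continuous (T l))
    {v : Λ} {ε : ℝ} (hε : 0 < ε) (hfull : Full V (commonKernel T) v ε) (P : (Co d)[X]) :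
    μ {r | P.map (ev ℓ V T v r) ≠ 0 ∧ valueAt ℓ V T P v r = 0} = 0 := by
  classical
  have hZ : MeasurableSet {r | P.map (ev ℓ V T v r) ≠ 0 ∧ valueAt ℓ V T P v r = 0} :=
    (isOpen_ne ℓ V T hV hT P v).measurableSet.inter
      (isClosed_singleton.preimage (continuous_valueAt ℓ V T hV hT P v)).measurableSet
  obtain ⟨Z, hZd⟩ : ∃ Z : Set G, Z = {r | P.map (ev ℓ V T v r) ≠ 0 ∧
    valueAt ℓ V T P v r = 0} := ⟨_, rfl⟩
  have hmem : ∀ r, r ∈ Z ↔ P.map (ev ℓ V T v r) ≠ 0 ∧ valueAt ℓ V T P v r = 0 := by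
    intro r
    rw [hZd]
    rfl
  rw [← hZd] at hZ ⊢
  have key : ∀ K : ℕ, (K : ENNReal) * μ Z ≤ ((P.natDegree + 1 : ℕ) : ENNReal) * μ Set.univ := by
    intro K
    obtain ⟨S, hS, hS'⟩ := exists_small (E := E) v hε K
    have hex : ∀ p : E v × E v, ∃ h : G, p ∈ S ×ˢ S → T (ℓ v) h = 1 ∧
        (V v h : Matrix (Fin 2) (Fin 2) (E v)) = um p.1 p.2 := by
      intro p
      by_cases hp : p ∈ S ×ˢ S
      · obtain ⟨h1, h2⟩ := Finset.mem_product.1 hp
        obtain ⟨h, hh, hh'⟩ := exists_um V (commonKernel T) v hfull p.1 p.2 (hS' _ h1).1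
          (hS' _ h2).1 (hS' _ h1).2 (hS' _ h2).2
        exact ⟨h, fun _ => ⟨Subgroup.mem_iInf.mp (Subgroup.mem_iInf.mp hh (ℓ v)) inferInstance,
          hh'⟩⟩
      · exact ⟨1, fun h => absurd h hp⟩
    choose h hh using hex
    rw [← hS]
    refine avg_sq μ S h _ hZ P.natDegree fun r => ?_
    have hA : (V v r : Matrix (Fin 2) (Fin 2) (E v)).det ≠ 0 := by
      have := (Matrix.isUnit_iff_isUnit_det _).1 (V v r).isUnit
      exact this.ne_zero
    have hev : ∀ p ∈ S ×ˢ S, ev ℓ V T v (h p * r) = ev ℓ V T v r := by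
      intro p hp
      obtain ⟨h2, h3⟩ := hh p hp
      unfold ev
      rw [coords_mul ℓ V T v (h p) r h2 (by rw [h3, um_det])]
    by_cases hP : P.map (ev ℓ V T v r) = 0
    · refine le_trans (le_of_eq (Finset.card_eq_zero.2 ?_)) (Nat.zero_le _)
      rw [Finset.filter_eq_empty_iff]
      intro p hp hpZ
      have h2 := ((hmem _).1 hpZ).1
      rw [hev p hp] at h2
      exact h2 hP
    · have h1 := count_le S (id : E v → E v) (Set.injOn_id _)
        (V v r : Matrix (Fin 2) (Fin 2) (E v)) hA _ hP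
      have hdeg : (P.map (ev ℓ V T v r)).natDegree ≤ P.natDegree := Polynomial.natDegree_map_le
      refine le_trans (Finset.card_le_card ?_) (h1.trans (Nat.mul_le_mul_left _ (by omega)))
      intro p hp
      obtain ⟨hp1, hpZ⟩ := Finset.mem_filter.1 hp
      have hp2 := ((hmem _).1 hpZ).2
      obtain ⟨h2, h3⟩ := hh p hp1
      refine Finset.mem_filter.2 ⟨hp1, ?_⟩
      rw [valueAt_eq, hev p hp1, map_mul, Units.val_mul, h3] at hp2
      exact hp2
  by_contra h0
  have hfin : ((P.natDegree + 1 : ℕ) : ENNReal) * μ Set.univ ≠ ⊤ :=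
    ENNReal.mul_ne_top (ENNReal.natCast_ne_top _) (measure_ne_top _ _)
  obtain ⟨K, hK⟩ := ENNReal.exists_nat_mul_gt h0 hfin
  exact absurd (key K) (not_le.2 hK)

include μ in
/-- such a relation holds on a meagre set -/
theorem meagre_alg (hV : ∀ v, Continuous (V v)) (hT : ∀ (l : ℕ) [Fact l.Prime], Continuous (T l))
    {v : Λ} {ε : ℝ} (hε : 0 < ε) (hfull : Full V (commonKernel T) v ε) (P : (Co d)[X]) :
    IsMeagre {r | P.map (ev ℓ V T v r) ≠ 0 ∧ valueAt ℓ V T P v r = 0} := by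
  have hnull := null_alg ℓ V T μ hV hT hε hfull P
  have hsub : {r | P.map (ev ℓ V T v r) ≠ 0 ∧ valueAt ℓ V T P v r = 0} ⊆
      ⋃ c, ⋃ k : ℕ, {r | 1 / ((k : ℝ) + 1) ≤ ‖ev ℓ V T v r (P.coeff c)‖ ∧
        valueAt ℓ V T P v r = 0} := by
    rintro r ⟨h1, h2⟩
    obtain ⟨c, hc⟩ : ∃ c, (P.map (ev ℓ V T v r)).coeff c ≠ 0 := by
      by_contra hne
      push Not at hne
      exact h1 (Polynomial.ext fun c => by rw [hne c, Polynomial.coeff_zero])
    rw [Polynomial.coeff_map] at hc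
    obtain ⟨k, hk⟩ := exists_nat_one_div_lt (norm_pos_iff.2 hc)
    rw [Set.mem_iUnion]
    refine ⟨c, ?_⟩
    rw [Set.mem_iUnion]
    exact ⟨k, hk.le, h2⟩
  refine IsMeagre.mono hsub (isMeagre_iUnion fun c => isMeagre_iUnion fun k => ?_)
  have hcl : IsClosed {r | 1 / ((k : ℝ) + 1) ≤ ‖ev ℓ V T v r (P.coeff c)‖ ∧
      valueAt ℓ V T P v r = 0} :=
    (isClosed_le continuous_const (continuous_ev ℓ V T hV hT v _).norm).inter
      (isClosed_singleton.preimage (continuous_valueAt ℓ V T hV hT P v))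
  rw [isMeagre_iff_countable_union_isNowhereDense]
  refine ⟨{{r | 1 / ((k : ℝ) + 1) ≤ ‖ev ℓ V T v r (P.coeff c)‖ ∧ valueAt ℓ V T P v r = 0}}, ?_,
    Set.countable_singleton _, ?_⟩
  · rintro t ht
    rw [Set.mem_singleton_iff.1 ht, hcl.isNowhereDense_iff]
    by_contra hne
    refine (isOpen_interior.measure_pos μ (Set.nonempty_iff_ne_empty.2 hne)).ne'
      (measure_mono_null (interior_subset.trans ?_) hnull)
    rintro r ⟨h1, h2⟩
    refine ⟨fun h0 => ?_, h2⟩
    have h3 : ev ℓ V T v r (P.coeff c) = 0 := by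
      rw [← Polynomial.coeff_map, h0, Polynomial.coeff_zero]
    rw [h3, norm_zero] at h1
    have h4 : (0 : ℝ) < 1 / ((k : ℝ) + 1) := by positivity
    linarith
  · rw [Set.sUnion_singleton]

/-- the measure of the elements with an integral equation modulo the maximal ideal -/
theorem small_poly [∀ v, FiniteDimensional ℚ_[ℓ v] (E v)] (R : ∀ v, Finset (E v))
    (hR : ∀ v, IsReps (R v)) (hV : ∀ v, Continuous (V v))
    (hVi : ∀ v x s t, ‖(V v x : Matrix (Fin 2) (Fin 2) (E v)) s t‖ ≤ 1)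
    (hT : ∀ (l : ℕ) [Fact l.Prime], Continuous (T l))
    (hTi : ∀ (l : ℕ) [Fact l.Prime] (x : G) (s t : Fin d),
      ‖(T l x : Matrix (Fin d) (Fin d) ℚ_[l]) s t‖ ≤ 1)
    {v : Λ} (hfull : Full V (commonKernel T) v 2) (P : (Co d)[X]) (hP : P.Monic) :
    ((R v).card : ENNReal) * μ {r | ‖valueAt ℓ V T P v r‖ < 1} ≤
      ((P.natDegree + 1 : ℕ) : ENNReal) * μ Set.univ := by
  classical
  have hZ : MeasurableSet {r | ‖valueAt ℓ V T P v r‖ < 1} :=
    (isOpen_lt (continuous_valueAt ℓ V T hV hT P v).norm continuous_const).measurableSet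
  obtain ⟨O, k, _, _, _, π, hO, -, hπ, -⟩ := exists_residue (p := ℓ v) (E v)
  have hex : ∀ p : E v × E v, ∃ h : G, p ∈ R v ×ˢ R v → T (ℓ v) h = 1 ∧
      (V v h : Matrix (Fin 2) (Fin 2) (E v)) = um p.1 p.2 := by
    intro p
    by_cases hp : p ∈ R v ×ˢ R v
    · obtain ⟨h1, h2⟩ := Finset.mem_product.1 hp
      have h3 := (hR v).1 _ h1
      have h4 := (hR v).1 _ h2
      obtain ⟨h, hh, hh'⟩ := exists_um V (commonKernel T) v hfull p.1 p.2 h3 h4
        (by linarith) (by linarith)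
      exact ⟨h, fun _ => ⟨Subgroup.mem_iInf.mp (Subgroup.mem_iInf.mp hh (ℓ v)) inferInstance,
        hh'⟩⟩
    · exact ⟨1, fun h => absurd h hp⟩
  choose h hh using hex
  refine avg_sq μ (R v) h _ hZ P.natDegree fun r => ?_
  have hbc : ∀ x s t,
      ‖(baseChange (E v) (T (ℓ v)) x : Matrix (Fin d) (Fin d) (E v)) s t‖ ≤ 1 := by
    intro x s t
    show ‖algebraMap ℚ_[ℓ v] (E v) ((T (ℓ v) x : Matrix (Fin d) (Fin d) ℚ_[ℓ v]) s t)‖ ≤ 1
    rw [norm_algebraMap']
    exact hTi (ℓ v) x s t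
  let A : Matrix (Fin 2) (Fin 2) O := Matrix.of fun s t =>
    ⟨(V v r : Matrix (Fin 2) (Fin 2) (E v)) s t, (hO _).2 (hVi v r s t)⟩
  have hA : (V v r : Matrix (Fin 2) (Fin 2) (E v)) = A.map O.subtype := by
    ext s t
    rfl
  have hAk : (A.map π).det ≠ 0 := by
    have h1 : (A.map π).det = π A.det := (RingHom.map_det π A).symm
    rw [h1, Ne, hπ]
    have h2 : ((A.det : O) : E v) = (V v r : Matrix (Fin 2) (Fin 2) (E v)).det := by
      rw [hA]
      exact RingHom.map_det O.subtype A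
    rw [h2, norm_det_eq_one (V v) (hVi v) r]
    exact lt_irrefl _
  -- the coordinates are integral
  have hcoord : ∀ x, ‖coords ℓ V T v r x‖ ≤ 1 := by
    intro x
    rcases x with _ | ⟨_ | _, s, t⟩
    · exact (norm_det_eq_one (V v) (hVi v) r).le
    · exact hbc _ _ _
    · exact hbc _ _ _
  let cO : Option (Bool × Fin d × Fin d) → O := fun x => ⟨coords ℓ V T v r x, (hO _).2 (hcoord x)⟩
  let evO : Co d →+* O := ((MvPolynomial.aeval cO : _ →ₐ[ℤ] O) : Co d →+* O)
  have hevO : O.subtype.comp evO = ev ℓ V T v r := by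
    refine MvPolynomial.ringHom_ext ?_ ?_
    · intro n
      simp
    · intro x
      show O.subtype (MvPolynomial.aeval cO (MvPolynomial.X x)) =
        MvPolynomial.aeval (coords ℓ V T v r) (MvPolynomial.X x)
      rw [MvPolynomial.aeval_X, MvPolynomial.aeval_X]
      rfl
  let ρ : E v → k := fun x => if hx : x ∈ O then π ⟨x, hx⟩ else 0
  have hmem : ∀ x ∈ R v, x ∈ O := fun x hx => (hO x).2 ((hR v).1 x hx)
  have hρ : Set.InjOn ρ (R v) := by
    intro x hx y hy hxy
    have hxO := hmem x hx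
    have hyO := hmem y hy
    simp only [ρ, hxO, hyO, dite_true] at hxy
    have h2 : π (⟨x, hxO⟩ - ⟨y, hyO⟩) = 0 := by
      rw [map_sub, hxy, sub_self]
    have h3 : ‖x - y‖ < 1 := (hπ _).1 h2
    obtain ⟨z, -, hz⟩ := (hR v).2 x ((hR v).1 x hx)
    rw [hz x ⟨hx, by rw [sub_self, norm_zero]; exact one_pos⟩, hz y ⟨hy, h3⟩]
  have hQ : ((P.map evO).map π).Monic := (hP.map evO).map π
  have hQd : ((P.map evO).map π).natDegree ≤ P.natDegree :=
    Polynomial.natDegree_map_le.trans Polynomial.natDegree_map_le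
  have h1 := count_le (R v) ρ hρ (A.map π) hAk _ hQ.ne_zero
  refine le_trans (Finset.card_le_card ?_) (h1.trans (Nat.mul_le_mul_left _ (by omega)))
  intro p hp
  obtain ⟨hp1, hp2⟩ := Finset.mem_filter.1 hp
  obtain ⟨h2, h3⟩ := hh p hp1
  refine Finset.mem_filter.2 ⟨hp1, ?_⟩
  obtain ⟨hs, ht⟩ := Finset.mem_product.1 hp1
  have hsO := hmem _ hs
  have htO := hmem _ ht
  have h4 : ‖valueAt ℓ V T P v (h p * r)‖ < 1 := hp2
  have hev : ev ℓ V T v (h p * r) = ev ℓ V T v r := by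
    unfold ev
    rw [coords_mul ℓ V T v (h p) r h2 (by rw [h3, um_det])]
  have h5 : valueAt ℓ V T P v (h p * r) =
      O.subtype ((P.map evO).eval (um (⟨p.1, hsO⟩ : O) ⟨p.2, htO⟩ * A).trace) := by
    rw [valueAt_eq, hev, map_mul, Units.val_mul, h3, ← Polynomial.eval_map_apply,
      Polynomial.map_map, hevO]
    congr 1
  rw [h5] at h4
  have h6 : π ((P.map evO).eval (um (⟨p.1, hsO⟩ : O) ⟨p.2, htO⟩ * A).trace) = 0 := (hπ _).2 h4
  rw [← Polynomial.eval_map_apply] at h6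
  have h7 : π ⟨p.1, hsO⟩ = ρ p.1 := by
    simp only [ρ, hsO, dite_true]
  have h8 : π ⟨p.2, htO⟩ = ρ p.2 := by
    simp only [ρ, htO, dite_true]
  have h9 : π (um (⟨p.1, hsO⟩ : O) ⟨p.2, htO⟩ * A).trace =
      (um (ρ p.1) (ρ p.2) * A.map π).trace := by
    rw [← h7, ← h8, ← um_map, ← Matrix.map_mul, Matrix.trace_fin_two, Matrix.trace_fin_two]
    simp
  rw [h9] at h6
  exact h6

end

end Pool.Agent.Helper55.AV
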