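import Pool.Agent.Helper55.AV.Defs

/-!
# AllVarieties: multiplicative relations between Weil numbers can be chosen in a finite set

`finite_relations`: if a root `x` of `f` is multiplicatively dependent on the roots of `g` (`f`, `g`
monic over the integers of `M`, of degrees `2` and `d`, all complex absolute values of all conjugates
of the roots equal to `√q`, `q = p ^ b`, `b ≤ a`), then there is a relation
`x ^ n = ∏ y j ^ m j` with `(n, m)` in a finite set which depends only on `M`, `d`, `a`.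

Proof.  Let `y : Fin d → M̄` be the roots of `g` with multiplicities, `K = M (x, y) ⊆ M̄`, a number
field with `[K : ℚ] ≤ D := [M : ℚ] * (d + 2) ^ (d + 1)`.  For a root `z` the element `q / z` is an algebraic
integer (under any embedding it is the complex conjugate of `z`), so `z ∣ q` in the integers of `K`,
and the multiplicity of every prime ideal `P` in `(z)` is at most that in `(q)`, which is at most
`B := a * D` (`N P = p ^ f`, `N (p) = p ^ [K : ℚ]`), and zero if `P` does not divide `q`.  The relation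
`x ^ N = ∏ y j ^ c j` gives `N * r_P(x) = ∑ c j * r_P(y j)` for the multiplicities, for all `P`, and
`N = ∑ c j` (absolute values).  The rows `(r_P(x), r_P(y j))` form a subset `S` of a finite box, and
for each of the finitely many subsets `S` we choose one solution `(n, m)`, `n > 0` of
`n * r 0 = ∑ m j * r j` (all rows in `S`), `n = ∑ m j`, if there is one.  For the chosen solution
`u = x ^ n * ∏ y j ^ (- m j)` has all multiplicities zero and all absolute values one, so it is a root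
of unity (Kronecker, `NumberField.Embeddings.pow_eq_one_of_norm_eq_one`) in a field of degree at most
`D`, so its order divides `(2 * D)!` (a prime power `r ^ k` dividing the order has
`r ^ k ≤ 2 * φ (r ^ k) ≤ 2 * D`).  Take the relations `(n * (2 * D)!, m * (2 * D)!)`.
-/

set_option autoImplicit false

open NumberField Polynomial

namespace Pool.Agent.Helper55.AV

/-- the relation `x ^ n = ∏ y j ^ m j` between roots of `f` and of `g` -/
def Relation {K : Type*} [Field K] (n : ℕ) {w : ℕ} (m : Fin w → ℤ) (f g : K[X]) : Prop :=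
  ∃ (x : AlgebraicClosure K) (y : Fin w → AlgebraicClosure K), aeval x f = 0 ∧
    (∀ j, aeval (y j) g = 0) ∧ x ^ n = ∏ j, y j ^ m j

namespace Rl

theorem root_pow {K : Type} [Field K] [NumberField K] {D : ℕ}
    (hD : Module.finrank ℚ K ≤ D) {u : K} {n : ℕ} (hn : 0 < n) (hu : u ^ n = 1) :
    u ^ Nat.factorial (2 * D) = 1 := by
  have h0 : 0 < orderOf u := orderOf_pos_iff.2 (isOfFinOrder_iff_pow_eq_one.2 ⟨n, hn, hu⟩)
  have h1 : IsPrimitiveRoot u (orderOf u) := IsPrimitiveRoot.orderOf u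
  have hint : IsIntegral ℤ u := h1.isIntegral h0
  have h2 : Nat.totient (orderOf u) ≤ D := by
    refine (h1.totient_le_degree_minpoly).trans (le_trans ?_ hD)
    have h3 := minpoly.isIntegrallyClosed_eq_field_fractions' ℚ hint
    have h4 : (minpoly ℤ u).natDegree = (minpoly ℚ u).natDegree := by
      rw [h3, (minpoly.monic hint).natDegree_map]
    rw [h4]
    exact minpoly.natDegree_le u
  rw [← orderOf_dvd_iff_pow_eq_one, Nat.dvd_iff_prime_pow_dvd_dvd]
  intro r k hr hk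
  apply Nat.dvd_factorial (pow_pos hr.pos k)
  have h3 : Nat.totient (r ^ k) ≤ D := (Nat.le_of_dvd (Nat.totient_pos.2 h0) (Nat.totient_dvd_of_dvd hk)).trans h2
  rcases Nat.eq_zero_or_pos k with rfl | hk0
  · simp
    have : 0 < Module.finrank ℚ K := Module.finrank_pos
    omega
  · rw [Nat.totient_prime_pow hr hk0] at h3
    obtain ⟨k, rfl⟩ : ∃ j, k = j + 1 := ⟨k - 1, by omega⟩
    have h4 : r ≤ 2 * (r - 1) := by
      have := hr.two_le
      omega
    calc r ^ (k + 1) = r ^ k * r := pow_succ r k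
      _ ≤ r ^ k * (2 * (r - 1)) := Nat.mul_le_mul_left _ h4
      _ = 2 * (r ^ (k + 1 - 1) * (r - 1)) := by rw [Nat.add_sub_cancel]; ring
      _ ≤ 2 * D := Nat.mul_le_mul_left _ h3

open UniqueFactorizationMonoid in
theorem count_p {K : Type} [Field K] [NumberField K] {p : ℕ} (hp : p.Prime) (P : Ideal (𝓞 K)) :
    (normalizedFactors (Ideal.span {((p : ℕ) : 𝓞 K)})).count P ≤ Module.finrank ℚ K := by
  classical
  set I := Ideal.span {((p : ℕ) : 𝓞 K)} with hI
  have hp0 : ((p : ℕ) : 𝓞 K) ≠ 0 := Nat.cast_ne_zero.2 hp.ne_zero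
  have hI0 : I ≠ 0 := by
    rw [hI]
    simpa using hp0
  rcases Nat.eq_zero_or_pos ((normalizedFactors I).count P) with h | h
  · omega
  have hP : P ∈ normalizedFactors I := Multiset.count_pos.1 h
  have hPp : Prime P := prime_of_normalized_factor P hP
  have h1 : P ^ (normalizedFactors I).count P ∣ I := by
    have h5 : Multiset.replicate ((normalizedFactors I).count P) P ≤ normalizedFactors I :=
      Multiset.le_count_iff_replicate_le.1 le_rfl
    have h6 := Multiset.prod_dvd_prod_of_le h5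
    rw [Multiset.prod_replicate] at h6
    exact h6.trans (prod_normalizedFactors hI0).dvd
  have h2 : (Ideal.absNorm P) ^ (normalizedFactors I).count P ∣ p ^ Module.finrank ℚ K := by
    have := map_dvd Ideal.absNorm h1
    rw [map_pow, hI, Ideal.absNorm_span_natCast, RingOfIntegers.rank] at this
    exact this
  have h3 : Ideal.absNorm P ≠ 1 := by
    rw [Ne, Ideal.absNorm_eq_one_iff]
    exact fun h => hPp.not_isUnit (Ideal.isUnit_iff.2 h)
  have h4 : Ideal.absNorm P ∣ p ^ Module.finrank ℚ K := (dvd_pow_self _ h.ne').trans h2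
  obtain ⟨j, -, hj⟩ := (Nat.dvd_prime_pow hp).1 h4
  have hj0 : j ≠ 0 := by
    rintro rfl
    exact h3 (by rw [hj, pow_zero])
  rw [hj, ← pow_mul] at h2
  have h5 := (Nat.pow_dvd_pow_iff_le_right hp.one_lt).1 h2
  calc _ ≤ j * (normalizedFactors I).count P := Nat.le_mul_of_pos_left _ (Nat.pos_of_ne_zero hj0)
    _ ≤ _ := h5

open UniqueFactorizationMonoid in
/-- a Weil number divides `q`; so its prime ideal multiplicities are bounded -/
theorem count_weil {K : Type} [Field K] [NumberField K] {p b a D : ℕ} (hp : p.Prime)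
    (hb : b ≤ a) (hD : Module.finrank ℚ K ≤ D) {z : 𝓞 K} (hz0 : z ≠ 0)
    (hz : ∀ φ : K →+* ℂ, ‖φ (algebraMap (𝓞 K) K z)‖ ^ 2 = ((p ^ b : ℕ) : ℝ)) (P : Ideal (𝓞 K)) :
    (normalizedFactors (Ideal.span {z})).count P ≤ a * D := by
  classical
  have hq0 : ((p : ℕ) : K) ^ b ≠ 0 := pow_ne_zero _ (Nat.cast_ne_zero.2 hp.ne_zero)
  have hzK : algebraMap (𝓞 K) K z ≠ 0 := by
    intro h
    exact hz0 (RingOfIntegers.coe_eq_zero_iff.1 h)
  have hint : IsIntegral ℤ (((p : ℕ) : K) ^ b / algebraMap (𝓞 K) K z) := by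
    obtain ⟨φ⟩ : Nonempty (K →+* ℂ) := inferInstance
    have h1 : φ (((p : ℕ) : K) ^ b / algebraMap (𝓞 K) K z) =
        starRingEnd ℂ (φ (algebraMap (𝓞 K) K z)) := by
      have h2 : φ (algebraMap (𝓞 K) K z) ≠ 0 := by
        rw [Ne, map_eq_zero]
        exact hzK
      rw [map_div₀, map_pow, map_natCast, div_eq_iff h2, mul_comm, Complex.mul_conj,
        Complex.normSq_eq_norm_sq, hz φ]
      push_cast
      rfl
    have h3 : IsIntegral ℤ (starRingEnd ℂ (φ (algebraMap (𝓞 K) K z))) := by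
      have h4 : IsIntegral ℤ (algebraMap (𝓞 K) K z) := RingOfIntegers.isIntegral_coe z
      have h5 : IsIntegral ℤ (φ (algebraMap (𝓞 K) K z)) := h4.map φ.toIntAlgHom
      exact h5.map (starRingEnd ℂ).toIntAlgHom
    rw [← h1] at h3
    exact (isIntegral_algHom_iff φ.toIntAlgHom φ.injective).1 h3
  have hdvd : z ∣ ((p : ℕ) : 𝓞 K) ^ b := by
    refine ⟨⟨((p : ℕ) : K) ^ b / z, hint⟩, ?_⟩
    apply RingOfIntegers.coe_injective
    rw [map_mul, map_pow, map_natCast]
    exact (mul_div_cancel₀ _ hzK).symm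
  have h1 : Ideal.span {z} ∣ Ideal.span {((p : ℕ) : 𝓞 K)} ^ b := by
    rw [Ideal.span_singleton_pow, Ideal.dvd_iff_le, Ideal.span_singleton_le_span_singleton]
    exact hdvd
  have hz1 : Ideal.span {z} ≠ 0 := by simpa using hz0
  have hp1 : Ideal.span {((p : ℕ) : 𝓞 K)} ≠ 0 := by simpa using hp.ne_zero
  have h2 := (dvd_iff_normalizedFactors_le_normalizedFactors hz1 (pow_ne_zero b hp1)).1 h1
  have h3 := Multiset.count_le_of_le P h2
  rw [normalizedFactors_pow, Multiset.count_nsmul] at h3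
  exact h3.trans (Nat.mul_le_mul hb ((count_p hp P).trans hD))

open UniqueFactorizationMonoid in
/-- the multiplicity of `P` in `(z)` -/
noncomputable def vv {K : Type} [Field K] [NumberField K] (P : Ideal (𝓞 K)) (z : 𝓞 K) : ℕ :=
  by classical exact (normalizedFactors (Ideal.span {z})).count P

section vv

variable {K : Type} [Field K] [NumberField K] (P : Ideal (𝓞 K))

theorem vv_one : vv P 1 = 0 := by
  classical
  unfold vv
  rw [Ideal.span_singleton_one, ← Ideal.one_eq_top, UniqueFactorizationMonoid.normalizedFactors_one,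
    Multiset.count_zero]

theorem vv_mul {z w : 𝓞 K} (hz : z ≠ 0) (hw : w ≠ 0) : vv P (z * w) = vv P z + vv P w := by
  classical
  unfold vv
  rw [← Ideal.span_singleton_mul_span_singleton,
    UniqueFactorizationMonoid.normalizedFactors_mul (by simpa using hz) (by simpa using hw),
    Multiset.count_add]

theorem vv_pow {z : 𝓞 K} (hz : z ≠ 0) (n : ℕ) : vv P (z ^ n) = n * vv P z := by
  induction n with
  | zero => rw [pow_zero, vv_one, zero_mul]
  | succ n ih => rw [pow_succ, vv_mul P (pow_ne_zero n hz) hz, ih, Nat.succ_mul]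

theorem vv_prod {ι : Type} (s : Finset ι) (y : ι → 𝓞 K) (hy : ∀ j, y j ≠ 0) (m : ι → ℕ) :
    vv P (∏ j ∈ s, y j ^ m j) = ∑ j ∈ s, m j * vv P (y j) := by
  classical
  induction s using Finset.induction_on with
  | empty => rw [Finset.prod_empty, Finset.sum_empty, vv_one]
  | insert i s hi ih =>
    rw [Finset.prod_insert hi, Finset.sum_insert hi, vv_mul P (pow_ne_zero _ (hy i))
      (Finset.prod_ne_zero_iff.2 fun j _ => pow_ne_zero _ (hy j)), ih, vv_pow P (hy i)]

theorem assoc_of_vv {z w : 𝓞 K} (hz : z ≠ 0) (hw : w ≠ 0)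
    (h : ∀ P : Ideal (𝓞 K), vv P z = vv P w) : Associated z w := by
  classical
  have h1 : UniqueFactorizationMonoid.normalizedFactors (Ideal.span {z}) =
      UniqueFactorizationMonoid.normalizedFactors (Ideal.span {w}) := by
    ext P
    exact h P
  rw [← Ideal.span_singleton_eq_span_singleton]
  have h2 : Ideal.span {z} ≠ 0 := by simpa using hz
  have h3 : Ideal.span {w} ≠ 0 := by simpa using hw
  rw [← associated_iff_eq]
  have h4 := (UniqueFactorizationMonoid.prod_normalizedFactors h2).symm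
  rw [h1] at h4
  exact h4.trans (UniqueFactorizationMonoid.prod_normalizedFactors h3)

end vv

theorem split_rel {K : Type*} [Field K] {d : ℕ} {x : K} {y : Fin d → K} (hy : ∀ j, y j ≠ 0)
    (n : ℕ) (m : Fin d → ℤ) :
    x ^ n = ∏ j, y j ^ m j ↔
      x ^ n * ∏ j, y j ^ (-m j).toNat = ∏ j, y j ^ (m j).toNat := by
  have h1 : ∏ j, y j ^ m j = (∏ j, y j ^ (m j).toNat) / ∏ j, y j ^ (-m j).toNat := by
    rw [← Finset.prod_div_distrib]
    refine Finset.prod_congr rfl fun j _ => ?_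
    rw [← zpow_natCast, ← zpow_natCast, ← zpow_sub₀ (hy j), Int.toNat_sub_toNat_neg]
  rw [h1, eq_div_iff (Finset.prod_ne_zero_iff.2 fun j _ => pow_ne_zero _ (hy j))]

/-- rows of multiplicities -/
abbrev Row (d B : ℕ) : Type := Fin (B + 1) × (Fin d → Fin (B + 1))

def Sol {d B : ℕ} (S : Set (Row d B)) (γ : ℕ × (Fin d → ℤ)) : Prop :=
  0 < γ.1 ∧ (γ.1 : ℤ) = ∑ j, γ.2 j ∧
    ∀ r ∈ S, (γ.1 : ℤ) * ((r.1 : ℕ) : ℤ) = ∑ j, γ.2 j * ((r.2 j : ℕ) : ℤ)

open Classical in
noncomputable def sol {d B : ℕ} (S : Set (Row d B)) : ℕ × (Fin d → ℤ) :=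
  if h : ∃ γ, Sol S γ then h.choose else (1, 0)

theorem sol_pos {d B : ℕ} (S : Set (Row d B)) : 0 < (sol S).1 := by
  unfold sol
  split_ifs with h
  · exact h.choose_spec.1
  · exact one_pos

theorem sol_spec {d B : ℕ} {S : Set (Row d B)} (h : ∃ γ, Sol S γ) : Sol S (sol S) := by
  unfold sol
  rw [dif_pos h]
  exact h.choose_spec

noncomputable def Gam (d a D : ℕ) : Finset (ℕ × (Fin d → ℤ)) :=
  (Set.toFinite (Set.range fun S : Set (Row d (a * D)) =>
    ((sol S).1 * Nat.factorial (2 * D), fun j => (sol S).2 j * (Nat.factorial (2 * D) : ℤ)))).toFinset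

theorem core {K : Type} [Field K] [NumberField K] {p b a D d : ℕ} (hp : p.Prime) (hb : b ≤ a)
    (hD : Module.finrank ℚ K ≤ D) (x : 𝓞 K) (y : Fin d → 𝓞 K)
    (hx : ∀ φ : K →+* ℂ, ‖φ (algebraMap (𝓞 K) K x)‖ ^ 2 = ((p ^ b : ℕ) : ℝ))
    (hy : ∀ (j : Fin d) (φ : K →+* ℂ), ‖φ (algebraMap (𝓞 K) K (y j))‖ ^ 2 = ((p ^ b : ℕ) : ℝ))
    (hb0 : 0 < b) {N : ℕ} (hN : 0 < N) (c : Fin d → ℤ)
    (h : algebraMap (𝓞 K) K x ^ N = ∏ j, algebraMap (𝓞 K) K (y j) ^ c j) :
    ∃ γ ∈ Gam d a D,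
      algebraMap (𝓞 K) K x ^ γ.1 = ∏ j, algebraMap (𝓞 K) K (y j) ^ γ.2 j := by
  classical
  obtain ⟨φ0⟩ : Nonempty (K →+* ℂ) := inferInstance
  have hq : (0 : ℝ) < ((p ^ b : ℕ) : ℝ) := by
    exact_mod_cast pow_pos hp.pos b
  have hq1 : (1 : ℝ) < ((p ^ b : ℕ) : ℝ) := by
    exact_mod_cast Nat.one_lt_pow hb0.ne' hp.one_lt
  have hne : ∀ z : 𝓞 K, ‖φ0 (algebraMap (𝓞 K) K z)‖ ^ 2 = ((p ^ b : ℕ) : ℝ) → z ≠ 0 := by
    rintro z hz rfl
    rw [map_zero, map_zero, norm_zero] at hz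
    have : ((0:ℝ)) ^ 2 = 0 := by norm_num
    rw [this] at hz
    exact hq.ne hz
  have hx0 : x ≠ 0 := hne x (hx φ0)
  have hy0 : ∀ j, y j ≠ 0 := fun j => hne (y j) (hy j φ0)
  have hyK : ∀ j, algebraMap (𝓞 K) K (y j) ≠ 0 :=
    fun j h => hy0 j (RingOfIntegers.coe_eq_zero_iff.1 h)
  -- the two sides of a relation
  have hB0 : ∀ (m : Fin d → ℕ), ∏ j, y j ^ m j ≠ 0 := fun m =>
    Finset.prod_ne_zero_iff.2 fun j _ => pow_ne_zero _ (hy0 j)
  have hA0 : ∀ (n : ℕ) (m : Fin d → ℕ), x ^ n * ∏ j, y j ^ m j ≠ 0 := fun n m =>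
    mul_ne_zero (pow_ne_zero n hx0) (hB0 m)
  have hvA : ∀ (P : Ideal (𝓞 K)) (n : ℕ) (m : Fin d → ℕ), vv P (x ^ n * ∏ j, y j ^ m j) =
      n * vv P x + ∑ j, m j * vv P (y j) := by
    intro P n m
    rw [vv_mul P (pow_ne_zero n hx0) (hB0 m), vv_pow P hx0, vv_prod P _ y hy0]
  have hnA : ∀ (φ : K →+* ℂ) (n : ℕ) (m : Fin d → ℕ),
      ‖φ (algebraMap (𝓞 K) K (x ^ n * ∏ j, y j ^ m j))‖ ^ 2 =
        ((p ^ b : ℕ) : ℝ) ^ (n + ∑ j, m j) := by
    intro φ n m
    rw [map_mul, map_mul, norm_mul, mul_pow, map_pow, map_pow, norm_pow, ← pow_mul, mul_comm n 2,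
      pow_mul, hx φ, map_prod, map_prod, norm_prod, ← Finset.prod_pow, pow_add]
    congr 1
    rw [← Finset.prod_pow_eq_pow_sum]
    refine Finset.prod_congr rfl fun j _ => ?_
    rw [map_pow, map_pow, norm_pow, ← pow_mul, mul_comm (m j) 2, pow_mul, hy j φ]
  have hkey : ∀ (n : ℕ) (m : Fin d → ℤ),
      (algebraMap (𝓞 K) K x ^ n = ∏ j, algebraMap (𝓞 K) K (y j) ^ m j ↔
      x ^ n * ∏ j, y j ^ (-m j).toNat = x ^ 0 * ∏ j, y j ^ (m j).toNat) := by
    intro n m
    rw [split_rel hyK, pow_zero, one_mul, ← (RingOfIntegers.coe_injective (K := K)).eq_iff]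
    simp only [map_mul, map_pow, map_prod]
  have hdiff : ∀ k : ℤ, ((k.toNat : ℕ) : ℤ) - (((-k).toNat : ℕ) : ℤ) = k :=
    Int.toNat_sub_toNat_neg
  have hsum : ∀ (P : Ideal (𝓞 K)) (m : Fin d → ℤ),
      ((∑ j, (m j).toNat * vv P (y j) : ℕ) : ℤ) - ((∑ j, (-m j).toNat * vv P (y j) : ℕ) : ℤ) =
      ∑ j, m j * (vv P (y j) : ℤ) := by
    intro P m
    push_cast
    rw [← Finset.sum_sub_distrib]
    refine Finset.sum_congr rfl fun j _ => ?_
    rw [← sub_mul, hdiff]
  have hsum1 : ∀ (m : Fin d → ℤ),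
      ((∑ j, (m j).toNat : ℕ) : ℤ) - ((∑ j, (-m j).toNat : ℕ) : ℤ) = ∑ j, m j := by
    intro m
    push_cast
    rw [← Finset.sum_sub_distrib]
    exact Finset.sum_congr rfl fun j _ => hdiff _
  -- the rows
  have hbx : ∀ P : Ideal (𝓞 K), vv P x < a * D + 1 := fun P =>
    Nat.lt_succ_of_le (count_weil hp hb hD hx0 hx P)
  have hby : ∀ (P : Ideal (𝓞 K)) (j : Fin d), vv P (y j) < a * D + 1 := fun P j =>
    Nat.lt_succ_of_le (count_weil hp hb hD (hy0 j) (hy j) P)
  let row : Ideal (𝓞 K) → Row d (a * D) := fun P => (⟨vv P x, hbx P⟩, fun j => ⟨vv P (y j), hby P j⟩)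
  have hS : ∃ γ, Sol (Set.range row) γ := by
    refine ⟨(N, c), hN, ?_, ?_⟩
    · have h1 := (hkey N c).1 h
      have h2 := hnA φ0 N (fun j => (-c j).toNat)
      rw [h1, hnA φ0 0] at h2
      have h3 := pow_right_injective₀ hq hq1.ne' h2
      have h4 := hsum1 c
      simp only at h3 ⊢
      zify at h3
      push_cast at h4
      linarith
    · rintro _ ⟨P, rfl⟩
      have h1 := (hkey N c).1 h
      have h2 := hvA P N (fun j => (-c j).toNat)
      rw [h1, hvA P 0] at h2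
      have h4 := hsum P c
      simp only [row]
      zify at h2
      push_cast at h4
      linarith
  obtain ⟨hn, hn1, hn2⟩ := sol_spec hS
  set γ := sol (Set.range row) with hγ
  refine ⟨(γ.1 * Nat.factorial (2 * D), fun j => γ.2 j * (Nat.factorial (2 * D) : ℤ)), ?_, ?_⟩
  · unfold Gam
    rw [Set.Finite.mem_toFinset]
    exact ⟨Set.range row, rfl⟩
  set A := x ^ γ.1 * ∏ j, y j ^ (-γ.2 j).toNat with hA
  set B := x ^ 0 * ∏ j, y j ^ (γ.2 j).toNat with hB
  have hAB : Associated A B := by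
    apply assoc_of_vv (hA0 _ _) (hA0 _ _)
    intro P
    rw [hvA, hvA]
    have h1 := hn2 (row P) ⟨P, rfl⟩
    have h4 := hsum P γ.2
    simp only [row] at h1
    zify
    push_cast at h4
    linarith
  obtain ⟨u, hu⟩ := hAB
  have hA00 : algebraMap (𝓞 K) K A ≠ 0 := by
    rw [RingOfIntegers.coe_ne_zero_iff]
    exact hA0 _ _
  have hu1 : ∀ φ : K →+* ℂ, ‖φ (algebraMap (𝓞 K) K u)‖ = 1 := by
    intro φ
    have h1 : ‖φ (algebraMap (𝓞 K) K (A * u))‖ ^ 2 = ‖φ (algebraMap (𝓞 K) K B)‖ ^ 2 := by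
      rw [hu]
    rw [map_mul, map_mul, norm_mul, mul_pow, hA, hB, hnA, hnA] at h1
    have h2 : γ.1 + ∑ j, (-γ.2 j).toNat = 0 + ∑ j, (γ.2 j).toNat := by
      have h4 := hsum1 γ.2
      zify
      push_cast at h4
      linarith
    rw [h2] at h1
    have h3 : ‖φ (algebraMap (𝓞 K) K u)‖ ^ 2 = 1 := by
      have h5 : ((p ^ b : ℕ) : ℝ) ^ (0 + ∑ j, (γ.2 j).toNat) ≠ 0 := pow_ne_zero _ hq.ne'
      exact mul_left_cancel₀ h5 (by rw [h1, mul_one])
    exact (pow_eq_one_iff_of_nonneg (norm_nonneg _) two_ne_zero).1 h3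
  obtain ⟨k, hk, hk1⟩ := NumberField.Embeddings.pow_eq_one_of_norm_eq_one K ℂ
    (RingOfIntegers.isIntegral_coe (u : 𝓞 K)) hu1
  have hu2 := root_pow hD hk hk1
  have hE : (algebraMap (𝓞 K) K A) ^ Nat.factorial (2 * D) =
      (algebraMap (𝓞 K) K B) ^ Nat.factorial (2 * D) := by
    have h6 : algebraMap (𝓞 K) K B = algebraMap (𝓞 K) K A * algebraMap (𝓞 K) K u := by
      rw [← map_mul, hu]
    rw [h6, mul_pow, hu2, mul_one]
  have hN0 : ∏ j, algebraMap (𝓞 K) K (y j) ^ (-γ.2 j).toNat ≠ 0 :=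
    Finset.prod_ne_zero_iff.2 fun j _ => pow_ne_zero _ (hyK j)
  have h7 : algebraMap (𝓞 K) K A = algebraMap (𝓞 K) K x ^ γ.1 *
      ∏ j, algebraMap (𝓞 K) K (y j) ^ (-γ.2 j).toNat := by
    rw [hA]
    simp only [map_mul, map_pow, map_prod]
  have h8 : algebraMap (𝓞 K) K B = (∏ j, algebraMap (𝓞 K) K (y j) ^ γ.2 j) *
      ∏ j, algebraMap (𝓞 K) K (y j) ^ (-γ.2 j).toNat := by
    rw [hB, ← Finset.prod_mul_distrib, pow_zero, one_mul, map_prod]
    refine Finset.prod_congr rfl fun j _ => ?_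
    rw [map_pow, ← zpow_natCast, ← zpow_natCast, ← zpow_add₀ (hyK j)]
    congr 1
    have := hdiff (γ.2 j)
    linarith
  rw [h7, h8, mul_pow, mul_pow] at hE
  have h9 := mul_right_cancel₀ (pow_ne_zero _ hN0) hE
  simp only
  rw [pow_mul, h9, ← Finset.prod_pow]
  refine Finset.prod_congr rfl fun j _ => ?_
  rw [zpow_mul, zpow_natCast]

/-- the degree of a field generated by finitely many elements of degree at most `e` -/
theorem finrank_adjoin_le {M Ω : Type} [Field M] [Field Ω] [Algebra M Ω] {e : ℕ} (S : Finset Ω)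
    (hS : ∀ z ∈ S, ∃ h : M[X], h.Monic ∧ h.natDegree ≤ e ∧ aeval z h = 0) :
    Module.finrank M (IntermediateField.adjoin M (S : Set Ω)) ≤ e ^ S.card := by
  classical
  induction S using Finset.induction_on with
  | empty =>
    rw [Finset.coe_empty, IntermediateField.adjoin_empty, IntermediateField.finrank_bot,
      Finset.card_empty, pow_zero]
  | insert z S hz ih =>
    rw [Finset.coe_insert, ← Set.singleton_union, IntermediateField.adjoin_union,
      Finset.card_insert_of_notMem hz, pow_succ']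
    refine (IntermediateField.finrank_sup_le _ _).trans (Nat.mul_le_mul ?_ ?_)
    · obtain ⟨h, hm, hd, h0⟩ := hS z (Finset.mem_insert_self z S)
      have hi : IsIntegral M z := ⟨h, hm, h0⟩
      rw [IntermediateField.adjoin.finrank hi]
      exact (Polynomial.natDegree_le_of_dvd (minpoly.dvd M z h0) hm.ne_zero).trans hd
    · exact ih fun w hw => hS w (Finset.mem_insert_of_mem hw)

/-- the roots of a polynomial over an algebraically closed field -/
theorem exists_roots {M Ω : Type} [Field M] [Field Ω] [Algebra M Ω] [IsAlgClosed Ω] {g : M[X]}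
    (hg : g ≠ 0) {d : ℕ} (hd : g.natDegree = d) : ∃ y : Fin d → Ω, (∀ j, aeval (y j) g = 0) ∧
      ∀ z, aeval z g = 0 → ∃ j, y j = z := by
  subst hd
  have h1 : (g.aroots Ω).toList.length = g.natDegree := by
    rw [Multiset.length_toList, IsAlgClosed.card_aroots_eq_natDegree]
  refine ⟨fun j => (g.aroots Ω).toList.get (Fin.cast h1.symm j), fun j => ?_, fun z hz => ?_⟩
  · have h2 : (g.aroots Ω).toList.get (Fin.cast h1.symm j) ∈ g.aroots Ω :=
      Multiset.mem_toList.1 (List.get_mem _ _)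
    exact (mem_aroots.1 h2).2
  · have h2 : z ∈ (g.aroots Ω).toList := Multiset.mem_toList.2 (mem_aroots.2 ⟨hg, hz⟩)
    obtain ⟨i, hi⟩ := List.get_of_mem h2
    exact ⟨Fin.cast h1 i, by simpa using hi⟩

theorem exists_exps {Ω : Type} [Field Ω] {d : ℕ} {y : Fin d → Ω} (hy : ∀ j, y j ≠ 0) {A : Set Ω}
    (hA : ∀ z ∈ A, (∃ j, y j = z) ∨ ∃ j, y j = z⁻¹) {z : Ω} (hz : z ∈ Submonoid.closure A) :
    ∃ c : Fin d → ℤ, z = ∏ j, y j ^ c j := by
  classical
  induction hz using Submonoid.closure_induction with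
  | mem z hz =>
    rcases hA z hz with ⟨i, hi⟩ | ⟨i, hi⟩
    · refine ⟨Pi.single i 1, ?_⟩
      rw [Finset.prod_eq_single i, Pi.single_eq_same, zpow_one, hi]
      · intro j _ hj
        rw [Pi.single_eq_of_ne hj, zpow_zero]
      · intro h
        exact absurd (Finset.mem_univ i) h
    · refine ⟨Pi.single i (-1), ?_⟩
      rw [Finset.prod_eq_single i, Pi.single_eq_same, zpow_neg_one, hi, inv_inv]
      · intro j _ hj
        rw [Pi.single_eq_of_ne hj, zpow_zero]
      · intro h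
        exact absurd (Finset.mem_univ i) h
  | one => exact ⟨0, by simp⟩
  | mul z w _ _ hz hw =>
    obtain ⟨c, hc⟩ := hz
    obtain ⟨e, he⟩ := hw
    refine ⟨c + e, ?_⟩
    rw [hc, he, ← Finset.prod_mul_distrib]
    refine Finset.prod_congr rfl fun j _ => ?_
    rw [Pi.add_apply, zpow_add₀ (hy j)]

/-- a root of a monic Weil polynomial over `𝓞 M`, in a number field `K` over `M` -/
theorem weil_root {M K : Type} [Field M] [NumberField M] [Field K] [NumberField K] [Algebra M K]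
    {q : ℕ} {f : (𝓞 M)[X]} (hf : f.Monic) (hW : IsWeil q f) {x : K}
    (hx : aeval x (f.map (algebraMap (𝓞 M) M)) = 0) :
    ∃ X : 𝓞 K, algebraMap (𝓞 K) K X = x ∧
      ∀ φ : K →+* ℂ, ‖φ (algebraMap (𝓞 K) K X)‖ ^ 2 = (q : ℝ) := by
  have h1 : f.eval₂ ((algebraMap M K).comp (algebraMap (𝓞 M) M)) x = 0 := by
    rw [aeval_def, eval₂_map] at hx
    exact hx
  have hint : IsIntegral ℤ x := by
    have h2 : ((algebraMap M K).comp (algebraMap (𝓞 M) M)).IsIntegralElem x := ⟨f, hf, h1⟩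
    let _ : Algebra (𝓞 M) K := ((algebraMap M K).comp (algebraMap (𝓞 M) M)).toAlgebra
    have h3 : IsIntegral (𝓞 M) x := h2
    exact isIntegral_trans (R := ℤ) x h3
  refine ⟨⟨x, hint⟩, rfl, fun φ => ?_⟩
  apply hW (φ.comp (algebraMap M K))
  change f.eval₂ ((φ.comp (algebraMap M K)).comp (algebraMap (𝓞 M) M)) (φ x) = 0
  rw [RingHom.comp_assoc, ← Polynomial.hom_eval₂, h1, map_zero]

end Rl

open Rl in
theorem finite_relations (M : Type) [Field M] [NumberField M] (d a : ℕ) :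
    ∃ Γ : Finset (ℕ × (Fin d → ℤ)), (∀ γ ∈ Γ, 0 < γ.1) ∧ ∀ (q : ℕ) (f g : (𝓞 M)[X]),
      (∃ p b : ℕ, p.Prime ∧ 0 < b ∧ b ≤ a ∧ q = p ^ b) →
      f.Monic → f.natDegree = 2 → g.Monic → g.natDegree = d → IsWeil q f → IsWeil q g →
      Dependent (f.map (algebraMap (𝓞 M) M)) (g.map (algebraMap (𝓞 M) M)) →
      ∃ γ ∈ Γ, Relation γ.1 γ.2 (f.map (algebraMap (𝓞 M) M)) (g.map (algebraMap (𝓞 M) M)) := by
  classical
  refine ⟨Gam d a (Module.finrank ℚ M * (d + 2) ^ (d + 1)), ?_, ?_⟩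
  · intro γ hγ
    unfold Gam at hγ
    rw [Set.Finite.mem_toFinset] at hγ
    obtain ⟨S, rfl⟩ := hγ
    exact Nat.mul_pos (sol_pos S) (Nat.factorial_pos _)
  rintro q f g ⟨p, b, hp, hb0, hb, rfl⟩ hf hf2 hg hgd hWf hWg ⟨x, n, hx, hn, hxn⟩
  set f' := f.map (algebraMap (𝓞 M) M) with hf'
  set g' := g.map (algebraMap (𝓞 M) M) with hg'
  have hfm : f'.Monic := hf.map _
  have hgm : g'.Monic := hg.map _
  have hfd : f'.natDegree = 2 := by rw [hf', hf.natDegree_map, hf2]
  have hgd' : g'.natDegree = d := by rw [hg', hg.natDegree_map, hgd]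
  obtain ⟨y, hy1, hy2⟩ := exists_roots (Ω := AlgebraicClosure M) hgm.ne_zero hgd'
  set T : Finset (AlgebraicClosure M) := insert x (Finset.univ.image y) with hT
  have hTc : T.card ≤ d + 1 := by
    refine (Finset.card_insert_le _ _).trans ?_
    have := (Finset.card_image_le (s := Finset.univ) (f := y))
    rw [Finset.card_univ, Fintype.card_fin] at this
    omega
  have hTr : ∀ z ∈ T, ∃ h : M[X], h.Monic ∧ h.natDegree ≤ d + 2 ∧ aeval z h = 0 := by
    intro z hz
    rw [hT, Finset.mem_insert, Finset.mem_image] at hz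
    rcases hz with rfl | ⟨j, -, rfl⟩
    · exact ⟨f', hfm, by omega, hx⟩
    · exact ⟨g', hgm, by omega, hy1 j⟩
  let K := IntermediateField.adjoin M (T : Set (AlgebraicClosure M))
  have hfin : FiniteDimensional M K := by
    refine IntermediateField.finiteDimensional_adjoin fun z hz => ?_
    obtain ⟨h, hm, -, h0⟩ := hTr z hz
    exact ⟨h, hm, h0⟩
  have hfinQ : FiniteDimensional ℚ K := FiniteDimensional.trans ℚ M K
  have hNK : NumberField K := { to_charZero := inferInstance, to_finiteDimensional := hfinQ }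
  have hD : Module.finrank ℚ K ≤ Module.finrank ℚ M * (d + 2) ^ (d + 1) := by
    rw [← Module.finrank_mul_finrank ℚ M K]
    refine Nat.mul_le_mul_left _ ((finrank_adjoin_le T hTr).trans ?_)
    exact Nat.pow_le_pow_right (by omega) hTc
  have hxT : x ∈ K := IntermediateField.subset_adjoin _ _ (by rw [hT]; simp)
  have hyT : ∀ j, y j ∈ K := fun j => IntermediateField.subset_adjoin _ _ (by rw [hT]; simp)
  have hroot : ∀ (h : M[X]) (z : K), aeval (z : AlgebraicClosure M) h = 0 → aeval z h = 0 := by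
    intro h z hz
    have h1 : aeval (algebraMap K (AlgebraicClosure M) z) h = 0 := hz
    rw [aeval_algebraMap_apply] at h1
    exact (map_eq_zero _).1 h1
  obtain ⟨X, hX, hXn⟩ := weil_root hf hWf (hroot f' ⟨x, hxT⟩ hx)
  have hYe : ∀ j, ∃ Y : 𝓞 K, algebraMap (𝓞 K) K Y = ⟨y j, hyT j⟩ ∧
      ∀ φ : K →+* ℂ, ‖φ (algebraMap (𝓞 K) K Y)‖ ^ 2 = ((p ^ b : ℕ) : ℝ) :=
    fun j => weil_root hg hWg (hroot g' ⟨y j, hyT j⟩ (hy1 j))
  choose Y hY hYn using hYe
  have hy0 : ∀ j, y j ≠ 0 := by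
    intro j h0
    obtain ⟨φ⟩ : Nonempty (K →+* ℂ) := inferInstance
    have h1 := hYn j φ
    have h2 : algebraMap (𝓞 K) K (Y j) = 0 := by
      rw [hY j]
      exact Subtype.ext h0
    rw [h2, map_zero, norm_zero] at h1
    have h3 : (0 : ℝ) < ((p ^ b : ℕ) : ℝ) := by exact_mod_cast pow_pos hp.pos b
    rw [← h1] at h3
    norm_num at h3
  obtain ⟨c, hc⟩ := exists_exps hy0 (A := {z | aeval z g' = 0 ∨ aeval z⁻¹ g' = 0})
    (fun z hz => hz.imp (hy2 z) (hy2 z⁻¹)) hxn
  have hval : ∀ (n : ℕ) (m : Fin d → ℤ), (algebraMap (𝓞 K) K X ^ n =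
      ∏ j, algebraMap (𝓞 K) K (Y j) ^ m j ↔ x ^ n = ∏ j, y j ^ m j) := by
    intro n m
    rw [← (algebraMap K (AlgebraicClosure M)).injective.eq_iff, map_pow, map_prod, hX]
    simp only [map_zpow₀, hY]
    rfl
  obtain ⟨γ, hγ, hγ1⟩ := core hp hb hD X Y hXn hYn hb0 hn c ((hval n c).2 hc)
  exact ⟨γ, hγ, x, y, hx, hy1, (hval γ.1 γ.2).1 hγ1⟩

end Pool.Agent.Helper55.AV
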