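import Pool.Agent.Helper55.AV.Prob
import Pool.Agent.Helper55.AV.Dens
import Pool.Agent.Helper55.AV.Rel
import Mathlib.Topology.Algebra.ClopenNhdofOne

/-!
# AllVarieties: equidistributed sequences
-/

set_option autoImplicit false

open NumberField Polynomial MeasureTheory Filter

namespace Pool.Agent.Helper55.AV

open Pool.Agent.Helper37.Fd Pool.Agent.Helper37.Ad Pool.Agent.Helper37.Ff Pool.Agent.Helper21.Pred

theorem cross_conj {K : Type*} [CommRing K] {κ : Type*} [Fintype κ] [DecidableEq κ]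
    (P : GL (Fin 2) K) (Q Q' : Matrix κ κ K) (hQ' : Q * Q' = 1)
    (A : Matrix (Fin 2) (Fin 2) K) (B : Matrix κ κ K) :
    cross ((P : Matrix (Fin 2) (Fin 2) K) * A * ((P⁻¹ : GL (Fin 2) K) : Matrix (Fin 2) (Fin 2) K))
      (Q * B * Q') = cross A B := by
  have hQ : Q' * Q = 1 := mul_eq_one_comm.1 hQ'
  rw [cross, cross, Matrix.trace_units_conj, Matrix.det_units_conj]
  have h1 : (Q * B * Q') ^ 2 - A.trace • (Q * B * Q') + A.det • (1 : Matrix κ κ K) =
      Q * (B ^ 2 - A.trace • B + A.det • (1 : Matrix κ κ K)) * Q' := by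
    rw [mul_add, mul_sub, add_mul, sub_mul, Matrix.mul_smul, Matrix.smul_mul, Matrix.mul_smul,
      Matrix.smul_mul, mul_one, hQ', sq, sq]
    congr 2
    calc Q * B * Q' * (Q * B * Q') = Q * B * (Q' * Q) * B * Q' := by simp only [mul_assoc]
      _ = Q * (B * B) * Q' := by
          rw [hQ, mul_one]
          simp only [mul_assoc]
  have h2 : Q.det * Q'.det = 1 := by rw [← Matrix.det_mul, hQ', Matrix.det_one]
  rw [h1, Matrix.det_mul, Matrix.det_mul, mul_right_comm, h2, one_mul]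

/-- eigenvectors of powers -/
theorem zpow_mulVec {K L : Type*} [Field K] [Field L] (ψ : K →+* L) {G : Type*} [Group G] {d : ℕ}
    (W : G →* GL (Fin d) K) (x : G) (y : L) (u : Fin d → L) (hu : u ≠ 0)
    (h : ((W x : Matrix (Fin d) (Fin d) K).map ψ).mulVec u = y • u) (k : ℤ) :
    ((W (x ^ k) : Matrix (Fin d) (Fin d) K).map ψ).mulVec u = y ^ k • u := by
  have hinv : ∀ z : G, ((W z⁻¹ : Matrix (Fin d) (Fin d) K).map ψ) *
      ((W z : Matrix (Fin d) (Fin d) K).map ψ) = 1 := by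
    intro z
    rw [← Matrix.map_mul, ← Units.val_mul, ← map_mul, inv_mul_cancel, map_one, Units.val_one,
      Matrix.map_one _ (map_zero _) (map_one _)]
  have hy : y ≠ 0 := by
    rintro rfl
    rw [zero_smul] at h
    have h1 : ((W x⁻¹ : Matrix (Fin d) (Fin d) K).map ψ).mulVec
        (((W x : Matrix (Fin d) (Fin d) K).map ψ).mulVec u) = u := by
      rw [Matrix.mulVec_mulVec, hinv, Matrix.one_mulVec]
    rw [h, Matrix.mulVec_zero] at h1
    exact hu h1.symm
  have hnat : ∀ n : ℕ, ((W (x ^ n) : Matrix (Fin d) (Fin d) K).map ψ).mulVec u = y ^ n • u := by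
    intro n
    have h1 : (W (x ^ n) : Matrix (Fin d) (Fin d) K).map ψ =
        ((W x : Matrix (Fin d) (Fin d) K).map ψ) ^ n := by
      rw [map_pow, Units.val_pow_eq_pow_val]
      exact map_pow ψ.mapMatrix _ n
    rw [h1]
    exact pow_mulVec _ y u h n
  rcases Int.eq_nat_or_neg k with ⟨n, rfl | rfl⟩
  · rw [zpow_natCast, zpow_natCast]
    exact hnat n
  · rw [zpow_neg, zpow_neg, zpow_natCast, zpow_natCast]
    have h1 : ((W (x ^ n)⁻¹ : Matrix (Fin d) (Fin d) K).map ψ).mulVec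
        (((W (x ^ n) : Matrix (Fin d) (Fin d) K).map ψ).mulVec u) = u := by
      rw [Matrix.mulVec_mulVec, hinv, Matrix.one_mulVec]
    rw [hnat, Matrix.mulVec_smul] at h1
    have h2 : y ^ n ≠ 0 := pow_ne_zero _ hy
    calc ((W (x ^ n)⁻¹ : Matrix (Fin d) (Fin d) K).map ψ).mulVec u
        = (y ^ n)⁻¹ • (y ^ n • ((W (x ^ n)⁻¹ : Matrix (Fin d) (Fin d) K).map ψ).mulVec u) := by
          rw [smul_smul, inv_mul_cancel₀ h2, one_smul]
      _ = (y ^ n)⁻¹ • u := by rw [h1]

section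

variable {M : Type} [Field M] [NumberField M] {Λ : Type} (ℓ : Λ → ℕ) [∀ v, Fact (ℓ v).Prime]
  {E : Λ → Type} [∀ v, NontriviallyNormedField (E v)] [∀ v, IsUltrametricDist (E v)]
  [∀ v, NormedAlgebra ℚ_[ℓ v] (E v)] (j : ∀ v, M →+* E v)
  {G : Type} [Group G] (V : ∀ v, G →* GL (Fin 2) (E v)) {d : ℕ}
  (T : ∀ (l : ℕ) [Fact l.Prime], G →* GL (Fin d) ℚ_[l])

omit [∀ v, IsUltrametricDist (E v)] in
theorem crossAt_conj (n : ℕ) {w : ℕ} (m : Fin w → ℤ) (v : Λ) (x y : G) :
    crossAt ℓ V T n m v (y * x * y⁻¹) = crossAt ℓ V T n m v x := by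
  have h1 : (V v (y * x * y⁻¹) : Matrix (Fin 2) (Fin 2) (E v)) ^ n =
      (V v y : Matrix (Fin 2) (Fin 2) (E v)) * (V v x : Matrix (Fin 2) (Fin 2) (E v)) ^ n *
        (((V v y)⁻¹ : GL (Fin 2) (E v)) : Matrix (Fin 2) (Fin 2) (E v)) := by
    rw [← Units.val_pow_eq_pow_val, ← Units.val_pow_eq_pow_val, ← map_pow, conj_pow, map_mul,
      map_mul, map_inv, Units.val_mul, Units.val_mul, map_pow]
  rw [crossAt, crossAt, h1, tens_conj, cross_conj]
  rw [tprod_mul, ← tprod_one]
  congr 1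
  funext j
  rw [← Units.val_mul, ← map_mul, mul_inv_cancel, map_one, Units.val_one]

omit [∀ v, IsUltrametricDist (E v)] in
/-- multiplicatively dependent eigenvalues in an extension -/
theorem crossAt_eq_zero {L : Type*} [Field L] (n : ℕ) {w : ℕ} (m : Fin w → ℤ) (v : Λ)
    (ψ : E v →+* L) (r : G) (x : L) (y : Fin w → L)
    (hx : ((V v r : Matrix (Fin 2) (Fin 2) (E v)).charpoly.map ψ).eval x = 0)
    (hy : ∀ j, ((baseChange (E v) (T (ℓ v)) r :
      Matrix (Fin d) (Fin d) (E v)).charpoly.map ψ).eval (y j) = 0)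
    (hxy : x ^ n = ∏ j, y j ^ m j) : crossAt ℓ V T n m v r = 0 := by
  apply ψ.injective
  rw [map_zero, crossAt, ← cross_map]
  have h2 : ((V v r : Matrix (Fin 2) (Fin 2) (E v)) ^ n).map ψ =
      ((V v r : Matrix (Fin 2) (Fin 2) (E v)).map ψ) ^ n := map_pow ψ.mapMatrix _ n
  rw [h2, tens_eq, tprod_map]
  rw [← Matrix.charpoly_map] at hx
  have hex : ∀ j, ∃ u : Fin d → L, u ≠ 0 ∧
      ((baseChange (E v) (T (ℓ v)) r : Matrix (Fin d) (Fin d) (E v)).map ψ).mulVec u =
        y j • u := by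
    intro j
    refine exists_eigen _ _ ?_
    rw [Matrix.charpoly_map]
    exact hy j
  choose u hu hu' using hex
  obtain ⟨z, hz, hz'⟩ := tprod_mulVec
    (fun j => (baseChange (E v) (T (ℓ v)) (r ^ m j) : Matrix (Fin d) (Fin d) (E v)).map ψ)
    (fun j => y j ^ m j) u hu
    (fun j => zpow_mulVec ψ (baseChange (E v) (T (ℓ v))) r (y j) (u j) (hu j) (hu' j) (m j))
  exact cross_pow_eq_zero _ _ x _ hx z hz hz' n hxy

omit [∀ v, IsUltrametricDist (E v)] in
/-- relations between the roots of the polynomials -/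
theorem crossAt_of_relation (n : ℕ) {w : ℕ} (m : Fin w → ℤ) (v : Λ) (r : G) (f g : (𝓞 M)[X])
    (hm : Matches ℓ E j V T (fun _ => f) (fun _ => g) v r)
    (h : Relation n m (f.map (algebraMap (𝓞 M) M)) (g.map (algebraMap (𝓞 M) M))) :
    crossAt ℓ V T n m v r = 0 := by
  obtain ⟨x, y, hx, hy, hxy⟩ := h
  let τ : M →+* AlgebraicClosure (E v) := (algebraMap (E v) (AlgebraicClosure (E v))).comp (j v)
  letI : Algebra M (AlgebraicClosure (E v)) := τ.toAlgebra
  let φ : AlgebraicClosure M →ₐ[M] AlgebraicClosure (E v) := IsAlgClosed.lift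
  have key : ∀ (p : (𝓞 M)[X]) (z : AlgebraicClosure M),
      aeval z (p.map (algebraMap (𝓞 M) M)) = 0 →
      ((p.map ((j v).comp (algebraMap (𝓞 M) M))).map
        (algebraMap (E v) (AlgebraicClosure (E v)))).eval (φ z) = 0 := by
    intro p z hz
    have h1 : aeval (φ z) (p.map (algebraMap (𝓞 M) M)) = 0 := by
      rw [aeval_algHom_apply, hz, map_zero]
    have h2 : (p.map ((j v).comp (algebraMap (𝓞 M) M))).map
        (algebraMap (E v) (AlgebraicClosure (E v))) =
        (p.map (algebraMap (𝓞 M) M)).map (algebraMap M (AlgebraicClosure (E v))) := by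
      rw [Polynomial.map_map, Polynomial.map_map]
      rfl
    rw [h2, Polynomial.eval_map]
    exact h1
  have h1 := key f x hx
  have h2 := fun i => key g (y i) (hy i)
  rw [← hm.1] at h1
  rw [← hm.2] at h2
  refine crossAt_eq_zero ℓ V T n m v (algebraMap (E v) (AlgebraicClosure (E v))) r (φ x)
    (fun i => φ (y i)) h1 h2 ?_
  rw [← map_pow, hxy, map_prod]
  exact Finset.prod_congr rfl fun i _ => map_zpow₀ φ _ _

omit [∀ v, IsUltrametricDist (E v)] in
/-- dependent characteristic polynomials at a place -/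
theorem exists_crossAt_of_dependent (v : Λ) (r : G)
    (h : Dependent (V v r : Matrix (Fin 2) (Fin 2) (E v)).charpoly
      (baseChange (E v) (T (ℓ v)) r : Matrix (Fin d) (Fin d) (E v)).charpoly) :
    ∃ (n w : ℕ) (m : Fin w → ℤ), 0 < n ∧ crossAt ℓ V T n m v r = 0 := by
  classical
  obtain ⟨x, n, hx, hn, hxn⟩ := h
  obtain ⟨l, hl, hlx⟩ := Submonoid.exists_list_of_mem_closure hxn
  have hev : ∀ (p : (E v)[X]) (z : AlgebraicClosure (E v)), aeval z p = 0 →
      (p.map (algebraMap (E v) (AlgebraicClosure (E v)))).eval z = 0 := by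
    intro p z hz
    rw [Polynomial.eval_map]
    exact hz
  obtain ⟨p, hp⟩ : ∃ p, p = (baseChange (E v) (T (ℓ v)) r :
    Matrix (Fin d) (Fin d) (E v)).charpoly := ⟨_, rfl⟩
  rw [← hp] at hl
  let m : Fin l.length → ℤ := fun i => if aeval (l.get i) p = 0 then 1 else -1
  let y : Fin l.length → AlgebraicClosure (E v) := fun i =>
    if aeval (l.get i) p = 0 then l.get i else (l.get i)⁻¹
  refine ⟨n, l.length, m, hn, ?_⟩
  refine crossAt_eq_zero ℓ V T n m v (algebraMap (E v) (AlgebraicClosure (E v))) r x y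
    (hev _ _ hx) (fun i => hev _ _ ?_) ?_
  · rw [← hp]
    show aeval (if aeval (l.get i) p = 0 then l.get i else (l.get i)⁻¹) p = 0
    split_ifs with h1
    · exact h1
    · exact (hl _ (List.get_mem l i)).resolve_left h1
  · rw [← hlx, ← List.prod_ofFn]
    congr 1
    apply List.ext_get
    · simp
    · intro i h1 h2
      simp only [List.get_eq_getElem, List.getElem_ofFn]
      show l[i] = (if aeval (l.get ⟨i, _⟩) p = 0 then l.get ⟨i, _⟩ else (l.get ⟨i, _⟩)⁻¹) ^
        (if aeval (l.get ⟨i, _⟩) p = 0 then (1 : ℤ) else -1)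
      split_ifs with h3
      · rw [zpow_one]
        rfl
      · rw [zpow_neg, zpow_one, inv_inv]
        rfl

omit [∀ v, IsUltrametricDist (E v)] in
private theorem charpoly_conjG {K : Type*} [Field K] {n : ℕ} {G : Type*} [Group G]
    (W : G →* GL (Fin n) K) (x y : G) :
    (W (y * x * y⁻¹) : Matrix (Fin n) (Fin n) K).charpoly =
      (W x : Matrix (Fin n) (Fin n) K).charpoly := by
  rw [map_mul, map_mul, map_inv, Units.val_mul, Units.val_mul, Matrix.coe_units_inv,
    Matrix.charpoly_units_conj]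

omit [∀ v, IsUltrametricDist (E v)] in
theorem matches_conj (f g : (𝓞 M)[X]) (v : Λ) (x y : G) :
    Matches ℓ E j V T (fun _ => f) (fun _ => g) v (y * x * y⁻¹) ↔
      Matches ℓ E j V T (fun _ => f) (fun _ => g) v x := by
  unfold Matches
  rw [charpoly_conjG (V v), charpoly_conjG (baseChange (E v) (T (ℓ v)))]

variable [TopologicalSpace G] [IsTopologicalGroup G]

theorem isClopen_of_mul_mem (N : Subgroup G) (hN : IsOpen (N : Set G)) (C : Set G)
    (h : ∀ z ∈ C, ∀ n ∈ N, z * n ∈ C) : IsClopen C := by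
  have hopen : ∀ D : Set G, (∀ z ∈ D, ∀ n ∈ N, z * n ∈ D) → IsOpen D := by
    intro D hD
    rw [isOpen_iff_mem_nhds]
    intro z hz
    have h1 : (fun y => z⁻¹ * y) ⁻¹' (N : Set G) ∈ nhds z := by
      refine (hN.preimage (continuous_const_mul z⁻¹)).mem_nhds ?_
      show z⁻¹ * z ∈ N
      rw [inv_mul_cancel]
      exact N.one_mem
    refine Filter.mem_of_superset h1 fun y hy => ?_
    have h2 := hD z hz (z⁻¹ * y) hy
    rwa [mul_inv_cancel_left] at h2
  refine ⟨⟨hopen Cᶜ fun z hz n hn hzn => hz ?_⟩, hopen C h⟩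
  have h3 := h _ hzn n⁻¹ (N.inv_mem hn)
  rwa [mul_inv_cancel_right] at h3

variable [CompactSpace G] [TotallyDisconnectedSpace G]
  [MeasurableSpace G] [BorelSpace G] (μ : Measure G) [μ.IsHaarMeasure]

theorem ratio_pos {C : Set G} (hC : IsOpen C) (hne : C.Nonempty) :
    0 < (μ C / μ Set.univ).toReal := by
  have h1 := hC.measure_pos μ hne
  refine ENNReal.toReal_pos ?_ ?_
  · exact (ENNReal.div_pos h1.ne' (measure_ne_top _ _)).ne'
  · refine ENNReal.div_ne_top (measure_ne_top _ _) ?_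
    exact (isOpen_univ.measure_pos μ ⟨1, trivial⟩).ne'

/-- elements of the sequence in an open subgroup and in a set of density one -/
theorem exists_density_subgroup {r : ℕ → G} (hr : Equidistributed μ r) (U : Subgroup G)
    (hU : IsOpen (U : Set G)) : ∃ (C : Set ℕ) (δ : ℝ), C ⊆ {k | r k ∈ U} ∧ HasDensity C δ ∧ 0 < δ := by
  obtain ⟨N, hN⟩ := ProfiniteGrp.exist_openNormalSubgroup_sub_open_nhds_of_one hU U.one_mem
  have hNo : IsOpen (N.toSubgroup : Set G) := N.isOpen'
  refine ⟨{k | r k ∈ (N.toSubgroup : Set G)}, _, fun k hk => hN hk,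
    hr (N.toSubgroup : Set G) ?_ ?_, ratio_pos μ hNo ⟨1, N.toSubgroup.one_mem⟩⟩
  · exact isClopen_of_mul_mem N.toSubgroup hNo _ fun z hz n hn => N.toSubgroup.mul_mem hz hn
  · intro x hx y
    exact N.isNormal'.conj_mem x hx y

/-- the set of `k` with a given relation has density zero, if the relation has measure zero -/
theorem density_relation (hV : ∀ v, Continuous (V v)) (hT : ∀ (l : ℕ) [Fact l.Prime], Continuous (T l))
    {r : ℕ → G} (hr : Equidistributed μ r) (f g : ℕ → (𝓞 M)[X]) (v : Λ)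
    (hm : ∀ᶠ k in atTop, Matches ℓ E j V T (fun _ => f k) (fun _ => g k) v (r k)) (n : ℕ)
    {w : ℕ} (m : Fin w → ℤ) (h0 : μ {x | crossAt ℓ V T n m v x = 0} = 0) :
    HasDensity {k | Relation n m ((f k).map (algebraMap (𝓞 M) M))
      ((g k).map (algebraMap (𝓞 M) M))} 0 := by
  have hc := continuous_crossAt ℓ V T hV hT n m v
  let C : ℕ → Set G := fun i => {x | ‖crossAt ℓ V T n m v x‖ < 1 / ((i : ℝ) + 1)}
  have hCcl : ∀ i, IsClopen (C i) := by
    intro i
    have h1 : C i = crossAt ℓ V T n m v ⁻¹' (Metric.ball 0 (1 / ((i : ℝ) + 1))) := by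
      ext x
      simp [C]
    rw [h1]
    exact (IsUltrametricDist.isClopen_ball _ _).preimage hc
  have hanti : Antitone C := by
    intro i i' hii x hx
    have h1 : (1 : ℝ) / ((i' : ℝ) + 1) ≤ 1 / ((i : ℝ) + 1) := by
      have : (i : ℝ) ≤ i' := by exact_mod_cast hii
      exact one_div_le_one_div_of_le (by positivity) (by linarith)
    exact lt_of_lt_of_le hx h1
  have hinter : (⋂ i, C i) = {x | crossAt ℓ V T n m v x = 0} := by
    ext x
    rw [Set.mem_iInter]
    constructor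
    · intro hx
      by_contra hne
      have h1 : 0 < ‖crossAt ℓ V T n m v x‖ := norm_pos_iff.2 hne
      obtain ⟨i, hi⟩ := exists_nat_one_div_lt h1
      exact absurd (hx i) (not_lt.2 hi.le)
    · intro hx i
      have h1 : crossAt ℓ V T n m v x = 0 := hx
      show ‖crossAt ℓ V T n m v x‖ < _
      rw [h1, norm_zero]
      positivity
  have hlim : Tendsto (fun i => μ (C i)) atTop (nhds 0) := by
    have h1 := tendsto_measure_iInter_atTop (μ := μ) (s := C)
      (fun i => (hCcl i).isOpen.measurableSet.nullMeasurableSet) hanti ⟨0, measure_ne_top _ _⟩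
    rwa [hinter, h0] at h1
  have huniv : μ (Set.univ : Set G) ≠ 0 := (isOpen_univ.measure_pos μ ⟨1, trivial⟩).ne'
  have hlim2 : Tendsto (fun i => (μ (C i) / μ Set.univ).toReal) atTop (nhds 0) := by
    have h1 : Tendsto (fun i => μ (C i) / μ Set.univ) atTop (nhds (0 / μ Set.univ)) :=
      ENNReal.Tendsto.div_const hlim (Or.inr huniv)
    rw [ENNReal.zero_div] at h1
    exact (ENNReal.tendsto_toReal (a := 0) (by simp)).comp h1
  refine density_zero_of_small fun ε hε => ?_
  obtain ⟨i, hi⟩ := (hlim2.eventually_lt_const hε).exists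
  refine ⟨{k | r k ∈ C i}, _, hr (C i) (hCcl i) ?_, hi, ?_⟩
  · intro x hx y
    show ‖crossAt ℓ V T n m v (y * x * y⁻¹)‖ < _
    rw [crossAt_conj]
    exact hx
  · have h1 : {k | ¬ Matches ℓ E j V T (fun _ => f k) (fun _ => g k) v (r k)}.Finite := by
      rw [← Nat.cofinite_eq_atTop] at hm
      exact hm
    refine h1.subset ?_
    rintro k ⟨hk, hk'⟩ hmk
    apply hk'
    show ‖crossAt ℓ V T n m v (r k)‖ < _
    rw [crossAt_of_relation ℓ j V T n m v (r k) (f k) (g k) hmk hk, norm_zero]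
    positivity

theorem almost_matching [Infinite Λ] {r : ℕ → G} (hr : Equidistributed μ r)
    (f g : ℕ → (𝓞 M)[X])
    (hm : ∀ v, ∀ᶠ k in atTop, Matches ℓ E j V T (fun _ => f k) (fun _ => g k) v (r k))
    (hm' : ∀ᶠ k in atTop,
      {v | ¬ Matches ℓ E j V T (fun _ => f k) (fun _ => g k) v (r k)}.Finite) :
    ∃ f' g' : G → (𝓞 M)[X], AlmostMatching ℓ j V T f' g' := by
  classical
  obtain ⟨k₀, hk₀⟩ := eventually_atTop.1 hm'
  let good : G → ℕ → Prop := fun x k => k₀ ≤ k ∧ ∃ y, x = y * r k * y⁻¹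
  let f' : G → (𝓞 M)[X] := fun x => if h : ∃ k, good x k then f h.choose else 0
  let g' : G → (𝓞 M)[X] := fun x => if h : ∃ k, good x k then g h.choose else 0
  have hgood : ∀ x k, good x k → f' x = f k ∧ g' x = g k := by
    intro x k hk
    have hex : ∃ k, good x k := ⟨k, hk⟩
    obtain ⟨k', hk', hf', hg'⟩ : ∃ k', good x k' ∧ f' x = f k' ∧ g' x = g k' := by
      refine ⟨hex.choose, hex.choose_spec, ?_, ?_⟩
      · show (if h : ∃ k, good x k then f h.choose else 0) = _
        rw [dif_pos hex]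
      · show (if h : ∃ k, good x k then g h.choose else 0) = _
        rw [dif_pos hex]
    rw [hf', hg']
    obtain ⟨v, hv⟩ := ((hk₀ k hk.1).union (hk₀ k' hk'.1)).exists_notMem
    rw [Set.mem_union, not_or, Set.mem_ofPred_eq, Set.mem_ofPred_eq, not_not, not_not] at hv
    obtain ⟨y, hy⟩ := hk.2
    obtain ⟨y', hy'⟩ := hk'.2
    have h1 := (matches_conj ℓ j V T (f k) (g k) v (r k) y).2 hv.1
    have h2 := (matches_conj ℓ j V T (f k') (g k') v (r k') y').2 hv.2
    rw [← hy] at h1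
    rw [← hy'] at h2
    have hinj : Function.Injective ((j v).comp (algebraMap (𝓞 M) M)) :=
      (j v).injective.comp RingOfIntegers.coe_injective
    exact ⟨Polynomial.map_injective _ hinj (h2.1.symm.trans h1.1),
      Polynomial.map_injective _ hinj (h2.2.symm.trans h1.2)⟩
  have hmatch : ∀ x k v, good x k → (Matches ℓ E j V T f' g' v x ↔
      Matches ℓ E j V T (fun _ => f k) (fun _ => g k) v (r k)) := by
    intro x k v hk
    obtain ⟨h1, h2⟩ := hgood x k hk
    obtain ⟨y, hy⟩ := hk.2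
    rw [← matches_conj ℓ j V T (f k) (g k) v (r k) y, ← hy]
    unfold Matches
    rw [h1, h2]
  refine ⟨f', g', fun Φ => ?_⟩
  rw [dense_iff_inter_open]
  rintro O hO ⟨x, hx⟩
  have hW : IsOpen ((fun y => x * y) ⁻¹' O) := hO.preimage (continuous_const_mul x)
  obtain ⟨N, hN⟩ := ProfiniteGrp.exist_openNormalSubgroup_sub_open_nhds_of_one hW (by
    show x * 1 ∈ O
    rwa [mul_one])
  have hNo : IsOpen (N.toSubgroup : Set G) := N.isOpen'
  let C : Set G := {z | ∃ y : G, x⁻¹ * (y⁻¹ * z * y) ∈ N.toSubgroup}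
  have hC : IsClopen C := by
    refine isClopen_of_mul_mem N.toSubgroup hNo C ?_
    rintro z ⟨y, hy⟩ n hn
    refine ⟨y, ?_⟩
    have h1 : x⁻¹ * (y⁻¹ * (z * n) * y) = (x⁻¹ * (y⁻¹ * z * y)) * (y⁻¹ * n * y⁻¹⁻¹) := by
      group
    rw [h1]
    exact N.toSubgroup.mul_mem hy (N.isNormal'.conj_mem n hn y⁻¹)
  have hCconj : ∀ z ∈ C, ∀ w : G, w * z * w⁻¹ ∈ C := by
    rintro z ⟨y, hy⟩ w
    refine ⟨w * y, ?_⟩
    have h1 : x⁻¹ * ((w * y)⁻¹ * (w * z * w⁻¹) * (w * y)) = x⁻¹ * (y⁻¹ * z * y) := by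
      group
    rw [h1]
    exact hy
  have hCne : C.Nonempty := ⟨x, 1, by
    rw [inv_one, one_mul, mul_one, inv_mul_cancel]
    exact N.toSubgroup.one_mem⟩
  have hinf := infinite_of_pos (hr C hC hCconj) (ratio_pos μ hC.isOpen hCne)
  have hev : ∀ᶠ k in atTop, (∀ v ∈ Φ,
      Matches ℓ E j V T (fun _ => f k) (fun _ => g k) v (r k)) ∧ k₀ ≤ k :=
    ((Filter.eventually_all_finset Φ).2 fun v _ => hm v).and (eventually_ge_atTop k₀)
  obtain ⟨k, hk, hk1, hk2⟩ := ((Nat.frequently_atTop_iff_infinite.2 hinf).and_eventually hev).exists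
  obtain ⟨y, hy⟩ := hk
  have hg : good (y⁻¹ * r k * y) k := ⟨hk2, y⁻¹, by rw [inv_inv]⟩
  refine ⟨y⁻¹ * r k * y, ?_, fun v hv => (hmatch _ k v hg).2 (hk1 v hv), ?_⟩
  · have h1 := hN hy
    have h2 : x * (x⁻¹ * (y⁻¹ * r k * y)) ∈ O := h1
    rwa [mul_inv_cancel_left] at h2
  · refine (hk₀ k hk2).subset ?_
    intro v hv hv'
    exact hv ((hmatch _ k v hg).2 hv')

end

end Pool.Agent.Helper55.AV
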