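import Pool.Agent.Helper55.AV.Dvd
import Pool.Agent.Helper55.AV.Seq

/-!
# AllVarieties: potential containment and almost all primes

If `V v` is potentially contained in `T (ℓ v)` for one `v`, then for almost all `k` the `n`-th powers of
the roots of `f k` are `n`-th powers of roots of `g k`, for some `n > 0` which does not depend on `k`.
-/

set_option autoImplicit false

open NumberField Polynomial

namespace Pool.Agent.Helper55.AV

open Pool.Agent.Helper37.Af Pool.Agent.Helper37.Fd Pool.Agent.Helper37.Ad Pool.Agent.Helper37.Ub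

/-- the eigenvalues of a power are powers of eigenvalues -/
theorem exists_root_pow {L : Type*} [Field L] [IsAlgClosed L] {d : ℕ}
    (B : Matrix (Fin d) (Fin d) L) {n : ℕ} (hn : 0 < n) (z : L)
    (hz : (B ^ n).charpoly.eval z = 0) : ∃ y, B.charpoly.eval y = 0 ∧ y ^ n = z := by
  classical
  obtain ⟨w, hw, hw'⟩ := exists_eigen _ z hz
  obtain ⟨y₀, hy₀⟩ : ∃ y₀ : L, y₀ ^ n = z := IsAlgClosed.exists_pow_nat_eq z hn
  have h1 : (X ^ n - C z : L[X]).Splits := IsAlgClosed.splits _
  -- the product of the `B - y` over the roots is zero on `w`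
  have h2 : (X ^ n - C z : L[X]) = ((X ^ n - C z : L[X]).roots.map fun a => X - C a).prod :=
    h1.eq_prod_roots_of_monic (monic_X_pow_sub_C z hn.ne')
  have h3 : (aeval B (X ^ n - C z : L[X])).mulVec w = 0 := by
    rw [map_sub, map_pow, aeval_X, aeval_C, Matrix.sub_mulVec, hw',
      Algebra.algebraMap_eq_smul_one, Matrix.smul_mulVec, Matrix.one_mulVec, sub_self]
  have key : ∀ s : Multiset L, ∀ u : Fin d → L, u ≠ 0 →
      (aeval B (s.map fun a => X - C a).prod).mulVec u = 0 →
      ∃ a ∈ s, B.charpoly.eval a = 0 := by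
    intro s
    induction s using Multiset.induction_on with
    | empty =>
      intro u hu h
      rw [Multiset.map_zero, Multiset.prod_zero, map_one, Matrix.one_mulVec] at h
      exact absurd h hu
    | cons a s ih =>
      intro u hu h
      rw [Multiset.map_cons, Multiset.prod_cons, map_mul, ← Matrix.mulVec_mulVec] at h
      by_cases h0 : (aeval B (s.map fun a => X - C a).prod).mulVec u = 0
      · obtain ⟨b, hb, hb'⟩ := ih u hu h0
        exact ⟨b, Multiset.mem_cons_of_mem hb, hb'⟩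
      · refine ⟨a, Multiset.mem_cons_self a s, ?_⟩
        rw [Matrix.eval_charpoly, Matrix.scalar_apply, ← Matrix.smul_one_eq_diagonal]
        refine Matrix.exists_mulVec_eq_zero_iff.mp ⟨_, h0, ?_⟩
        rw [map_sub, aeval_X, aeval_C, Algebra.algebraMap_eq_smul_one] at h
        rw [Matrix.sub_mulVec] at h ⊢
        rw [← neg_sub, h, neg_zero]
  rw [h2] at h3
  obtain ⟨a, ha, ha'⟩ := key _ w hw h3
  refine ⟨a, ha', ?_⟩
  have h4 := (mem_roots'.1 ha).2
  rw [IsRoot, eval_sub, eval_pow, eval_X, eval_C, sub_eq_zero] at h4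
  exact h4

/-- a power of the elements lies in an open subgroup -/
theorem exists_pow_mem {G : Type*} [Group G] [TopologicalSpace G] [IsTopologicalGroup G]
    [CompactSpace G] [TotallyDisconnectedSpace G] (U : Subgroup G) (hU : IsOpen (U : Set G)) :
    ∃ n, 0 < n ∧ ∀ x : G, x ^ n ∈ U := by
  obtain ⟨N, hN⟩ := ProfiniteGrp.exist_openNormalSubgroup_sub_open_nhds_of_one hU U.one_mem
  have hfin : Finite (G ⧸ N.toSubgroup) := N.toSubgroup.quotient_finite_of_isOpen N.isOpen'
  have hnorm : N.toSubgroup.Normal := N.isNormal'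
  refine ⟨N.toSubgroup.index, ?_, fun x => hN (N.toSubgroup.pow_index_mem x)⟩
  exact Nat.pos_of_ne_zero (Subgroup.index_ne_zero_of_finite)

section

variable {M : Type} [Field M] [NumberField M] {Λ : Type} (ℓ : Λ → ℕ) [∀ v, Fact (ℓ v).Prime]
  {E : Λ → Type} [∀ v, NontriviallyNormedField (E v)] [∀ v, NormedAlgebra ℚ_[ℓ v] (E v)]
  (j : ∀ v, M →+* E v)
  {F : Λ → Type} [∀ v, NontriviallyNormedField (F v)] [∀ v, NormedAlgebra ℚ_[ℓ v] (F v)]
  (φ : ∀ v, E v →ₐ[ℚ_[ℓ v]] F v)
  {G : Type} [Group G] [TopologicalSpace G] (V : ∀ v, G →* GL (Fin 2) (E v)) {d : ℕ}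
  (T : ∀ (l : ℕ) [Fact l.Prime], G →* GL (Fin d) ℚ_[l])

theorem powers_of_dvd (v : Λ) (r : G) {n : ℕ} (hn : 0 < n)
    (hdvd : (V v (r ^ n) : Matrix (Fin 2) (Fin 2) (E v)).charpoly ∣
      (baseChange (E v) (T (ℓ v)) (r ^ n) : Matrix (Fin d) (Fin d) (E v)).charpoly)
    (f g : (𝓞 M)[X]) (hm : Matches ℓ E j V T (fun _ => f) (fun _ => g) v r)
    (x : AlgebraicClosure M) (hx : aeval x (f.map (algebraMap (𝓞 M) M)) = 0) :
    ∃ y : AlgebraicClosure M, aeval y (g.map (algebraMap (𝓞 M) M)) = 0 ∧ x ^ n = y ^ n := by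
  classical
  let τ : M →+* AlgebraicClosure (E v) := (algebraMap (E v) (AlgebraicClosure (E v))).comp (j v)
  letI : Algebra M (AlgebraicClosure (E v)) := τ.toAlgebra
  let ψ : AlgebraicClosure M →ₐ[M] AlgebraicClosure (E v) := IsAlgClosed.lift
  let κ : E v →+* AlgebraicClosure (E v) := algebraMap (E v) (AlgebraicClosure (E v))
  have hmap : ∀ p : (𝓞 M)[X], (p.map ((j v).comp (algebraMap (𝓞 M) M))).map κ =
      ((p.map (algebraMap (𝓞 M) M)).map (algebraMap M (AlgebraicClosure M))).map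
        (ψ : AlgebraicClosure M →+* AlgebraicClosure (E v)) := by
    intro p
    have h1 : (ψ : AlgebraicClosure M →+* AlgebraicClosure (E v)).comp
        (algebraMap M (AlgebraicClosure M)) = τ := by
      ext z
      exact ψ.commutes z
    rw [Polynomial.map_map, Polynomial.map_map (f := algebraMap M (AlgebraicClosure M)), h1,
      Polynomial.map_map]
    rfl
  have hpow : ∀ {m : ℕ} (W : G →* GL (Fin m) (E v)),
      (W (r ^ n) : Matrix (Fin m) (Fin m) (E v)).map κ =
        ((W r : Matrix (Fin m) (Fin m) (E v)).map κ) ^ n := by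
    intro m W
    rw [map_pow, Units.val_pow_eq_pow_val]
    exact map_pow κ.mapMatrix _ n
  -- `ψ x` is an eigenvalue
  have h1 : ((V v r : Matrix (Fin 2) (Fin 2) (E v)).map κ).charpoly.eval (ψ x) = 0 := by
    have h2 : ((f.map (algebraMap (𝓞 M) M)).map (algebraMap M (AlgebraicClosure M))).eval x = 0 := by
      rw [Polynomial.eval_map]
      exact hx
    have h3 := Polynomial.eval_map_apply (p := (f.map (algebraMap (𝓞 M) M)).map
      (algebraMap M (AlgebraicClosure M))) (ψ : AlgebraicClosure M →+* AlgebraicClosure (E v)) x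
    rw [h2, map_zero] at h3
    rw [Matrix.charpoly_map, hm.1, hmap]
    exact h3
  obtain ⟨u, hu, hu'⟩ := exists_eigen _ _ h1
  have h2 := pow_mulVec _ _ _ hu' n
  have h3 : (((V v r : Matrix (Fin 2) (Fin 2) (E v)).map κ) ^ n).charpoly.eval (ψ x ^ n) = 0 := by
    rw [Matrix.eval_charpoly, Matrix.scalar_apply, ← Matrix.smul_one_eq_diagonal]
    refine Matrix.exists_mulVec_eq_zero_iff.mp ⟨u, hu, ?_⟩
    rw [Matrix.sub_mulVec, Matrix.smul_mulVec, Matrix.one_mulVec, h2, sub_self]
  have h4 : (((baseChange (E v) (T (ℓ v)) r : Matrix (Fin d) (Fin d) (E v)).map κ) ^ n).charpoly.eval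
      (ψ x ^ n) = 0 := by
    obtain ⟨p, hp⟩ := Polynomial.map_dvd κ hdvd
    rw [← Matrix.charpoly_map, ← Matrix.charpoly_map, hpow, hpow] at hp
    rw [hp, Polynomial.eval_mul, h3, zero_mul]
  obtain ⟨y', hy', hy''⟩ := exists_root_pow _ hn _ h4
  rw [Matrix.charpoly_map, hm.2, hmap] at hy'
  -- `y'` comes from the algebraic closure of `M`
  obtain ⟨P, hP⟩ : ∃ P, P = (g.map (algebraMap (𝓞 M) M)).map (algebraMap M (AlgebraicClosure M)) :=
    ⟨_, rfl⟩
  rw [← hP] at hy'
  have hP0 : P ≠ 0 := by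
    rintro rfl
    have h5 : (baseChange (E v) (T (ℓ v)) r : Matrix (Fin d) (Fin d) (E v)).charpoly.map κ = 0 := by
      rw [hm.2, hmap, ← hP, Polynomial.map_zero]
    exact ((Matrix.charpoly_monic _).map κ).ne_zero h5
  have hroots := Polynomial.Splits.roots_map (IsAlgClosed.splits P)
    (ψ : AlgebraicClosure M →+* AlgebraicClosure (E v))
  have hmem : y' ∈ (P.map (ψ : AlgebraicClosure M →+* AlgebraicClosure (E v))).roots := by
    rw [Polynomial.mem_roots (Polynomial.map_ne_zero hP0)]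
    exact hy'
  rw [hroots, Multiset.mem_map] at hmem
  obtain ⟨y, hy, rfl⟩ := hmem
  refine ⟨y, ?_, ?_⟩
  · have h6 := (Polynomial.mem_roots'.1 hy).2
    rw [IsRoot, hP, Polynomial.eval_map] at h6
    exact h6
  · apply (ψ : AlgebraicClosure M →+* AlgebraicClosure (E v)).injective
    rw [map_pow, map_pow]
    exact hy''.symm

end

end Pool.Agent.Helper55.AV
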