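import Pool.Agent.Helper55.AV.Cross
import Pool.Agent.Helper21.Pred.Few

/-!
# AllVarieties: the measure of the elements with a common eigenvalue
-/

set_option autoImplicit false

open Polynomial MeasureTheory

namespace Pool.Agent.Helper55.AV

open Pool.Agent.Helper37.Fd Pool.Agent.Helper37.Ad Pool.Agent.Helper21.Pred

theorem hit_iff {k : Type*} [Field k] {κ : Type*} [Fintype κ] [DecidableEq κ]
    (A : Matrix (Fin 2) (Fin 2) k) (B B' : Matrix κ κ k) (h : B * B' = 1) (n : ℕ) (s t : k) :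
    cross ((um s t * A) ^ n) B = 0 ↔
      (qpoly B B' A.det n).eval (um s t * A).trace = 0 := by
  have h1 : B.det ≠ 0 := by
    intro h0
    have h2 := congrArg Matrix.det h
    rw [Matrix.det_mul, h0, zero_mul, Matrix.det_one] at h2
    exact zero_ne_one h2
  rw [cross_pow_eq _ B B' h, Matrix.det_mul, um_det, one_mul]
  have h3 : (-1 : k) ^ Fintype.card κ * B.det ≠ 0 :=
    mul_ne_zero (pow_ne_zero _ (neg_ne_zero.2 one_ne_zero)) h1
  exact mul_eq_zero_iff_left h3

section avg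

variable {G : Type*} [Group G] [TopologicalSpace G] [IsTopologicalGroup G] [MeasurableSpace G]
  [BorelSpace G] (μ : Measure G) [μ.IsHaarMeasure]

open Classical in
theorem avg {π : Type*} (P : Finset π) (h : π → G) (Z : Set G) (hZ : MeasurableSet Z) (B : ℕ)
    (hB : ∀ r, (P.filter fun p => h p * r ∈ Z).card ≤ B) :
    (P.card : ENNReal) * μ Z ≤ B * μ Set.univ := by
  have hm : Measurable (Z.indicator (1 : G → ENNReal)) := measurable_one.indicator hZ
  calc (P.card : ENNReal) * μ Z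
      = ∑ p ∈ P, ∫⁻ r, Z.indicator (1 : G → ENNReal) (h p * r) ∂μ := by
        rw [← nsmul_eq_mul, ← Finset.sum_const]
        refine Finset.sum_congr rfl fun p _ => ?_
        rw [lintegral_mul_left_eq_self (Z.indicator (1 : G → ENNReal)) (h p),
          lintegral_indicator_one hZ]
    _ = ∫⁻ r, ∑ p ∈ P, Z.indicator (1 : G → ENNReal) (h p * r) ∂μ := by
        rw [lintegral_finsetSum]
        intro p _
        exact hm.comp (measurable_const_mul (h p))
    _ ≤ ∫⁻ _, (B : ENNReal) ∂μ := by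
        refine lintegral_mono fun r => ?_
        show ∑ p ∈ P, Z.indicator (1 : G → ENNReal) (h p * r) ≤ (B : ENNReal)
        have h1 : ∑ p ∈ P, Z.indicator (1 : G → ENNReal) (h p * r) =
            ((P.filter fun p => h p * r ∈ Z).card : ENNReal) := by
          rw [Finset.card_filter, Nat.cast_sum]
          refine Finset.sum_congr rfl fun p _ => ?_
          by_cases hp : h p * r ∈ Z
          · simp [hp]
          · simp [hp]
        rw [h1]
        exact_mod_cast hB r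
    _ = B * μ Set.univ := lintegral_const _

open Classical in
theorem avg_sq {σ : Type*} (S : Finset σ) (h : σ × σ → G) (Z : Set G) (hZ : MeasurableSet Z)
    (N : ℕ) (hB : ∀ r, ((S ×ˢ S).filter fun p => h p * r ∈ Z).card ≤ S.card * (N + 1)) :
    (S.card : ENNReal) * μ Z ≤ ((N + 1 : ℕ) : ENNReal) * μ Set.univ := by
  by_cases h0 : S.card = 0
  · rw [h0, Nat.cast_zero, zero_mul]
    exact zero_le
  · have h1 := avg μ (S ×ˢ S) h Z hZ _ hB
    rw [Finset.card_product, Nat.cast_mul, Nat.cast_mul, mul_assoc, mul_assoc] at h1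
    exact (ENNReal.mul_le_mul_iff_right (by exact_mod_cast h0) (ENNReal.natCast_ne_top _)).1 h1

end avg

section

variable {Λ : Type} (ℓ : Λ → ℕ) [∀ v, Fact (ℓ v).Prime]
  {E : Λ → Type} [∀ v, NontriviallyNormedField (E v)] [∀ v, IsUltrametricDist (E v)]
  [∀ v, NormedAlgebra ℚ_[ℓ v] (E v)]
  {G : Type} [Group G] (V : ∀ v, G →* GL (Fin 2) (E v)) {d : ℕ}
  (T : ∀ (l : ℕ) [Fact l.Prime], G →* GL (Fin d) ℚ_[l])

omit [∀ v, NormedAlgebra ℚ_[ℓ v] (E v)] in
theorem exists_um (H : Subgroup G) (v : Λ) {ε : ℝ} (hfull : Full V H v ε) (s t : E v)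
    (hs : ‖s‖ ≤ 1) (ht : ‖t‖ ≤ 1) (hs' : ‖s‖ < ε) (ht' : ‖t‖ < ε) :
    ∃ h ∈ H, (V v h : Matrix (Fin 2) (Fin 2) (E v)) = um s t := by
  have hts : ‖t * s‖ ≤ ‖t‖ := by
    rw [norm_mul]
    exact mul_le_of_le_one_right (norm_nonneg _) hs
  have h1 : ‖1 + t * s‖ ≤ 1 :=
    (IsUltrametricDist.norm_add_le_max _ _).trans (max_le (by rw [norm_one]) (hts.trans ht))
  obtain ⟨g, hg, hg1, -⟩ := hfull ⟨um s t, um_det _ _⟩ (by
    intro i j
    fin_cases i <;> fin_cases j
    · exact h1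
    · exact ht
    · exact hs
    · show ‖(1 : E v)‖ ≤ 1
      rw [norm_one]) (by
    intro i j
    fin_cases i <;> fin_cases j
    · show ‖1 + t * s - (1 : Matrix (Fin 2) (Fin 2) (E v)) 0 0‖ < ε
      rw [Matrix.one_apply_eq, add_sub_cancel_left]
      exact hts.trans_lt ht'
    · show ‖t - (1 : Matrix (Fin 2) (Fin 2) (E v)) 0 1‖ < ε
      rw [Matrix.one_apply_ne (by decide), sub_zero]
      exact ht'
    · show ‖s - (1 : Matrix (Fin 2) (Fin 2) (E v)) 1 0‖ < ε
      rw [Matrix.one_apply_ne (by decide), sub_zero]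
      exact hs'
    · show ‖1 - (1 : Matrix (Fin 2) (Fin 2) (E v)) 1 1‖ < ε
      rw [Matrix.one_apply_eq, sub_self, norm_zero]
      exact (norm_nonneg _).trans_lt ht')
  exact ⟨g, hg, hg1⟩

omit [∀ v, IsUltrametricDist (E v)] in
theorem crossAt_mul (n : ℕ) {w : ℕ} (m : Fin w → ℤ) (v : Λ) (h r : G) (hT : T (ℓ v) h = 1)
    (s t : E v) (hV : (V v h : Matrix (Fin 2) (Fin 2) (E v)) = um s t) :
    crossAt ℓ V T n m v (h * r) =
      cross ((um s t * (V v r : Matrix (Fin 2) (Fin 2) (E v))) ^ n)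
        (tens (baseChange (E v) (T (ℓ v))) m r) := by
  have h1 : baseChange (E v) (T (ℓ v)) h = 1 := by
    unfold baseChange
    rw [MonoidHom.comp_apply, hT, map_one]
  rw [crossAt, tens_mul_of_eq_one _ _ _ _ h1, map_mul, Units.val_mul, hV]

omit [∀ v, IsUltrametricDist (E v)] in
theorem continuous_crossAt [TopologicalSpace G] [IsTopologicalGroup G] (hV : ∀ v, Continuous (V v))
    (hT : ∀ (l : ℕ) [Fact l.Prime], Continuous (T l)) (n : ℕ) {w : ℕ} (m : Fin w → ℤ) (v : Λ) :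
    Continuous (crossAt ℓ V T n m v) := by
  have hTc : Continuous fun r =>
      (baseChange (E v) (T (ℓ v)) r : Matrix (Fin d) (Fin d) (E v)) := by
    have h1 : Continuous fun g => (T (ℓ v) g : Matrix (Fin d) (Fin d) ℚ_[ℓ v]) :=
      Units.continuous_val.comp (hT (ℓ v))
    refine continuous_matrix fun a b => ?_
    exact (continuous_algebraMap ℚ_[ℓ v] (E v)).comp ((continuous_apply_apply a b).comp h1)
  have hVc : Continuous fun r => (V v r : Matrix (Fin 2) (Fin 2) (E v)) :=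
    Units.continuous_val.comp (hV v)
  have hVn := hVc.pow n
  have hTn : Continuous fun r => tens (baseChange (E v) (T (ℓ v))) m r := by
    refine continuous_matrix fun a b => ?_
    have h3 : Continuous fun r => ∏ j : Fin w,
        (baseChange (E v) (T (ℓ v)) (r ^ m j) : Matrix (Fin d) (Fin d) (E v)) (a j) (b j) :=
      continuous_finsetProd _ fun j _ =>
        (continuous_apply_apply (a j) (b j)).comp (hTc.comp (continuous_zpow (m j)))
    exact h3
  unfold crossAt cross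
  exact (((hTn.pow 2).sub (hVn.matrix_trace.smul hTn)).add
    (hVn.matrix_det.smul continuous_const)).matrix_det

variable [TopologicalSpace G] [IsTopologicalGroup G] [CompactSpace G] [MeasurableSpace G]
  [BorelSpace G] (μ : Measure G) [μ.IsHaarMeasure]

omit [∀ v, IsUltrametricDist (E v)] in
theorem exists_small (v : Λ) {ε : ℝ} (hε : 0 < ε) (K : ℕ) :
    ∃ S : Finset (E v), S.card = K ∧ ∀ x ∈ S, ‖x‖ ≤ 1 ∧ ‖x‖ < ε := by
  classical
  obtain ⟨c, hc0, hc⟩ := NormedField.exists_norm_lt (E v) (lt_min hε one_pos)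
  have hc1 : ‖c‖ < 1 := hc.trans_le (min_le_right _ _)
  have hinj : Function.Injective fun i : ℕ => c ^ (i + 1) := by
    intro i i' h
    have h1 : ‖c‖ ^ (i + 1) = ‖c‖ ^ (i' + 1) := by
      have := congrArg norm h
      simpa only [norm_pow] using this
    have h2 := (pow_right_strictAnti₀ hc0 hc1).injective h1
    omega
  refine ⟨(Finset.range K).image fun i : ℕ => c ^ (i + 1), ?_, ?_⟩
  · rw [Finset.card_image_of_injective _ hinj, Finset.card_range]
  · intro x hx
    obtain ⟨i, -, rfl⟩ := Finset.mem_image.1 hx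
    have h1 : ‖c ^ (i + 1)‖ ≤ ‖c‖ := by
      rw [norm_pow]
      exact pow_le_of_le_one (norm_nonneg _) hc1.le (by omega)
    exact ⟨h1.trans hc1.le, h1.trans_lt (hc.trans_le (min_le_left _ _))⟩

theorem null_cross (hV : ∀ v, Continuous (V v)) (hT : ∀ (l : ℕ) [Fact l.Prime], Continuous (T l))
    {v : Λ} {ε : ℝ} (hε : 0 < ε) (hfull : Full V (commonKernel T) v ε) {n : ℕ} (hn : 0 < n)
    {w : ℕ} (m : Fin w → ℤ) :
    μ {r | crossAt ℓ V T n m v r = 0} = 0 := by
  classical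
  have hZ : MeasurableSet {r | crossAt ℓ V T n m v r = 0} :=
    (isClosed_singleton.preimage (continuous_crossAt ℓ V T hV hT n m v)).measurableSet
  have key : ∀ K : ℕ, (K : ENNReal) * μ {r | crossAt ℓ V T n m v r = 0} ≤
      ((Fintype.card (Fin w → Fin d) * n + 1 : ℕ) : ENNReal) * μ Set.univ := by
    intro K
    obtain ⟨S, hS, hS'⟩ := exists_small (E := E) v hε K
    have hex : ∀ p : E v × E v, ∃ h : G, p ∈ S ×ˢ S → T (ℓ v) h = 1 ∧
        (V v h : Matrix (Fin 2) (Fin 2) (E v)) = um p.1 p.2 := by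
      intro p
      by_cases hp : p ∈ S ×ˢ S
      · obtain ⟨h1, h2⟩ := Finset.mem_product.1 hp
        obtain ⟨h, hh, hh'⟩ := exists_um V (commonKernel T) v hfull p.1 p.2 (hS' _ h1).1
          (hS' _ h2).1 (hS' _ h1).2 (hS' _ h2).2
        exact ⟨h, fun _ => ⟨Subgroup.mem_iInf.mp (Subgroup.mem_iInf.mp hh (ℓ v)) inferInstance,
          hh'⟩⟩
      · exact ⟨1, fun h => absurd h hp⟩
    choose h hh using hex
    rw [← hS]
    refine avg_sq μ S h _ hZ (Fintype.card (Fin w → Fin d) * n) fun r => ?_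
    have hA : (V v r : Matrix (Fin 2) (Fin 2) (E v)).det ≠ 0 := by
      have := (Matrix.isUnit_iff_isUnit_det _).1 (V v r).isUnit
      exact this.ne_zero
    have hQ := qpoly_monic (tens (baseChange (E v) (T (ℓ v))) m r)
      (tens (baseChange (E v) (T (ℓ v))) (fun j => -m j) r)
      (V v r : Matrix (Fin 2) (Fin 2) (E v)).det hn
    have hQd := qpoly_natDegree_le (tens (baseChange (E v) (T (ℓ v))) m r)
      (tens (baseChange (E v) (T (ℓ v))) (fun j => -m j) r)
      (V v r : Matrix (Fin 2) (Fin 2) (E v)).det n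
    have h1 := count_le S (id : E v → E v) (Set.injOn_id _)
      (V v r : Matrix (Fin 2) (Fin 2) (E v)) hA _ hQ.ne_zero
    refine le_trans (Finset.card_le_card ?_) (h1.trans (Nat.mul_le_mul_left _ (by omega)))
    intro p hp
    obtain ⟨hp1, hp2⟩ := Finset.mem_filter.1 hp
    obtain ⟨h2, h3⟩ := hh p hp1
    refine Finset.mem_filter.2 ⟨hp1, ?_⟩
    have h4 : crossAt ℓ V T n m v (h p * r) = 0 := hp2
    rw [crossAt_mul ℓ V T n m v (h p) r h2 p.1 p.2 h3] at h4
    exact (hit_iff _ _ _ (tens_mul_inv (baseChange (E v) (T (ℓ v))) m r) n p.1 p.2).1 h4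
  by_contra h0
  have hfin : ((Fintype.card (Fin w → Fin d) * n + 1 : ℕ) : ENNReal) * μ Set.univ ≠ ⊤ :=
    ENNReal.mul_ne_top (ENNReal.natCast_ne_top _) (measure_ne_top _ _)
  obtain ⟨K, hK⟩ := ENNReal.exists_nat_mul_gt h0 hfin
  exact absurd (key K) (not_le.2 hK)

theorem small_cross [∀ v, FiniteDimensional ℚ_[ℓ v] (E v)] (R : ∀ v, Finset (E v))
    (hR : ∀ v, IsReps (R v)) (hV : ∀ v, Continuous (V v))
    (hVi : ∀ v x s t, ‖(V v x : Matrix (Fin 2) (Fin 2) (E v)) s t‖ ≤ 1)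
    (hT : ∀ (l : ℕ) [Fact l.Prime], Continuous (T l))
    (hTi : ∀ (l : ℕ) [Fact l.Prime] (x : G) (s t : Fin d),
      ‖(T l x : Matrix (Fin d) (Fin d) ℚ_[l]) s t‖ ≤ 1)
    {v : Λ} (hfull : Full V (commonKernel T) v 2) {n : ℕ} (hn : 0 < n) {w : ℕ}
    (m : Fin w → ℤ) :
    ((R v).card : ENNReal) * μ {r | ‖crossAt ℓ V T n m v r‖ < 1} ≤
      ((Fintype.card (Fin w → Fin d) * n + 1 : ℕ) : ENNReal) * μ Set.univ := by
  classical
  have hZ : MeasurableSet {r | ‖crossAt ℓ V T n m v r‖ < 1} :=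
    (isOpen_lt (continuous_crossAt ℓ V T hV hT n m v).norm continuous_const).measurableSet
  obtain ⟨O, k, _, _, _, π, hO, -, hπ, -⟩ := exists_residue (p := ℓ v) (E v)
  have hex : ∀ p : E v × E v, ∃ h : G, p ∈ R v ×ˢ R v → T (ℓ v) h = 1 ∧
      (V v h : Matrix (Fin 2) (Fin 2) (E v)) = um p.1 p.2 := by
    intro p
    by_cases hp : p ∈ R v ×ˢ R v
    · obtain ⟨h1, h2⟩ := Finset.mem_product.1 hp
      have h3 := (hR v).1 _ h1
      have h4 := (hR v).1 _ h2
      obtain ⟨h, hh, hh'⟩ := exists_um V (commonKernel T) v hfull p.1 p.2 h3 h4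
        (by linarith) (by linarith)
      exact ⟨h, fun _ => ⟨Subgroup.mem_iInf.mp (Subgroup.mem_iInf.mp hh (ℓ v)) inferInstance,
        hh'⟩⟩
    · exact ⟨1, fun h => absurd h hp⟩
  choose h hh using hex
  refine avg_sq μ (R v) h _ hZ (Fintype.card (Fin w → Fin d) * n) fun r => ?_
  have hbc : ∀ x s t,
      ‖(baseChange (E v) (T (ℓ v)) x : Matrix (Fin d) (Fin d) (E v)) s t‖ ≤ 1 := by
    intro x s t
    show ‖algebraMap ℚ_[ℓ v] (E v) ((T (ℓ v) x : Matrix (Fin d) (Fin d) ℚ_[ℓ v]) s t)‖ ≤ 1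
    rw [norm_algebraMap']
    exact hTi (ℓ v) x s t
  let A : Matrix (Fin 2) (Fin 2) O := Matrix.of fun s t =>
    ⟨(V v r : Matrix (Fin 2) (Fin 2) (E v)) s t, (hO _).2 (hVi v r s t)⟩
  have htens : ∀ (m : Fin w → ℤ) s t, ‖tens (baseChange (E v) (T (ℓ v))) m r s t‖ ≤ 1 := by
    intro m s t
    show ‖∏ j, (baseChange (E v) (T (ℓ v)) (r ^ m j) : Matrix (Fin d) (Fin d) (E v)) (s j) (t j)‖ ≤ 1
    rw [norm_prod]
    exact Finset.prod_le_one (fun j _ => norm_nonneg _) fun j _ => hbc _ _ _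
  let B : Matrix (Fin w → Fin d) (Fin w → Fin d) O := Matrix.of fun s t =>
    ⟨tens (baseChange (E v) (T (ℓ v))) m r s t, (hO _).2 (htens m s t)⟩
  let B' : Matrix (Fin w → Fin d) (Fin w → Fin d) O := Matrix.of fun s t =>
    ⟨tens (baseChange (E v) (T (ℓ v))) (fun j => -m j) r s t, (hO _).2 (htens _ s t)⟩
  have hA : (V v r : Matrix (Fin 2) (Fin 2) (E v)) = A.map O.subtype := by
    ext s t
    rfl
  have hB : tens (baseChange (E v) (T (ℓ v))) m r = B.map O.subtype := by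
    ext s t
    rfl
  have hB' : tens (baseChange (E v) (T (ℓ v))) (fun j => -m j) r = B'.map O.subtype := by
    ext s t
    rfl
  have hBB : B * B' = 1 := by
    have h1 := tens_mul_inv (baseChange (E v) (T (ℓ v))) m r
    rw [hB, hB', ← Matrix.map_mul] at h1
    have h2 : (1 : Matrix (Fin w → Fin d) (Fin w → Fin d) (E v)) =
        (1 : Matrix (Fin w → Fin d) (Fin w → Fin d) O).map O.subtype := by
      rw [Matrix.map_one _ (map_zero _) (map_one _)]
    rw [h2] at h1
    exact Matrix.map_injective Subtype.val_injective h1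
  have hBk : B.map π * B'.map π = 1 := by
    rw [← Matrix.map_mul, hBB, Matrix.map_one _ (map_zero _) (map_one _)]
  have hAk : (A.map π).det ≠ 0 := by
    have h1 : (A.map π).det = π A.det := (RingHom.map_det π A).symm
    rw [h1, Ne, hπ]
    have h2 : ((A.det : O) : E v) = (V v r : Matrix (Fin 2) (Fin 2) (E v)).det := by
      rw [hA]
      exact RingHom.map_det O.subtype A
    rw [h2, norm_det_eq_one (V v) (hVi v) r]
    exact lt_irrefl _
  let ρ : E v → k := fun x => if hx : x ∈ O then π ⟨x, hx⟩ else 0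
  have hmem : ∀ x ∈ R v, x ∈ O := fun x hx => (hO x).2 ((hR v).1 x hx)
  have hρ : Set.InjOn ρ (R v) := by
    intro x hx y hy hxy
    have hxO := hmem x hx
    have hyO := hmem y hy
    simp only [ρ, hxO, hyO, dite_true] at hxy
    have h2 : π (⟨x, hxO⟩ - ⟨y, hyO⟩) = 0 := by
      rw [map_sub, hxy, sub_self]
    have h3 : ‖x - y‖ < 1 := (hπ _).1 h2
    obtain ⟨z, -, hz⟩ := (hR v).2 x ((hR v).1 x hx)
    rw [hz x ⟨hx, by rw [sub_self, norm_zero]; exact one_pos⟩, hz y ⟨hy, h3⟩]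
  have hQ := qpoly_monic (B.map π) (B'.map π) (A.map π).det hn
  have hQd := qpoly_natDegree_le (B.map π) (B'.map π) (A.map π).det n
  have h1 := count_le (R v) ρ hρ (A.map π) hAk _ hQ.ne_zero
  refine le_trans (Finset.card_le_card ?_) (h1.trans (Nat.mul_le_mul_left _ (by omega)))
  intro p hp
  obtain ⟨hp1, hp2⟩ := Finset.mem_filter.1 hp
  obtain ⟨h2, h3⟩ := hh p hp1
  refine Finset.mem_filter.2 ⟨hp1, ?_⟩
  obtain ⟨hs, ht⟩ := Finset.mem_product.1 hp1
  have hsO := hmem _ hs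
  have htO := hmem _ ht
  have h4 : ‖crossAt ℓ V T n m v (h p * r)‖ < 1 := hp2
  rw [crossAt_mul ℓ V T n m v (h p) r h2 p.1 p.2 h3] at h4
  have h5 : cross ((um p.1 p.2 * (V v r : Matrix (Fin 2) (Fin 2) (E v))) ^ n)
      (tens (baseChange (E v) (T (ℓ v))) m r) =
      O.subtype (cross ((um (⟨p.1, hsO⟩ : O) ⟨p.2, htO⟩ * A) ^ n) B) := by
    rw [← cross_um_map, ← hA, ← hB]
    rfl
  rw [h5] at h4
  have h6 : π (cross ((um (⟨p.1, hsO⟩ : O) ⟨p.2, htO⟩ * A) ^ n) B) = 0 := (hπ _).2 h4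
  rw [← cross_um_map] at h6
  have h7 : π ⟨p.1, hsO⟩ = ρ p.1 := by
    simp only [ρ, hsO, dite_true]
  have h8 : π ⟨p.2, htO⟩ = ρ p.2 := by
    simp only [ρ, htO, dite_true]
  rw [h7, h8] at h6
  exact (hit_iff _ _ _ hBk n (ρ p.1) (ρ p.2)).1 h6

end

end Pool.Agent.Helper55.AV
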