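import Pool.Agent.Helper55.AV.Pairs
import Pool.Agent.Helper55.AV.Dens

/-!
# AllVarieties: one element, a common eigenvalue modulo many places

For almost all `σ` the set of the places at which `σ` has a common eigenvalue modulo the maximal
ideal has density zero.
-/

set_option autoImplicit false

open Polynomial MeasureTheory Filter

namespace Pool.Agent.Helper55.AV

/-- a set of natural numbers with convergent sum of the reciprocals has density zero -/
theorem density_zero_of_summable {A : Set ℕ}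
    (h : ∑' k : ℕ, A.indicator (fun k : ℕ => ENNReal.ofReal (1 / ((k : ℝ) + 1))) k ≠ ⊤) :
    HasDensity A 0 := by
  classical
  have hs : Summable fun k : ℕ => (if k ∈ A then 1 / ((k : ℝ) + 1) else 0) := by
    have h1 : (fun k : ℕ => A.indicator (fun k : ℕ => ENNReal.ofReal (1 / ((k : ℝ) + 1))) k) =
        fun k : ℕ => ENNReal.ofReal (if k ∈ A then 1 / ((k : ℝ) + 1) else 0) := by
      funext k
      by_cases hk : k ∈ A
      · simp [hk]
      · simp [hk]
    rw [h1] at h
    have h2 := ENNReal.summable_toReal h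
    refine h2.congr fun k => ?_
    rw [ENNReal.toReal_ofReal]
    split_ifs
    · positivity
    · exact le_rfl
  refine density_zero_of fun ε hε => ?_
  have hnn : ∀ k : ℕ, 0 ≤ (if k ∈ A then 1 / ((k : ℝ) + 1) else 0) := by
    intro k
    split_ifs
    · positivity
    · exact le_rfl
  obtain ⟨s, hs'⟩ := (summable_iff_vanishing_norm.1 hs) (ε / 2) (by linarith)
  obtain ⟨K, hK⟩ : ∃ K, ∀ x ∈ s, x < K := by
    refine ⟨s.sup id + 1, fun x hx => ?_⟩
    exact Nat.lt_succ_of_le (Finset.le_sup (f := id) hx)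
  obtain ⟨m, hm⟩ := exists_nat_gt ((K : ℝ) / (ε / 2))
  filter_upwards [eventually_ge_atTop m] with N hN
  -- the elements at least `K`
  let t : Finset ℕ := (Finset.range N).filter fun k => k ∈ A ∧ K ≤ k
  have ht : Disjoint t s := by
    rw [Finset.disjoint_left]
    intro x hx hxs
    have h1 := (Finset.mem_filter.1 hx).2.2
    have h2 := hK x hxs
    omega
  have h1 := hs' t ht
  rw [Real.norm_of_nonneg (Finset.sum_nonneg fun k _ => hnn k)] at h1
  have h2 : (t.card : ℝ) ≤ N * ∑ k ∈ t, (if k ∈ A then 1 / ((k : ℝ) + 1) else 0) := by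
    rw [Finset.mul_sum, ← nsmul_one t.card, ← Finset.sum_const]
    refine Finset.sum_le_sum fun k hk => ?_
    obtain ⟨hk1, hk2, -⟩ := Finset.mem_filter.1 hk
    rw [if_pos hk2]
    have h3 : (k : ℝ) + 1 ≤ N := by
      exact_mod_cast Finset.mem_range.1 hk1
    have h4 : (0 : ℝ) < (k : ℝ) + 1 := by positivity
    rw [mul_one_div, le_div_iff₀ h4]
    linarith
  have h3 : (A ∩ Set.Iio N).ncard ≤ K + t.card := by
    have h4 : (A ∩ Set.Iio N) ⊆ ((Finset.range K ∪ t : Finset ℕ) : Set ℕ) := by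
      rintro k ⟨hk, hkN⟩
      rw [Finset.mem_coe, Finset.mem_union]
      by_cases hkK : K ≤ k
      · exact Or.inr (Finset.mem_filter.2 ⟨Finset.mem_range.2 hkN, hk, hkK⟩)
      · exact Or.inl (Finset.mem_range.2 (not_le.1 hkK))
    have h5 := Set.ncard_le_ncard h4 (Finset.finite_toSet _)
    rw [Set.ncard_coe_finset] at h5
    refine h5.trans ((Finset.card_union_le _ _).trans ?_)
    rw [Finset.card_range]
  have h4 : ((A ∩ Set.Iio N).ncard : ℝ) ≤ (K : ℝ) + (t.card : ℝ) := by exact_mod_cast h3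
  have h5 : (K : ℝ) < (ε / 2) * m := by
    rw [div_lt_iff₀ (by linarith)] at hm
    linarith
  have h6 : (m : ℝ) ≤ N := by exact_mod_cast hN
  have h7 : (0 : ℝ) ≤ N := Nat.cast_nonneg _
  nlinarith

section

variable {Λ : Type} (ℓ : Λ → ℕ) [∀ v, Fact (ℓ v).Prime] {G : Type} [MeasurableSpace G]
  (μ : Measure G) [IsFiniteMeasure μ]

private theorem mul_le_sq (x y : ENNReal) : x * y ≤ x ^ 2 + y ^ 2 := by
  rcases le_total x y with h | h
  · calc x * y ≤ y * y := mul_le_mul' h le_rfl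
      _ = y ^ 2 := (sq y).symm
      _ ≤ x ^ 2 + y ^ 2 := le_add_self
  · calc x * y ≤ x * x := mul_le_mul' le_rfl h
      _ = x ^ 2 := (sq x).symm
      _ ≤ x ^ 2 + y ^ 2 := le_self_add

/-- if the sets `Z v` have measure at most `C / ℓ v`, then almost every element lies in the sets
`Z v` for a set of places `v` of density zero -/
theorem null_density (a : ℕ) (hℓ : ∀ l, {v | ℓ v = l}.encard ≤ a) (Z : Λ → Set G)
    (hZ : ∀ v, MeasurableSet (Z v)) (S : Finset Λ) {C : ENNReal} (hC : C ≠ ⊤)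
    (hZC : ∀ v, v ∉ S → ((ℓ v : ℕ) : ENNReal) * μ (Z v) ≤ C) (e : ℕ ≃ Λ) :
    μ {σ | ¬ HasDensity {k | σ ∈ Z (e k)} 0} = 0 := by
  classical
  let u : ℕ → ENNReal := fun k => ENNReal.ofReal (1 / ((k : ℝ) + 1))
  have hu1 : ∀ k, u k ≤ 1 := by
    intro k
    show ENNReal.ofReal _ ≤ 1
    rw [ENNReal.ofReal_le_one, div_le_one (by positivity)]
    have : (0 : ℝ) ≤ k := Nat.cast_nonneg _
    linarith
  have hbound : ∀ k, u k * μ (Z (e k)) ≤ (if e k ∈ S then μ Set.univ else 0) +
      (C * (((ℓ (e k) : ℕ) : ENNReal) ^ 2)⁻¹ + C * u k ^ 2) := by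
    intro k
    split_ifs with hv
    · refine (mul_le_mul' (hu1 k) (measure_mono (Set.subset_univ _))).trans ?_
      rw [one_mul]
      exact le_self_add
    · rw [zero_add]
      have hl0 : ((ℓ (e k) : ℕ) : ENNReal) ≠ 0 := by
        have : (ℓ (e k)) ≠ 0 := (Fact.out : (ℓ (e k)).Prime).ne_zero
        exact_mod_cast this
      have h2 : μ (Z (e k)) ≤ C * ((ℓ (e k) : ℕ) : ENNReal)⁻¹ := by
        rw [← div_eq_mul_inv,
          ENNReal.le_div_iff_mul_le (Or.inl hl0) (Or.inl (ENNReal.natCast_ne_top _)), mul_comm]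
        exact hZC (e k) hv
      calc u k * μ (Z (e k)) ≤ u k * (C * ((ℓ (e k) : ℕ) : ENNReal)⁻¹) :=
            mul_le_mul' le_rfl h2
        _ = C * (((ℓ (e k) : ℕ) : ENNReal)⁻¹ * u k) := by ring
        _ ≤ C * ((((ℓ (e k) : ℕ) : ENNReal)⁻¹) ^ 2 + u k ^ 2) :=
            mul_le_mul' le_rfl (mul_le_sq _ _)
        _ = C * (((ℓ (e k) : ℕ) : ENNReal) ^ 2)⁻¹ + C * u k ^ 2 := by
            rw [mul_add, ENNReal.inv_pow]
  have hsum : ∑' k, u k * μ (Z (e k)) ≠ ⊤ := by
    refine ne_top_of_le_ne_top ?_ (ENNReal.tsum_le_tsum hbound)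
    rw [ENNReal.tsum_add, ENNReal.tsum_add, ENNReal.tsum_mul_left, ENNReal.tsum_mul_left]
    refine ENNReal.add_ne_top.2 ⟨?_, ENNReal.add_ne_top.2
      ⟨ENNReal.mul_ne_top hC ?_, ENNReal.mul_ne_top hC ?_⟩⟩
    · have h1 : ∑' k, (if e k ∈ S then μ Set.univ else 0) =
          ∑' v, (if v ∈ S then μ Set.univ else 0) :=
        e.tsum_eq (fun v => if v ∈ S then μ Set.univ else 0)
      rw [h1, tsum_eq_sum (s := S) fun v hv => if_neg hv]
      refine ENNReal.sum_ne_top.2 fun v hv => ?_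
      rw [if_pos hv]
      exact measure_ne_top _ _
    · have h1 : ∑' k, (((ℓ (e k) : ℕ) : ENNReal) ^ 2)⁻¹ =
          ∑' v, (((ℓ v : ℕ) : ENNReal) ^ 2)⁻¹ :=
        e.tsum_eq (fun v => (((ℓ v : ℕ) : ENNReal) ^ 2)⁻¹)
      rw [h1]
      exact tsum_places ℓ (fun v => (Fact.out : (ℓ v).Prime).pos) a hℓ
    · have h1 : ∀ k, u k ^ 2 = ENNReal.ofReal (1 / ((k + 1 : ℕ) : ℝ) ^ 2) := by
        intro k
        show ENNReal.ofReal _ ^ 2 = _
        rw [← ENNReal.ofReal_pow (by positivity)]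
        rw [div_pow, one_pow]
        push_cast
        rfl
      simp only [h1]
      exact ((summable_nat_add_iff 1).2
        (Real.summable_one_div_nat_pow.2 one_lt_two)).tsum_ofReal_ne_top
  let F : G → ENNReal := fun σ => ∑' k, (Z (e k)).indicator (fun _ => u k) σ
  have hFm : Measurable F :=
    Measurable.ennreal_tsum fun k => measurable_const.indicator (hZ (e k))
  have hFint : ∫⁻ σ, F σ ∂μ ≠ ⊤ := by
    have h1 : ∫⁻ σ, F σ ∂μ = ∑' k, u k * μ (Z (e k)) := by
      show ∫⁻ σ, ∑' k, (Z (e k)).indicator (fun _ => u k) σ ∂μ = _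
      rw [lintegral_tsum fun k => (measurable_const.indicator (hZ (e k))).aemeasurable]
      refine tsum_congr fun k => ?_
      rw [lintegral_indicator_const (hZ (e k))]
    rw [h1]
    exact hsum
  have hae := ae_lt_top hFm hFint
  refine measure_mono_null ?_ (ae_iff.1 hae)
  intro σ hσ hlt
  apply hσ
  refine density_zero_of_summable ?_
  have h1 : ∑' k : ℕ, ({k | σ ∈ Z (e k)} : Set ℕ).indicator
      (fun k : ℕ => ENNReal.ofReal (1 / ((k : ℝ) + 1))) k = F σ := by
    refine tsum_congr fun k => ?_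
    by_cases hk : σ ∈ Z (e k)
    · rw [Set.indicator_of_mem hk]
      exact Set.indicator_of_mem (show k ∈ {k | σ ∈ Z (e k)} from hk) _
    · rw [Set.indicator_of_notMem hk]
      exact Set.indicator_of_notMem (show k ∉ {k | σ ∈ Z (e k)} from hk) _
  rw [h1]
  exact hlt.ne

end

end Pool.Agent.Helper55.AV
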