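import Pool.Agent.Helper55.AV.Cross

/-!
# AllVarieties: polynomials in three entries of several matrices
-/

set_option autoImplicit false

open MvPolynomial

namespace Pool.Agent.Helper55.AV

/-- a product of four unipotent matrices -/
def um2 {k : Type*} [CommRing k] (x : Fin 4 → k) : Matrix (Fin 2) (Fin 2) k :=
  um (x 0) (x 1) * um (x 2) (x 3)

/-- three of the four entries -/
def ent {k : Type*} (A : Matrix (Fin 2) (Fin 2) k) : Fin 3 → k := ![A 0 0, A 0 1, A 1 0]

theorem um2_det {k : Type*} [CommRing k] (x : Fin 4 → k) : (um2 x).det = 1 := by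
  rw [um2, Matrix.det_mul, um_det, um_det, one_mul]

theorem um2_map {K L : Type*} [CommRing K] [CommRing L] (φ : K →+* L) (x : Fin 4 → K) :
    (um2 x).map φ = um2 fun i => φ (x i) := by
  rw [um2, Matrix.map_mul, um_map, um_map]
  rfl

theorem ent_map {K L : Type*} (φ : K → L) (A : Matrix (Fin 2) (Fin 2) K) (i : Fin 3) :
    ent (A.map φ) i = φ (ent A i) := by
  fin_cases i <;> rfl

section

variable {k : Type*} [Field k]

/-- every matrix of determinant one is a product of four unipotent matrices -/
theorem um2_surj (N : Matrix (Fin 2) (Fin 2) k) (hN : N.det = 1) : ∃ x, um2 x = N := by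
  rw [Matrix.det_fin_two] at hN
  by_cases h : N 1 1 = 0
  · rw [h, mul_zero, zero_sub] at hN
    have hc : N 1 0 ≠ 0 := by
      intro h0
      rw [h0, mul_zero, neg_zero] at hN
      exact zero_ne_one hN
    refine ⟨![N 1 0, (N 0 0 - 1) / N 1 0, 0, N 0 1], ?_⟩
    ext i j
    fin_cases i <;> fin_cases j
    · simp [um2, um, Matrix.mul_apply, Fin.sum_univ_two]
      field_simp
      ring
    · simp [um2, um, Matrix.mul_apply, Fin.sum_univ_two]
      field_simp
      linear_combination (-(N 0 0 - 1)) * hN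
    · simp [um2, um, Matrix.mul_apply, Fin.sum_univ_two]
    · simp [um2, um, Matrix.mul_apply, Fin.sum_univ_two]
      rw [h]
      linear_combination -hN
  · refine ⟨![1, (N 0 1 - (N 1 1 - 1)) / N 1 1, (N 1 0 - 1) / N 1 1, N 1 1 - 1], ?_⟩
    ext i j
    fin_cases i <;> fin_cases j
    · simp [um2, um, Matrix.mul_apply, Fin.sum_univ_two]
      field_simp
      linear_combination (-(N 1 1)) * hN
    · simp [um2, um, Matrix.mul_apply, Fin.sum_univ_two]
      field_simp
      ring
    · simp [um2, um, Matrix.mul_apply, Fin.sum_univ_two]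
      field_simp
      ring
    · simp [um2, um, Matrix.mul_apply, Fin.sum_univ_two]

/-- the three entries take all values with the first one not zero -/
theorem exists_param (A : Matrix (Fin 2) (Fin 2) k) (hA : A.det ≠ 0) (y : Fin 3 → k)
    (hy : y 0 ≠ 0) : ∃ x, ent (um2 x * A) = y := by
  let M : Matrix (Fin 2) (Fin 2) k := !![y 0, y 1; y 2, (A.det + y 1 * y 2) / y 0]
  have hM : M.det = A.det := by
    rw [Matrix.det_fin_two_of]
    field_simp
    ring
  have hN : (M * A⁻¹).det = 1 := by
    rw [Matrix.det_mul, hM, Matrix.det_nonsing_inv, Ring.inverse_eq_inv', mul_inv_cancel₀ hA]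
  obtain ⟨x, hx⟩ := um2_surj _ hN
  refine ⟨x, ?_⟩
  have h1 : um2 x * A = M := by
    rw [hx, Matrix.mul_assoc, Matrix.nonsing_inv_mul _ (isUnit_iff_ne_zero.2 hA), Matrix.mul_one]
  rw [h1]
  funext i
  fin_cases i <;> rfl

/-- the degree of a polynomial after a substitution -/
theorem totalDegree_subst_le {σ τ : Type*} (f : σ → MvPolynomial τ k) {D : ℕ}
    (hf : ∀ x, (f x).totalDegree ≤ D) (q : MvPolynomial σ k) :
    (bind₁ f q).totalDegree ≤ D * q.totalDegree := by
  classical
  rw [bind₁, aeval_def, eval₂_eq]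
  refine totalDegree_finsetSum_le fun u hu => ?_
  refine (totalDegree_mul _ _).trans ?_
  have h1 : (algebraMap k (MvPolynomial τ k) (q.coeff u)).totalDegree = 0 := totalDegree_C _
  rw [h1, zero_add]
  refine (totalDegree_finsetProd _ _).trans ?_
  calc ∑ i ∈ u.support, (f i ^ u i).totalDegree ≤ ∑ i ∈ u.support, D * u i := by
        refine Finset.sum_le_sum fun i _ => ?_
        refine (totalDegree_pow _ _).trans ?_
        rw [mul_comm]
        exact Nat.mul_le_mul_right _ (hf i)
    _ = D * ∑ i ∈ u.support, u i := by rw [Finset.mul_sum]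
    _ ≤ D * q.totalDegree := Nat.mul_le_mul_left _ (le_totalDegree hu)

/-- the generic matrices: parameters `p (m, j)` and matrices `A m` -/
noncomputable def genM {n : ℕ} (A : Fin n → Matrix (Fin 2) (Fin 2) k) (x : Fin n × Fin 3) :
    MvPolynomial (Fin (n * 4)) k :=
  ent (um2 (fun j => X (finProdFinEquiv (x.1, j))) * (A x.1).map C) x.2

theorem hom_genM {n : ℕ} {L : Type*} [CommRing L] (ψ : MvPolynomial (Fin (n * 4)) k →+* L)
    (A : Fin n → Matrix (Fin 2) (Fin 2) k) (x : Fin n × Fin 3) :
    ψ (genM A x) = ent (um2 (fun j => ψ (X (finProdFinEquiv (x.1, j)))) *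
      (A x.1).map fun a => ψ (C a)) x.2 := by
  rw [genM, ← ent_map (ψ : MvPolynomial (Fin (n * 4)) k → L), Matrix.map_mul, um2_map]
  rfl

theorem totalDegree_mul_le {τ : Type*} (M N : Matrix (Fin 2) (Fin 2) (MvPolynomial τ k)) {a b : ℕ}
    (hM : ∀ i j, (M i j).totalDegree ≤ a) (hN : ∀ i j, (N i j).totalDegree ≤ b) (i j : Fin 2) :
    ((M * N) i j).totalDegree ≤ a + b := by
  rw [Matrix.mul_apply]
  refine totalDegree_finsetSum_le fun l _ => ?_
  exact (totalDegree_mul _ _).trans (Nat.add_le_add (hM _ _) (hN _ _))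

theorem totalDegree_um_le {τ : Type*} (s t : τ) (i j : Fin 2) :
    (um (X s : MvPolynomial τ k) (X t) i j).totalDegree ≤ 2 := by
  have hs : (X s : MvPolynomial τ k).totalDegree = 1 := totalDegree_X s
  have ht : (X t : MvPolynomial τ k).totalDegree = 1 := totalDegree_X t
  have h1 : (1 + X t * X s : MvPolynomial τ k).totalDegree ≤ 2 := by
    refine (totalDegree_add _ _).trans (max_le ?_ ?_)
    · rw [totalDegree_one]
      exact Nat.zero_le _
    · refine (totalDegree_mul _ _).trans ?_
      rw [hs, ht]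
  fin_cases i <;> fin_cases j
  · exact h1
  · exact ht.le.trans one_le_two
  · exact hs.le.trans one_le_two
  · exact (totalDegree_one (R := k) (σ := τ)).le.trans (Nat.zero_le _)

theorem totalDegree_genM {n : ℕ} (A : Fin n → Matrix (Fin 2) (Fin 2) k) (x : Fin n × Fin 3) :
    (genM A x).totalDegree ≤ 4 := by
  have h1 : ∀ i j, ((um2 (fun j => X (finProdFinEquiv (x.1, j))) * (A x.1).map C :
      Matrix (Fin 2) (Fin 2) (MvPolynomial (Fin (n * 4)) k)) i j).totalDegree ≤ 4 := by
    intro i j
    refine (totalDegree_mul_le _ _ (a := 4) (b := 0) ?_ ?_ i j).trans le_rfl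
    · exact totalDegree_mul_le _ _ (totalDegree_um_le _ _) (totalDegree_um_le _ _)
    · intro i j
      exact (totalDegree_C _).le
  rcases x with ⟨m, e⟩
  fin_cases e
  · exact h1 0 0
  · exact h1 0 1
  · exact h1 1 0

/-- the substitution of the generic matrices is injective -/
theorem subst_ne_zero {n : ℕ} (A : Fin n → Matrix (Fin 2) (Fin 2) k) (hA : ∀ m, (A m).det ≠ 0)
    (q : MvPolynomial (Fin n × Fin 3) k) (hq : q ≠ 0) : bind₁ (genM A) q ≠ 0 := by
  classical
  intro h0
  let φ : k →+* AlgebraicClosure k := algebraMap k (AlgebraicClosure k)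
  have hφ : Function.Injective φ := φ.injective
  have hq' : (map φ q) * ∏ m : Fin n, X (m, (0 : Fin 3)) ≠ 0 := by
    refine mul_ne_zero ?_ (Finset.prod_ne_zero_iff.2 fun m _ => X_ne_zero _)
    intro h
    exact hq (map_injective φ hφ (h.trans (map_zero _).symm))
  obtain ⟨y, hy⟩ : ∃ y : Fin n × Fin 3 → AlgebraicClosure k,
      eval y ((map φ q) * ∏ m : Fin n, X (m, (0 : Fin 3))) ≠ 0 := by
    by_contra hne
    push Not at hne
    exact hq' (funext fun y => by rw [hne y, _root_.map_zero])
  rw [_root_.map_mul, map_prod] at hy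
  have hy1 := left_ne_zero_of_mul hy
  have hy2 := Finset.prod_ne_zero_iff.1 (right_ne_zero_of_mul hy)
  have hex : ∀ m : Fin n, ∃ x : Fin 4 → AlgebraicClosure k,
      ent (um2 x * (A m).map φ) = fun e => y (m, e) := by
    intro m
    refine exists_param ((A m).map φ) ?_ _ ?_
    · have h1 : ((A m).map φ).det = φ (A m).det := (RingHom.map_det φ (A m)).symm
      rw [h1]
      exact fun h => hA m (hφ (h.trans (_root_.map_zero φ).symm))
    · have h2 := hy2 m (Finset.mem_univ m)
      rw [eval_X] at h2
      exact h2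
  choose x hx using hex
  let p : Fin (n * 4) → AlgebraicClosure k := fun i =>
    x (finProdFinEquiv.symm i).1 (finProdFinEquiv.symm i).2
  have h1 : eval₂Hom φ p (bind₁ (genM A) q) = 0 := by
    rw [h0, _root_.map_zero]
  rw [eval₂Hom_bind₁] at h1
  have h3 : (fun z => eval₂Hom φ p (genM A z)) = y := by
    refine _root_.funext fun z => ?_
    rw [hom_genM]
    have h4 : (fun j => eval₂Hom φ p (X (finProdFinEquiv (z.1, j)))) = x z.1 := by
      refine _root_.funext fun j => ?_
      rw [eval₂Hom_X']
      show x (finProdFinEquiv.symm (finProdFinEquiv (z.1, j))).1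
        (finProdFinEquiv.symm (finProdFinEquiv (z.1, j))).2 = x z.1 j
      rw [Equiv.symm_apply_apply]
    have h5 : ((A z.1).map fun a => eval₂Hom φ p (C a)) = (A z.1).map φ := by
      ext i j
      simp
    rw [h4, h5, hx]
  rw [h3] at h1
  apply hy1
  rw [eval_map]
  exact h1

/-- the number of parameters for which a polynomial vanishes at the three entries -/
theorem count_gen {n : ℕ} (A : Fin n → Matrix (Fin 2) (Fin 2) k) (hA : ∀ m, (A m).det ≠ 0)
    (q : MvPolynomial (Fin n × Fin 3) k) (hq : q ≠ 0) (S : Finset k) [DecidableEq k] :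
    ((Fintype.piFinset fun _ : Fin (n * 4) => S).filter fun p =>
      eval (fun x : Fin n × Fin 3 =>
        ent (um2 (fun j => p (finProdFinEquiv (x.1, j))) * A x.1) x.2) q = 0).card * S.card ≤
      4 * q.totalDegree * S.card ^ (n * 4) := by
  have h1 := schwartz_zippel_totalDegree (subst_ne_zero A hA q hq) S
  have h2 := totalDegree_subst_le (genM A) (totalDegree_genM A) q
  have h3 : ∀ p : Fin (n * 4) → k, eval p (bind₁ (genM A) q) = eval (fun x : Fin n × Fin 3 =>
        ent (um2 (fun j => p (finProdFinEquiv (x.1, j))) * A x.1) x.2) q := by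
    intro p
    have h4 := eval₂Hom_bind₁ (RingHom.id k) p (genM A) q
    have h5 : (fun z => eval₂Hom (RingHom.id k) p (genM A z)) = fun x : Fin n × Fin 3 =>
        ent (um2 (fun j => p (finProdFinEquiv (x.1, j))) * A x.1) x.2 := by
      refine _root_.funext fun z => ?_
      rw [hom_genM]
      have h6 : ((A z.1).map fun a => eval₂Hom (RingHom.id k) p (C a)) = A z.1 := by
        ext i j
        simp
      rw [h6]
      simp only [eval₂Hom_X']
    rw [h5] at h4
    exact h4
  simp only [h3] at h1
  by_cases hS : S.card = 0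
  · rw [hS, mul_zero]
    exact Nat.zero_le _
  · have hS' : (0 : ℚ≥0) < S.card := by exact_mod_cast Nat.pos_of_ne_zero hS
    rw [div_le_div_iff₀ (pow_pos hS' _) hS'] at h1
    have h4 : ((((Fintype.piFinset fun _ : Fin (n * 4) => S).filter fun p =>
        eval (fun x : Fin n × Fin 3 =>
          ent (um2 (fun j => p (finProdFinEquiv (x.1, j))) * A x.1) x.2) q = 0).card : ℕ) : ℚ≥0) *
        S.card ≤ ((4 * q.totalDegree * S.card ^ (n * 4) : ℕ) : ℚ≥0) := by
      refine h1.trans ?_
      push_cast
      refine mul_le_mul' ?_ le_rfl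
      exact_mod_cast h2
    exact_mod_cast h4

end

end Pool.Agent.Helper55.AV
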